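import Mathlib

/-!
Category quantifiers over the group of permutations of the naturals, and back and forth
equivalence of countable structures given by a table of truth values on lists.
-/

set_option autoImplicit false

namespace Pool.Agent.Helper88.OGT

open Topology Filter

/-- The topology of pointwise convergence on permutations of the naturals. -/
@[reducible] def permTop : TopologicalSpace (Equiv.Perm ℕ) :=
  TopologicalSpace.induced (fun g : Equiv.Perm ℕ => (⇑g : ℕ → ℕ)) inferInstance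

attribute [local instance] permTop

theorem continuous_coe_perm : Continuous (fun g : Equiv.Perm ℕ => (⇑g : ℕ → ℕ)) :=
  continuous_induced_dom

theorem isOpen_apply_eq (n m : ℕ) : IsOpen {g : Equiv.Perm ℕ | g n = m} := by
  have h : Continuous (fun g : Equiv.Perm ℕ => g n) :=
    (continuous_apply n).comp continuous_coe_perm
  exact h.isOpen_preimage {m} (isOpen_discrete _)

theorem continuous_symm_coe_perm : Continuous (fun g : Equiv.Perm ℕ => (⇑g.symm : ℕ → ℕ)) := by
  refine continuous_pi fun n => ?_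
  refine continuous_discrete_rng.2 fun m => ?_
  have : (fun g : Equiv.Perm ℕ => g.symm n) ⁻¹' {m} = {g : Equiv.Perm ℕ | g m = n} := by
    ext g
    simp only [Set.mem_preimage, Set.mem_singleton_iff, Set.mem_ofPred_eq]
    constructor
    · intro h; rw [← h]; simp
    · intro h; rw [← h]; simp
  rw [this]
  exact isOpen_apply_eq m n

theorem continuous_inv_perm : Continuous (fun g : Equiv.Perm ℕ => g⁻¹) := by
  rw [continuous_induced_rng]
  exact continuous_symm_coe_perm

/-- the closed embedding of the permutation group in a product of two Baire spaces -/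
def permEmb (g : Equiv.Perm ℕ) : (ℕ → ℕ) × (ℕ → ℕ) := (⇑g, ⇑g.symm)

theorem continuous_permEmb : Continuous permEmb :=
  continuous_coe_perm.prodMk continuous_symm_coe_perm

theorem isClosedEmbedding_permEmb : IsClosedEmbedding permEmb := by
  refine ⟨⟨⟨?_⟩, ?_⟩, ?_⟩
  · apply le_antisymm
    · exact continuous_iff_le_induced.1 continuous_permEmb
    · -- the induced topology from the pair is finer than the one from the first coordinate
      have : (fun g : Equiv.Perm ℕ => (⇑g : ℕ → ℕ)) = Prod.fst ∘ permEmb := rfl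
      show TopologicalSpace.induced permEmb _ ≤ TopologicalSpace.induced _ _
      rw [this, ← induced_compose]
      exact induced_mono (continuous_iff_le_induced.1 continuous_fst)
  · intro g h hgh
    have : (⇑g : ℕ → ℕ) = ⇑h := congrArg Prod.fst hgh
    exact DFunLike.coe_injective this
  · have : Set.range permEmb = {p : (ℕ → ℕ) × (ℕ → ℕ) |
        (∀ n, p.2 (p.1 n) = n) ∧ ∀ n, p.1 (p.2 n) = n} := by
      ext p
      constructor
      · rintro ⟨g, rfl⟩
        exact ⟨fun n => g.symm_apply_apply n, fun n => g.apply_symm_apply n⟩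
      · rintro ⟨h1, h2⟩
        exact ⟨⟨p.1, p.2, h1, h2⟩, rfl⟩
    rw [this]
    have key : ∀ n : ℕ, Continuous fun p : (ℕ → ℕ) × (ℕ → ℕ) => p.2 (p.1 n) := by
      intro n
      refine continuous_discrete_rng.2 fun m => ?_
      have : (fun p : (ℕ → ℕ) × (ℕ → ℕ) => p.2 (p.1 n)) ⁻¹' {m} =
          ⋃ k : ℕ, {p : (ℕ → ℕ) × (ℕ → ℕ) | p.1 n = k ∧ p.2 k = m} := by
        ext p
        simp
      rw [this]
      refine isOpen_iUnion fun k => ?_
      refine IsOpen.and ?_ ?_
      · have h1 : Continuous fun p : (ℕ → ℕ) × (ℕ → ℕ) => p.1 n :=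
          (continuous_apply n).comp continuous_fst
        exact h1.isOpen_preimage {k} (isOpen_discrete _)
      · have h1 : Continuous fun p : (ℕ → ℕ) × (ℕ → ℕ) => p.2 k :=
          (continuous_apply k).comp continuous_snd
        exact h1.isOpen_preimage {m} (isOpen_discrete _)
    have key2 : ∀ n : ℕ, Continuous fun p : (ℕ → ℕ) × (ℕ → ℕ) => p.1 (p.2 n) := by
      intro n
      exact (key n).comp continuous_swap
    rw [Set.ofPred_and, Set.ofPred_forall, Set.ofPred_forall]
    refine IsClosed.inter ?_ ?_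
    · exact isClosed_iInter fun n => isClosed_eq (key n) continuous_const
    · exact isClosed_iInter fun n => isClosed_eq (key2 n) continuous_const

instance instPolishPerm : PolishSpace (Equiv.Perm ℕ) := isClosedEmbedding_permEmb.polishSpace

instance instBairePerm : BaireSpace (Equiv.Perm ℕ) := inferInstance

/-- the basic open set of permutations agreeing with `a` below `n` -/
def cyl (n : ℕ) (a : ℕ → ℕ) : Set (Equiv.Perm ℕ) := {u | ∀ p < n, u p = a p}

theorem isOpen_cyl (n : ℕ) (a : ℕ → ℕ) : IsOpen (cyl n a) := by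
  have : cyl n a = ⋂ p ∈ Finset.range n, {u : Equiv.Perm ℕ | u p = a p} := by
    ext u; simp [cyl]
  rw [this]
  exact isOpen_biInter_finset fun p _ => isOpen_apply_eq p (a p)

theorem exists_cyl_subset {O : Set (Equiv.Perm ℕ)} (hO : IsOpen O) {u : Equiv.Perm ℕ}
    (hu : u ∈ O) : ∃ m, ∀ m' ≥ m, cyl m' u ⊆ O := by
  rw [isOpen_induced_iff] at hO
  obtain ⟨t, ht, rfl⟩ := hO
  have hu' : (⇑u : ℕ → ℕ) ∈ t := hu
  rw [isOpen_pi_iff] at ht
  obtain ⟨I, w, hw, hsub⟩ := ht _ hu'
  refine ⟨I.sup id + 1, fun m' hm' v hv => hsub ?_⟩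
  intro i hi
  have hi' : i < m' := by
    have : i ≤ I.sup id := Finset.le_sup (f := id) hi
    omega
  have := hv i hi'
  show v i ∈ w i
  rw [this]
  exact (hw i hi).2

/-- a finite partial injection extends to a permutation -/
theorem cyl_nonempty {n : ℕ} {a : ℕ → ℕ} (ha : ∀ p < n, ∀ q < n, a p = a q → p = q) :
    (cyl n a).Nonempty := by
  classical
  let s : Finset ℕ := Finset.range n
  let t : Finset ℕ := s.image a
  have hinj : Set.InjOn a (s : Set ℕ) := by
    intro p hp q hq h
    exact ha p (by simpa [s] using hp) q (by simpa [s] using hq) h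
  -- use the equivalence between finite sets of the same cardinality and extend it
  let f : {x // x ∈ (s : Set ℕ)} ≃ {x // x ∈ (t : Set ℕ)} :=
    (Equiv.ofBijective (fun x : {x // x ∈ (s : Set ℕ)} =>
      (⟨a x.1, by
        have hx := x.2
        simp only [t, Finset.coe_image]
        exact ⟨x.1, hx, rfl⟩⟩ : {x // x ∈ (t : Set ℕ)})) (by
        constructor
        · intro x y h
          apply Subtype.ext
          exact hinj x.2 y.2 (congrArg Subtype.val h)
        · rintro ⟨y, hy⟩
          simp only [t, Finset.coe_image] at hy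
          obtain ⟨x, hx, rfl⟩ := hy
          exact ⟨⟨x, hx⟩, rfl⟩))
  have hs : (s : Set ℕ).Finite := s.finite_toSet
  have ht : (t : Set ℕ).Finite := t.finite_toSet
  have e1 : Infinite {x // x ∉ (s : Set ℕ)} := hs.infinite_compl.to_subtype
  have e2 : Infinite {x // x ∉ (t : Set ℕ)} := ht.infinite_compl.to_subtype
  obtain ⟨g⟩ : Nonempty ({x // x ∉ (s : Set ℕ)} ≃ {x // x ∉ (t : Set ℕ)}) :=
    nonempty_equiv_of_countable
  let u : Equiv.Perm ℕ := Equiv.subtypeCongr f g
  refine ⟨u, fun p hp => ?_⟩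
  have hp' : p ∈ (s : Set ℕ) := by simpa [s] using hp
  show Equiv.subtypeCongr f g p = a p
  rw [Equiv.subtypeCongr]
  simp only [Equiv.trans_apply, Equiv.sumCompl_symm_apply_of_pos hp', Equiv.sumCongr_apply,
    Sum.map_inl, Equiv.sumCompl_apply_inl]
  rfl

/-- tables: countable structures on the naturals with countably many relations -/
abbrev Tab (E : Type) : Type := List E × ℕ → Bool

/-- pull a table back along a map -/
def pull {E F : Type} (u : E → F) (N : Tab F) : Tab E := fun p => N (p.1.map u, p.2)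

theorem pull_pull {E F G : Type} (u : E → F) (v : F → G) (N : Tab G) :
    pull u (pull v N) = pull (v ∘ u) N := by
  funext p
  simp [pull, List.map_map]

/-- quantifier free equivalence of two tuples -/
def qf (n : ℕ) (y : Tab ℕ) (a : ℕ → ℕ) (y' : Tab ℕ) (a' : ℕ → ℕ) : Prop :=
  (∀ p < n, ∀ q < n, (a p = a q ↔ a' p = a' q)) ∧
    ∀ l : List ℕ, (∀ p ∈ l, p < n) → ∀ k, y (l.map a, k) = y' (l.map a', k)

/-- back and forth equivalence of rank `γ` of tuples of length `n` -/
def BF (γ : Ordinal.{0}) (n : ℕ) (y : Tab ℕ) (a : ℕ → ℕ) (y' : Tab ℕ) (a' : ℕ → ℕ) : Prop :=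
  qf n y a y' a' ∧ ∀ γ' : Ordinal.{0}, γ' < γ →
    (∀ c, ∃ c', BF γ' (n + 1) y (Function.update a n c) y' (Function.update a' n c')) ∧
    (∀ c', ∃ c, BF γ' (n + 1) y (Function.update a n c) y' (Function.update a' n c'))
termination_by γ

theorem qf_symm {n : ℕ} {y : Tab ℕ} {a : ℕ → ℕ} {y' : Tab ℕ} {a' : ℕ → ℕ}
    (h : qf n y a y' a') : qf n y' a' y a :=
  ⟨fun p hp q hq => (h.1 p hp q hq).symm, fun l hl k => (h.2 l hl k).symm⟩

theorem BF_symm {γ : Ordinal.{0}} : ∀ {n : ℕ} {y : Tab ℕ} {a : ℕ → ℕ} {y' : Tab ℕ} {a' : ℕ → ℕ},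
    BF γ n y a y' a' → BF γ n y' a' y a := by
  induction γ using WellFoundedLT.induction with
  | ind γ ih =>
    intro n y a y' a' h
    rw [BF] at h ⊢
    refine ⟨qf_symm h.1, fun γ' hγ' => ⟨fun c => ?_, fun c => ?_⟩⟩
    · obtain ⟨c', hc'⟩ := (h.2 γ' hγ').2 c
      exact ⟨c', ih γ' hγ' hc'⟩
    · obtain ⟨c', hc'⟩ := (h.2 γ' hγ').1 c
      exact ⟨c', ih γ' hγ' hc'⟩

theorem BF_mono {γ γ' : Ordinal.{0}} (hγ : γ' ≤ γ) {n : ℕ} {y : Tab ℕ} {a : ℕ → ℕ} {y' : Tab ℕ}
    {a' : ℕ → ℕ} (h : BF γ n y a y' a') : BF γ' n y a y' a' := by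
  rw [BF] at h ⊢
  exact ⟨h.1, fun δ hδ => h.2 δ (lt_of_lt_of_le hδ hγ)⟩

theorem BF_qf {γ : Ordinal.{0}} {n : ℕ} {y : Tab ℕ} {a : ℕ → ℕ} {y' : Tab ℕ}
    {a' : ℕ → ℕ} (h : BF γ n y a y' a') : qf n y a y' a' := by
  rw [BF] at h; exact h.1

/-- the relation only depends on the values below `n` -/
theorem qf_congr {n : ℕ} {y : Tab ℕ} {a b : ℕ → ℕ} {y' : Tab ℕ} {a' b' : ℕ → ℕ}
    (hab : ∀ p < n, a p = b p) (hab' : ∀ p < n, a' p = b' p)
    (h : qf n y a y' a') : qf n y b y' b' := by
  refine ⟨fun p hp q hq => ?_, fun l hl k => ?_⟩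
  · rw [← hab p hp, ← hab q hq, ← hab' p hp, ← hab' q hq]; exact h.1 p hp q hq
  · have e1 : l.map b = l.map a := List.map_congr_left fun p hp => (hab p (hl p hp)).symm
    have e2 : l.map b' = l.map a' := List.map_congr_left fun p hp => (hab' p (hl p hp)).symm
    rw [e1, e2]; exact h.2 l hl k

theorem BF_congr {γ : Ordinal.{0}} : ∀ {n : ℕ} {y : Tab ℕ} {a b : ℕ → ℕ} {y' : Tab ℕ}
    {a' b' : ℕ → ℕ}, (∀ p < n, a p = b p) → (∀ p < n, a' p = b' p) →
    BF γ n y a y' a' → BF γ n y b y' b' := by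
  induction γ using WellFoundedLT.induction with
  | ind γ ih =>
    intro n y a b y' a' b' hab hab' h
    have key : ∀ (a b : ℕ → ℕ) (c : ℕ), (∀ p < n, a p = b p) →
        ∀ p < n + 1, Function.update a n c p = Function.update b n c p := by
      intro a b c hab p hp
      by_cases hpn : p = n
      · subst hpn; simp
      · rw [Function.update_of_ne hpn, Function.update_of_ne hpn]
        exact hab p (by omega)
    rw [BF] at h ⊢
    refine ⟨qf_congr hab hab' h.1, fun γ' hγ' => ⟨fun c => ?_, fun c' => ?_⟩⟩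
    · obtain ⟨c', hc'⟩ := (h.2 γ' hγ').1 c
      exact ⟨c', ih γ' hγ' (key _ _ _ hab) (key _ _ _ hab') hc'⟩
    · obtain ⟨c, hc⟩ := (h.2 γ' hγ').2 c'
      exact ⟨c, ih γ' hγ' (key _ _ _ hab) (key _ _ _ hab') hc⟩

/-- extension by several elements -/
theorem BF_extend {γ : Ordinal.{0}} {y y' : Tab ℕ} (m : ℕ) :
    ∀ {n : ℕ} {a a' : ℕ → ℕ}, BF (γ + m) n y a y' a' → ∀ c' : ℕ → ℕ, (∀ p < n, c' p = a' p) →
      ∃ c : ℕ → ℕ, (∀ p < n, c p = a p) ∧ BF γ (n + m) y c y' c' := by
  induction m with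
  | zero =>
    intro n a a' h c' hc'
    refine ⟨a, fun p _ => rfl, ?_⟩
    have h0 : BF γ n y a y' a' := by simpa using h
    exact BF_congr (fun p _ => rfl) (fun p hp => (hc' p hp).symm) h0
  | succ m ih =>
    intro n a a' h c' hc'
    rw [BF] at h
    have hlt : γ + (m : Ordinal.{0}) < γ + ((m + 1 : ℕ) : Ordinal.{0}) := by
      have : ((m : ℕ) : Ordinal.{0}) < ((m + 1 : ℕ) : Ordinal.{0}) := by
        exact_mod_cast Nat.lt_succ_self m
      gcongr
    obtain ⟨c0, hc0⟩ := (h.2 _ hlt).2 (c' n)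
    obtain ⟨c, hc, hBF⟩ := ih hc0 c' (by
      intro p hp
      by_cases hpn : p = n
      · subst hpn; simp
      · rw [Function.update_of_ne hpn]; exact hc' p (by omega))
    refine ⟨c, fun p hp => ?_, ?_⟩
    · rw [hc p (by omega), Function.update_of_ne (by omega)]
    · have : n + (m + 1) = n + 1 + m := by omega
      rw [this]; exact hBF

/-- `B` holds of the generic copy of `y` extending `a`. -/
def Forces (n : ℕ) (a : ℕ → ℕ) (y : Tab ℕ) (B : Set (Tab ℕ)) : Prop :=
  ∀ᶠ u in residual (Equiv.Perm ℕ), u ∈ cyl n a → pull (u : ℕ → ℕ) y ∈ B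

theorem continuous_pull (y : Tab ℕ) : Continuous (fun u : Equiv.Perm ℕ => pull (u : ℕ → ℕ) y) := by
  refine continuous_pi fun p => ?_
  refine continuous_discrete_rng.2 fun b => ?_
  obtain ⟨l, k⟩ := p
  rw [isOpen_iff_forall_mem_open]
  intro u hu
  refine ⟨cyl (l.foldr max 0 + 1) u, ?_, isOpen_cyl _ _, fun p _ => rfl⟩
  intro v hv
  have : l.map v = l.map u := by
    apply List.map_congr_left
    intro p hp
    apply hv
    have : p ≤ l.foldr max 0 := by
      clear hu hv
      induction l with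
      | nil => simp at hp
      | cons x l ih =>
        simp only [List.mem_cons] at hp
        simp only [List.foldr_cons]
        rcases hp with rfl | hp
        · exact le_max_left _ _
        · exact le_trans (ih hp) (le_max_right _ _)
    omega
  simp only [Set.mem_preimage, Set.mem_singleton_iff, pull] at hu ⊢
  rw [this]; exact hu

/-- the ordinals used as ranks are countable -/
def Cb (γ : Ordinal.{0}) : Prop := γ.card ≤ Cardinal.aleph0

theorem not_forces_both {n m : ℕ} {a c : ℕ → ℕ} {y : Tab ℕ} {B : Set (Tab ℕ)} (hnm : n ≤ m)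
    (hca : ∀ p < n, c p = a p) (hc : ∀ p < m, ∀ q < m, c p = c q → p = q)
    (h1 : Forces n a y Bᶜ) (h2 : Forces m c y B) : False := by
  have hres : ∀ᶠ u in residual (Equiv.Perm ℕ), u ∉ cyl m c := by
    filter_upwards [h1, h2] with u hu1 hu2 huc
    exact hu1 (fun p hp => by rw [huc p (by omega), hca p hp]) (hu2 huc)
  have hd : Dense {u : Equiv.Perm ℕ | u ∉ cyl m c} := dense_of_mem_residual hres
  obtain ⟨u, hu1, hu2⟩ := hd.inter_open_nonempty (cyl m c) (isOpen_cyl m c) (cyl_nonempty hc)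
  exact hu2 hu1

theorem exists_forces {n : ℕ} {a : ℕ → ℕ} {y : Tab ℕ} {B : Set (Tab ℕ)} (hB : MeasurableSet B)
    (h : ¬ Forces n a y Bᶜ) :
    ∃ m, n ≤ m ∧ ∃ c : ℕ → ℕ, (∀ p < n, c p = a p) ∧ (∀ p < m, ∀ q < m, c p = c q → p = q) ∧
      Forces m c y B := by
  let _ : MeasurableSpace (Equiv.Perm ℕ) := borel _
  have _ : BorelSpace (Equiv.Perm ℕ) := ⟨rfl⟩
  let D : Set (Equiv.Perm ℕ) := {u | u ∈ cyl n a ∧ pull (u : ℕ → ℕ) y ∈ B}
  have hD : MeasurableSet D :=
    (isOpen_cyl n a).measurableSet.inter ((continuous_pull y).measurable hB)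
  obtain ⟨O, hO, hDO⟩ := hD.residualEq_isOpen
  -- the intersection of `O` with the cylinder is nonempty
  have hne : (O ∩ cyl n a).Nonempty := by
    by_contra hemp
    apply h
    rw [Set.not_nonempty_iff_eq_empty] at hemp
    have hDO' : ∀ᶠ u in residual (Equiv.Perm ℕ), (u ∈ D ↔ u ∈ O) := by
      filter_upwards [hDO] with u hu
      exact Iff.of_eq hu
    filter_upwards [hDO'] with u hu huc hB'
    have : u ∈ O ∩ cyl n a := ⟨hu.1 ⟨huc, hB'⟩, huc⟩
    rw [hemp] at this
    exact this
  obtain ⟨u0, hu0O, hu0c⟩ := hne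
  obtain ⟨m, hm⟩ := exists_cyl_subset hO hu0O
  refine ⟨max m n, le_max_right _ _, u0, fun p hp => hu0c p hp,
    fun p _ q _ hpq => u0.injective hpq, ?_⟩
  have hDO' : ∀ᶠ u in residual (Equiv.Perm ℕ), (u ∈ D ↔ u ∈ O) := by
    filter_upwards [hDO] with u hu
    exact Iff.of_eq hu
  filter_upwards [hDO'] with u hu huc
  exact (hu.2 (hm _ (le_max_left _ _) huc)).2

/-- `B` is decided, up to generic copies, by back and forth equivalence of rank `γ` -/
def Decides (γ : Ordinal.{0}) (B : Set (Tab ℕ)) : Prop :=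
  ∀ n y a y' a', BF γ n y a y' a' → Forces n a y B → Forces n a' y' B

theorem Decides_mono {γ γ' : Ordinal.{0}} (h : γ ≤ γ') {B : Set (Tab ℕ)} (hB : Decides γ B) :
    Decides γ' B := fun n y a y' a' hBF => hB n y a y' a' (BF_mono h hBF)

theorem forces_of_not_inj {n : ℕ} {a : ℕ → ℕ} (y : Tab ℕ) (B : Set (Tab ℕ))
    (h : ¬ ∀ p < n, ∀ q < n, a p = a q → p = q) : Forces n a y B := by
  push Not at h
  obtain ⟨p, hp, q, hq, hpq, hne⟩ := h
  refine Filter.Eventually.of_forall fun u hu => ?_
  exfalso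
  apply hne
  apply u.injective
  rw [hu p hp, hu q hq, hpq]

theorem Decides_compl {γ : Ordinal.{0}} {B : Set (Tab ℕ)} (hm : MeasurableSet B)
    (hB : Decides γ B) : Decides (γ + Ordinal.omega0) Bᶜ := by
  intro n y a y' a' hBF hF
  by_contra hcon
  obtain ⟨m, hnm, c', hc'a, hc'inj, hc'F⟩ := exists_forces hm hcon
  obtain ⟨k, rfl⟩ := Nat.exists_eq_add_of_le hnm
  have hBFk : BF (γ + k) n y a y' a' := by
    apply BF_mono _ hBF
    gcongr
    exact (Ordinal.natCast_lt_omega0 k).le
  obtain ⟨c, hca, hBF'⟩ := BF_extend k hBFk c' hc'a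
  have hcF : Forces (n + k) c y B := hB _ _ _ _ _ (BF_symm hBF') hc'F
  have hcinj : ∀ p < n + k, ∀ q < n + k, c p = c q → p = q := fun p hp q hq hpq =>
    hc'inj p hp q hq (((BF_qf hBF').1 p hp q hq).1 hpq)
  exact not_forces_both hnm hca hcinj hF hcF

theorem Decides_basic (l : List ℕ) (k : ℕ) :
    Decides Ordinal.omega0 {y : Tab ℕ | y (l, k) = true} := by
  intro n y a y' a' hBF hF
  refine Filter.Eventually.of_forall fun u hu => ?_
  by_contra hcon
  -- a long enough initial segment of `u`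
  obtain ⟨m, hm⟩ : ∃ m, ∀ p ∈ l, p < n + m := by
    refine ⟨l.foldr max 0 + 1, fun p hp => ?_⟩
    have : p ≤ l.foldr max 0 := by
      clear hcon hF
      induction l with
      | nil => simp at hp
      | cons x l ih =>
        simp only [List.mem_cons] at hp
        simp only [List.foldr_cons]
        rcases hp with rfl | hp
        · exact le_max_left _ _
        · exact le_trans (ih hp) (le_max_right _ _)
    omega
  have hBFk : BF (0 + m) n y a y' a' := by
    apply BF_mono _ hBF
    rw [zero_add]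
    exact (Ordinal.natCast_lt_omega0 m).le
  obtain ⟨c, hca, hBF'⟩ := BF_extend m hBFk u (fun p hp => hu p hp)
  have hqf := BF_qf hBF'
  have hcinj : ∀ p < n + m, ∀ q < n + m, c p = c q → p = q := fun p hp q hq hpq =>
    u.injective ((hqf.1 p hp q hq).1 hpq)
  have hval : y (l.map c, k) = false := by
    rw [hqf.2 l hm k]
    simpa [pull] using hcon
  have hF2 : Forces (n + m) c y {y : Tab ℕ | y (l, k) = true}ᶜ := by
    refine Filter.Eventually.of_forall fun v hv => ?_
    have : l.map v = l.map c := List.map_congr_left fun p hp => hv p (hm p hp)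
    simp only [pull, Set.mem_compl_iff, Set.mem_ofPred_eq, Bool.not_eq_true]
    show y (l.map v, k) = false
    rw [this]; exact hval
  have hF1 : Forces n a y ({y : Tab ℕ | y (l, k) = true}ᶜ)ᶜ := by
    rw [compl_compl]; exact hF
  exact not_forces_both (Nat.le_add_right n m) hca hcinj hF1 hF2

theorem Forces_iInter {n : ℕ} {a : ℕ → ℕ} {y : Tab ℕ} {s : ℕ → Set (Tab ℕ)} :
    Forces n a y (⋂ i, s i) ↔ ∀ i, Forces n a y (s i) := by
  unfold Forces
  simp only [Set.mem_iInter]
  constructor
  · intro h i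
    filter_upwards [h] with u hu huc
    exact hu huc i
  · intro h
    have := eventually_countable_forall.2 h
    filter_upwards [this] with u hu huc i
    exact hu i huc

theorem Cb_iSup {f : ℕ → Ordinal.{0}} (h : ∀ i, Cb (f i)) : Cb (⨆ i, f i) :=
  Ordinal.card_iSup_le (by simp) h

theorem Cb_add {γ δ : Ordinal.{0}} (h : Cb γ) (h' : Cb δ) : Cb (γ + δ) := by
  unfold Cb at *
  rw [Ordinal.card_add]
  exact Cardinal.add_le_aleph0.2 ⟨h, h'⟩

theorem Cb_omega0 : Cb Ordinal.omega0 := by
  unfold Cb; simp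

theorem tab_measurableSpace_le :
    (MeasurableSpace.pi : MeasurableSpace (Tab ℕ)) =
      MeasurableSpace.generateFrom {B | ∃ (l : List ℕ) (k : ℕ), B = {y : Tab ℕ | y (l, k) = true}} := by
  apply le_antisymm
  · refine iSup_le fun p => ?_
    obtain ⟨l, k⟩ := p
    rintro B ⟨s, -, rfl⟩
    let C : Set (Set (Tab ℕ)) :=
      {B | ∃ (l : List ℕ) (k : ℕ), B = {y : Tab ℕ | y (l, k) = true}}
    have hbase : @MeasurableSet (Tab ℕ) (MeasurableSpace.generateFrom C)
        {y : Tab ℕ | y (l, k) = true} :=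
      MeasurableSpace.measurableSet_generateFrom ⟨l, k, rfl⟩
    have hbase' : @MeasurableSet (Tab ℕ) (MeasurableSpace.generateFrom C)
        {y : Tab ℕ | y (l, k) = false} := by
      have : {y : Tab ℕ | y (l, k) = false} = {y : Tab ℕ | y (l, k) = true}ᶜ := by
        ext y; simp
      rw [this]
      exact @MeasurableSet.compl _ _ (MeasurableSpace.generateFrom C) hbase
    have : (fun y : Tab ℕ => y (l, k)) ⁻¹' s =
        ({y : Tab ℕ | y (l, k) = true} ∩ {_y : Tab ℕ | true ∈ s}) ∪
        ({y : Tab ℕ | y (l, k) = false} ∩ {_y : Tab ℕ | false ∈ s}) := by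
      ext y
      simp only [Set.mem_preimage, Set.mem_union, Set.mem_inter_iff, Set.mem_ofPred_eq]
      cases h : y (l, k) <;> simp
    rw [this]
    refine @MeasurableSet.union _ (MeasurableSpace.generateFrom C) _ _ ?_ ?_
    · exact @MeasurableSet.inter _ (MeasurableSpace.generateFrom C) _ _ hbase
        (@MeasurableSet.const _ (MeasurableSpace.generateFrom C) _)
    · exact @MeasurableSet.inter _ (MeasurableSpace.generateFrom C) _ _ hbase'
        (@MeasurableSet.const _ (MeasurableSpace.generateFrom C) _)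
  · refine MeasurableSpace.generateFrom_le ?_
    rintro B ⟨l, k, rfl⟩
    have h1 : Measurable fun y : Tab ℕ => y (l, k) := measurable_pi_apply (l, k)
    exact h1 (measurableSet_singleton true)

/-- every Borel set of tables is decided by back and forth equivalence of a countable rank -/
theorem exists_decides {B : Set (Tab ℕ)} (hB : MeasurableSet B) : ∃ γ, Cb γ ∧ Decides γ B := by
  rw [tab_measurableSpace_le] at hB
  induction B, hB using MeasurableSpace.generateFrom_induction with
  | hC B hB _ =>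
    obtain ⟨l, k, rfl⟩ := hB
    exact ⟨_, Cb_omega0, Decides_basic l k⟩
  | empty =>
    refine ⟨0, by simp [Cb], ?_⟩
    intro n y a y' a' hBF hF
    by_cases hinj : ∀ p < n, ∀ q < n, a' p = a' q → p = q
    · exfalso
      have hinj' : ∀ p < n, ∀ q < n, a p = a q → p = q := fun p hp q hq hpq =>
        hinj p hp q hq (((BF_qf hBF).1 p hp q hq).1 hpq)
      refine not_forces_both (le_refl n) (fun p _ => rfl) hinj' (B := ∅) ?_ hF
      exact Filter.Eventually.of_forall fun u _ => by simp
    · exact forces_of_not_inj _ _ hinj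
  | compl B hB ih =>
    obtain ⟨γ, hγ, hdec⟩ := ih
    rw [← tab_measurableSpace_le] at hB
    exact ⟨_, Cb_add hγ Cb_omega0, Decides_compl hB hdec⟩
  | iUnion s hs ih =>
    choose γ hγ hdec using ih
    have hs' : ∀ n, MeasurableSet (s n) := by
      intro n
      have := hs n
      rw [← tab_measurableSpace_le] at this
      exact this
    have h1 : ∀ n, Decides (⨆ i, (γ i + Ordinal.omega0)) (s n)ᶜ := fun n =>
      Decides_mono (Ordinal.le_iSup (fun i => γ i + Ordinal.omega0) n)
        (Decides_compl (hs' n) (hdec n))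
    have h2 : Decides (⨆ i, (γ i + Ordinal.omega0)) (⋂ n, (s n)ᶜ) := by
      intro n y a y' a' hBF hF
      rw [Forces_iInter] at hF ⊢
      exact fun i => h1 i n y a y' a' hBF (hF i)
    have h3 := Decides_compl (MeasurableSet.iInter fun n => (hs' n).compl) h2
    have h4 : (⋂ n, (s n)ᶜ)ᶜ = ⋃ n, s n := by
      rw [Set.compl_iInter]; simp
    rw [h4] at h3
    exact ⟨_, Cb_add (Cb_iSup fun i => Cb_add (hγ i) Cb_omega0) Cb_omega0, h3⟩

/-- An invariant Borel set of tables is closed under back and forth equivalence of some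
countable rank. -/
theorem exists_rank_invariant {B : Set (Tab ℕ)} (hB : MeasurableSet B)
    (hinv : ∀ (u : Equiv.Perm ℕ) (y : Tab ℕ), y ∈ B → pull (u : ℕ → ℕ) y ∈ B) :
    ∃ γ, Cb γ ∧ ∀ (y y' : Tab ℕ) (a : ℕ → ℕ), BF γ 0 y a y' a → y ∈ B → y' ∈ B := by
  obtain ⟨γ, hγ, hdec⟩ := exists_decides hB
  refine ⟨γ, hγ, fun y y' a hBF hy => ?_⟩
  have hF : Forces 0 a y B := Filter.Eventually.of_forall fun u _ => hinv u y hy
  have hF' := hdec _ _ _ _ _ hBF hF
  have hd : Dense {u : Equiv.Perm ℕ | u ∈ cyl 0 a → pull (u : ℕ → ℕ) y' ∈ B} :=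
    dense_of_mem_residual hF'
  obtain ⟨u, hu⟩ := hd.nonempty
  have hu' : pull (u : ℕ → ℕ) y' ∈ B := hu (fun p hp => absurd hp (by omega))
  have := hinv u⁻¹ _ hu'
  rw [pull_pull] at this
  have e : (⇑u ∘ ⇑u⁻¹ : ℕ → ℕ) = id := by
    funext n; simp
  rw [e] at this
  have e2 : pull (id : ℕ → ℕ) y' = y' := by
    funext p; simp [pull]
  rwa [e2] at this

end Pool.Agent.Helper88.OGT
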