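import Pool.Agent.Helper88.OGT.Baire

/-!
Boundedness: an analytic family of well-founded relations on the naturals has bounded ranks.
-/

set_option autoImplicit false

namespace Pool.Agent.Helper88.OGT

open Topology Filter

/-- the relation coded by a table of truth values -/
def relOf (R : ℕ × ℕ → Bool) : ℕ → ℕ → Prop := fun m n => R (m, n) = true

theorem Cb_rank {α : Type} [Countable α] (r : α → α → Prop) [hwf : IsWellFounded α r] (a : α) :
    Cb (IsWellFounded.rank r a) := by
  induction a using hwf.wf.induction with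
  | h a ih =>
    rw [IsWellFounded.rank_eq]
    refine Ordinal.card_iSup_le (by simp) fun b => ?_
    have := ih b.1 b.2
    rw [Order.succ_eq_add_one, Ordinal.card_add_one]
    exact Cardinal.add_le_aleph0.2 ⟨this, Cardinal.one_le_aleph0⟩

/-- initial segments, stored in reverse order -/
def pre (z v : ℕ → ℕ) : ℕ → List (ℕ × ℕ)
  | 0 => []
  | n + 1 => (z n, v n) :: pre z v n

theorem pre_length (z v : ℕ → ℕ) (n : ℕ) : (pre z v n).length = n := by
  induction n with
  | zero => rfl
  | succ n ih => simp [pre, ih]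

theorem pre_eq {z v z' v' : ℕ → ℕ} {n : ℕ} (h : pre z v n = pre z' v' n) :
    ∀ i < n, z i = z' i ∧ v i = v' i := by
  induction n with
  | zero => intro i hi; omega
  | succ n ih =>
    simp only [pre, List.cons.injEq, Prod.mk.injEq] at h
    intro i hi
    by_cases hin : i = n
    · subst hin; exact h.1
    · exact ih h.2 i (by omega)

theorem pre_congr {z v z' v' : ℕ → ℕ} {n : ℕ} (h : ∀ i < n, z i = z' i ∧ v i = v' i) :
    pre z v n = pre z' v' n := by
  induction n with
  | zero => rfl
  | succ n ih =>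
    simp only [pre]
    rw [ih fun i hi => h i (by omega), (h n (by omega)).1, (h n (by omega)).2]

section

variable (φ : (ℕ → ℕ) → (ℕ × ℕ → Bool))

/-- nodes of the tree of attempts -/
def Node (L : List (ℕ × ℕ)) : Prop :=
  ∃ z v : ℕ → ℕ, L = pre z v L.length ∧
    ∀ i, i + 1 < L.length → relOf (φ z) (v (i + 1)) (v i)

/-- the child relation on nodes -/
def Child (s t : List (ℕ × ℕ)) : Prop := Node φ s ∧ ∃ a, s = a :: t

theorem child_wf (hφ : Continuous φ) (hwf : ∀ z, IsWellFounded ℕ (relOf (φ z))) :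
    IsWellFounded (List (ℕ × ℕ)) (Child φ) := by
  refine ⟨?_⟩
  rw [wellFounded_iff_isEmpty_descending_chain]
  refine ⟨?_⟩
  rintro ⟨L, hL⟩
  have hlen : ∀ k, (L k).length = (L 0).length + k := by
    intro k
    induction k with
    | zero => rfl
    | succ k ih =>
      obtain ⟨a, ha⟩ := (hL k).2
      rw [ha, List.length_cons, ih]; omega
  set n0 := (L 0).length with hn0
  have hnode : ∀ k, ∃ z v : ℕ → ℕ, L (k + 1) = pre z v (n0 + k + 1) ∧
      ∀ i, i + 1 < n0 + k + 1 → relOf (φ z) (v (i + 1)) (v i) := by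
    intro k
    obtain ⟨z, v, h1, h2⟩ := (hL k).1
    have : (L (k + 1)).length = n0 + k + 1 := by rw [hlen]; omega
    rw [this] at h1 h2
    exact ⟨z, v, h1, h2⟩
  choose z v hLk hrel using hnode
  -- coherence
  have hstep : ∀ k, pre (z (k + 1)) (v (k + 1)) (n0 + k + 1) = pre (z k) (v k) (n0 + k + 1) := by
    intro k
    obtain ⟨a, ha⟩ := (hL (k + 1)).2
    rw [hLk (k + 1), hLk k] at ha
    have : n0 + (k + 1) + 1 = (n0 + k + 1) + 1 := by omega
    rw [this] at ha
    have hp : ∀ (z v : ℕ → ℕ) n, pre z v (n + 1) = (z n, v n) :: pre z v n := fun _ _ _ => rfl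
    rw [hp] at ha
    exact (List.cons.inj ha).2
  have hcoh : ∀ k i, i < n0 + k + 1 → ∀ d, z (k + d) i = z k i ∧ v (k + d) i = v k i := by
    intro k i hi d
    induction d with
    | zero => exact ⟨rfl, rfl⟩
    | succ d ih =>
      have := pre_eq (hstep (k + d)) i (by omega)
      rw [← add_assoc]
      exact ⟨this.1.trans ih.1, this.2.trans ih.2⟩
  let Z : ℕ → ℕ := fun i => z i i
  let V : ℕ → ℕ := fun i => v i i
  have hZ : ∀ k i, i < n0 + k + 1 → z k i = Z i ∧ v k i = V i := by
    intro k i hi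
    rcases le_total i k with h | h
    · obtain ⟨d, rfl⟩ := Nat.exists_eq_add_of_le h
      exact hcoh i i (by omega) d
    · obtain ⟨d, rfl⟩ := Nat.exists_eq_add_of_le h
      have := hcoh k (k + d) hi d
      exact ⟨this.1.symm, this.2.symm⟩
  have hlim : Tendsto z atTop (𝓝 Z) := by
    rw [tendsto_pi_nhds]
    intro i
    refine tendsto_const_nhds.congr' ?_
    filter_upwards [eventually_ge_atTop i] with k hk
    exact (hZ k i (by omega)).1.symm
  have hex : ∃ i, ¬ relOf (φ Z) (V (i + 1)) (V i) := by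
    have := wellFounded_iff_isEmpty_descending_chain.1 (hwf Z).wf
    by_contra hcon
    push Not at hcon
    exact this.false ⟨V, hcon⟩
  obtain ⟨i, hi⟩ := hex
  apply hi
  -- the relation holds in the limit
  have hcont : Continuous fun w : ℕ → ℕ => φ w (V (i + 1), V i) :=
    (continuous_apply (V (i + 1), V i)).comp hφ
  have hclosed : IsClosed {w : ℕ → ℕ | φ w (V (i + 1), V i) = true} :=
    isClosed_eq hcont continuous_const
  have hmem : ∀ᶠ k in atTop, z k ∈ {w : ℕ → ℕ | φ w (V (i + 1), V i) = true} := by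
    filter_upwards [eventually_ge_atTop (i + 1)] with k hk
    have h1 := hrel k i (by omega)
    rw [(hZ k i (by omega)).2, (hZ k (i + 1) (by omega)).2] at h1
    exact h1
  exact hclosed.mem_of_tendsto hlim hmem

theorem rank_le_rank (hφ : Continuous φ) (hwf : ∀ z, IsWellFounded ℕ (relOf (φ z)))
    [IsWellFounded (List (ℕ × ℕ)) (Child φ)] (z : ℕ → ℕ) :
    letI := hwf z
    ∀ (m n : ℕ) (v : ℕ → ℕ), v n = m →
      (∀ i, i + 1 < n + 1 → relOf (φ z) (v (i + 1)) (v i)) →
      IsWellFounded.rank (relOf (φ z)) m ≤ IsWellFounded.rank (Child φ) (pre z v (n + 1)) := by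
  intro m
  induction m using (hwf z).wf.induction with
  | h m ih =>
    intro n v hv hch
    rw [IsWellFounded.rank_eq]
    refine ciSup_le' fun b => ?_
    rw [Order.succ_le_iff]
    let v' : ℕ → ℕ := Function.update v (n + 1) b.1
    have hv' : ∀ i, i + 1 < n + 1 + 1 → relOf (φ z) (v' (i + 1)) (v' i) := by
      intro i hi
      by_cases hin : i = n
      · subst hin
        have e1 : v' (i + 1) = b.1 := by simp [v']
        have e2 : v' i = v i := by simp [v']
        rw [e1, e2, hv]; exact b.2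
      · have e1 : v' (i + 1) = v (i + 1) := Function.update_of_ne (by omega) _ _
        have e2 : v' i = v i := Function.update_of_ne (by omega) _ _
        rw [e1, e2]; exact hch i (by omega)
    have h1 := ih b.1 b.2 (n + 1) v' (by simp [v']) hv'
    refine lt_of_le_of_lt h1 (IsWellFounded.rank_lt_of_rel ⟨⟨z, v', ?_, ?_⟩, ?_⟩)
    · rw [pre_length]
    · rw [pre_length]; exact hv'
    · refine ⟨(z (n + 1), v' (n + 1)), ?_⟩
      show (z (n + 1), v' (n + 1)) :: pre z v' (n + 1) = _
      congr 1
      apply pre_congr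
      intro i hi
      exact ⟨rfl, Function.update_of_ne (by omega) _ _⟩

end

/-- Boundedness for continuous images of the Baire space. -/
theorem bounded_of_continuous (φ : (ℕ → ℕ) → (ℕ × ℕ → Bool)) (hφ : Continuous φ)
    (hwf : ∀ z, IsWellFounded ℕ (relOf (φ z))) :
    ∃ ρ, Cb ρ ∧ ∀ z, letI := hwf z; ∀ m, IsWellFounded.rank (relOf (φ z)) m ≤ ρ := by
  have inst := child_wf φ hφ hwf
  refine ⟨IsWellFounded.rank (Child φ) [], Cb_rank _ _, fun z => ?_⟩
  intro m
  refine le_trans (rank_le_rank φ hφ hwf z m 0 (fun _ => m) rfl (fun i hi => by omega)) ?_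
  refine (IsWellFounded.rank_lt_of_rel ⟨⟨z, fun _ => m, ?_, ?_⟩, ?_⟩).le
  · rw [pre_length]
  · rw [pre_length]; intro i hi; omega
  · exact ⟨(z 0, m), rfl⟩

/-- Boundedness for Borel sets: a Borel set of pairs whose first coordinates code well-founded
relations has bounded ranks. -/
theorem bounded_of_measurable {P : Type} [TopologicalSpace P] [PolishSpace P] [MeasurableSpace P]
    [BorelSpace P] {A : Set P} (hA : MeasurableSet A) (π : P → (ℕ × ℕ → Bool))
    (hπ : Continuous π) (hwf : ∀ p ∈ A, IsWellFounded ℕ (relOf (π p))) :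
    ∃ ρ, Cb ρ ∧ ∀ p (hp : p ∈ A), letI := hwf p hp; ∀ m,
      IsWellFounded.rank (relOf (π p)) m ≤ ρ := by
  have han := hA.analyticSet
  rw [MeasureTheory.AnalyticSet] at han
  rcases han with rfl | ⟨g, hg, hgA⟩
  · refine ⟨0, by simp [Cb], fun p hp => ?_⟩
    exact absurd hp (by simp)
  · have hwf' : ∀ z, IsWellFounded ℕ (relOf (π (g z))) := fun z => hwf _ (by rw [← hgA]; exact ⟨z, rfl⟩)
    obtain ⟨ρ, hρ, hb⟩ := bounded_of_continuous (fun z => π (g z)) (hπ.comp hg) hwf'
    refine ⟨ρ, hρ, fun p hp => ?_⟩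
    have : p ∈ Set.range g := by rw [hgA]; exact hp
    obtain ⟨z, rfl⟩ := this
    exact hb z

end Pool.Agent.Helper88.OGT
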