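import Pool.Agent.Helper88.OGT.Baire

/-!
A Polish space with a (separately) continuous action of the permutation group of the naturals
embeds equivariantly, with Borel range, in the space of tables.
-/

set_option autoImplicit false

namespace Pool.Agent.Helper88.OGT

open Topology Filter

attribute [local instance] permTop

section

variable {X : Type} [TopologicalSpace X] (R : Equiv.Perm ℕ → X → X)

/-- the permutation `u` extends the list `l` -/
def ExtL (l : List ℕ) (u : Equiv.Perm ℕ) : Prop := ∀ i, ∀ h : i < l.length, u i = l[i]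

open Classical in
/-- the table attached to a point of the space -/
noncomputable def tabOf (U : ℕ → Set X) (x : X) : Tab ℕ :=
  fun p => decide (∃ u : Equiv.Perm ℕ, ExtL p.1 u ∧ R u x ∈ U p.2)

theorem tabOf_eq_true {U : ℕ → Set X} {x : X} {l : List ℕ} {k : ℕ} :
    tabOf R U x (l, k) = true ↔ ∃ u : Equiv.Perm ℕ, ExtL l u ∧ R u x ∈ U k := by
  simp [tabOf]

theorem extL_map {l : List ℕ} {u v : Equiv.Perm ℕ} :
    ExtL (l.map u) v ↔ ExtL l (u⁻¹ * v) := by
  unfold ExtL
  constructor
  · intro h i hi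
    have := h i (by simpa using hi)
    simp only [Equiv.Perm.mul_apply, this, List.getElem_map]
    simp
  · intro h i hi
    have := h i (by simpa using hi)
    simp only [List.getElem_map]
    rw [← this]
    simp

theorem tabOf_equivariant (hmul : ∀ u v x, R u (R v x) = R (v * u) x) (U : ℕ → Set X)
    (u : Equiv.Perm ℕ) (x : X) : tabOf R U (R u x) = pull (u : ℕ → ℕ) (tabOf R U x) := by
  funext p
  obtain ⟨l, k⟩ := p
  rw [Bool.eq_iff_iff, pull, tabOf_eq_true, tabOf_eq_true]
  constructor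
  · rintro ⟨v, hv, hvU⟩
    refine ⟨u * v, ?_, ?_⟩
    · rw [extL_map]; simpa using hv
    · rw [← hmul]; exact hvU
  · rintro ⟨v, hv, hvU⟩
    refine ⟨u⁻¹ * v, extL_map.1 hv, ?_⟩
    rw [hmul]; simpa using hvU

theorem tabOf_injective [T2Space X] (hone : ∀ x, R 1 x = x)
    (hcu : ∀ x, Continuous fun u : Equiv.Perm ℕ => R u x) (U : ℕ → Set X)
    (hU : ∀ (x : X) (V : Set X), IsOpen V → x ∈ V → ∃ k, x ∈ U k ∧ U k ⊆ V) :
    Function.Injective (tabOf R U) := by
  intro x y hxy
  by_contra hne
  obtain ⟨V, W, hV, hW, hxV, hyW, hVW⟩ := t2_separation hne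
  -- a neighbourhood of the identity
  have h1 : IsOpen ((fun u : Equiv.Perm ℕ => R u x) ⁻¹' V) := (hcu x).isOpen_preimage _ hV
  have hx1 : (1 : Equiv.Perm ℕ) ∈ (fun u : Equiv.Perm ℕ => R u x) ⁻¹' V := by
    simp only [Set.mem_preimage, hone]; exact hxV
  obtain ⟨m1, hm1⟩ := exists_cyl_subset h1 hx1
  obtain ⟨k, hyk, hkW⟩ := hU y W hW hyW
  let l := List.range m1
  have ht : tabOf R U y (l, k) = true := by
    rw [tabOf_eq_true]
    refine ⟨1, fun i hi => by simp [l], ?_⟩
    rw [hone]; exact hyk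
  rw [← hxy, tabOf_eq_true] at ht
  obtain ⟨u, hu, huU⟩ := ht
  have hucyl : u ∈ cyl m1 (1 : Equiv.Perm ℕ) := by
    intro p hp
    have := hu p (by simpa [l] using hp)
    rw [this]; simp [l]
  have hV' : R u x ∈ V := hm1 m1 le_rfl hucyl
  exact Set.disjoint_left.1 hVW hV' (hkW huU)

theorem measurable_tabOf [MeasurableSpace X] [BorelSpace X] (hcx : ∀ u, Continuous (R u))
    (U : ℕ → Set X) (hUo : ∀ k, IsOpen (U k)) : Measurable (tabOf R U) := by
  refine measurable_pi_lambda _ fun p => ?_
  obtain ⟨l, k⟩ := p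
  have hopen : IsOpen {x | tabOf R U x (l, k) = true} := by
    have : {x | tabOf R U x (l, k) = true} =
        ⋃ u ∈ {u : Equiv.Perm ℕ | ExtL l u}, (R u) ⁻¹' (U k) := by
      ext x
      simp only [Set.mem_ofPred_eq, tabOf_eq_true, Set.mem_iUnion, Set.mem_preimage,
        exists_prop]
    rw [this]
    exact isOpen_biUnion fun u _ => (hcx u).isOpen_preimage _ (hUo k)
  refine measurable_to_bool ?_
  exact hopen.measurableSet

end

/-- The equivariant Borel embedding. -/
theorem exists_embedding {X : Type} [TopologicalSpace X] [PolishSpace X]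
    (R : Equiv.Perm ℕ → X → X) (hone : ∀ x, R 1 x = x)
    (hmul : ∀ u v x, R u (R v x) = R (v * u) x)
    (hcx : ∀ u, Continuous (R u)) (hcu : ∀ x, Continuous fun u : Equiv.Perm ℕ => R u x) :
    ∃ f : X → Tab ℕ, Function.Injective f ∧ MeasurableSet (Set.range f) ∧
      ∀ u x, f (R u x) = pull (u : ℕ → ℕ) (f x) := by
  obtain ⟨b, hbc, hbe, hb⟩ := TopologicalSpace.exists_countable_basis X
  have hb' : (insert ∅ b : Set (Set X)).Countable := hbc.insert _
  obtain ⟨U, hU⟩ := hb'.exists_eq_range ⟨∅, Set.mem_insert _ _⟩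
  have hUo : ∀ k, IsOpen (U k) := by
    intro k
    have : U k ∈ (insert ∅ b : Set (Set X)) := by rw [hU]; exact ⟨k, rfl⟩
    rcases this with h | h
    · rw [h]; exact isOpen_empty
    · exact hb.isOpen h
  have hUb : ∀ (x : X) (V : Set X), IsOpen V → x ∈ V → ∃ k, x ∈ U k ∧ U k ⊆ V := by
    intro x V hV hx
    obtain ⟨W, hW, hxW, hWV⟩ := hb.exists_subset_of_mem_open hx hV
    have : W ∈ Set.range U := by rw [← hU]; exact Set.mem_insert_of_mem _ hW
    obtain ⟨k, rfl⟩ := this
    exact ⟨k, hxW, hWV⟩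
  let _ : MeasurableSpace X := borel X
  have _ : BorelSpace X := ⟨rfl⟩
  have hinj := tabOf_injective R hone hcu U hUb
  have hmeas := measurable_tabOf R hcx U hUo
  refine ⟨tabOf R U, hinj, ?_, fun u x => tabOf_equivariant R hmul U u x⟩
  rw [← Set.image_univ]
  exact MeasurableSet.univ.image_of_measurable_injOn hmeas hinj.injOn

end Pool.Agent.Helper88.OGT
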