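import Pool.Agent.Helper88.OGT.Meas
import Pool.Agent.Helper88.OGT.Embed

/-!
The abstract form of the theorem.
-/

set_option autoImplicit false

namespace Pool.Agent.Helper88.OGT

open Topology

attribute [local instance] permTop

open Classical in
/-- the code of the order of finitely supported functions on `(I, r)` along a bijection -/
noncomputable def codeOf {I : Type} (r : I → I → Prop) (ι : ℕ ≃ (I →₀ ℤ)) : ℕ × ℕ → Bool :=
  fun p => decide (p.1 = p.2 ∨ pos r (fun _ => true) (ι p.2 - ι p.1))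

theorem codeOf_iff {I : Type} {r : I → I → Prop} {ι : ℕ ≃ (I →₀ ℤ)} {m n : ℕ} :
    codeOf r ι (m, n) = true ↔ (m = n ∨ pos r (fun _ => true) (ι n - ι m)) := by
  simp [codeOf]

/-- the properties of the class of codes that are used -/
structure Cls (𝓜 : Set (ℕ × ℕ → Bool)) : Prop where
  refl : ∀ x ∈ 𝓜, ∀ m, x (m, m) = true
  antisymm : ∀ x ∈ 𝓜, ∀ m n, x (m, n) = true → x (n, m) = true → m = n
  trans : ∀ x ∈ 𝓜, ∀ m n k, x (m, n) = true → x (n, k) = true → x (m, k) = true
  total : ∀ x ∈ 𝓜, ∀ m n, x (m, n) = true ∨ x (n, m) = true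
  inv : ∀ x ∈ 𝓜, ∀ g : Equiv.Perm ℕ, (fun p : ℕ × ℕ => x (g p.1, g p.2)) ∈ 𝓜
  hom : ∀ x ∈ 𝓜, ∀ m n, ∃ g : Equiv.Perm ℕ, g m = n ∧ ∀ a b, x (g a, g b) = x (a, b)
  mem : ∀ (I : Type) [Countable I] [Nonempty I] (r : I → I → Prop) [IsWellOrder I r]
    (ι : ℕ ≃ (I →₀ ℤ)), codeOf r ι ∈ 𝓜

section

variable {𝓜 : Set (ℕ × ℕ → Bool)} (h : Cls 𝓜)

/-- the action by precomposition -/
def act (u : Equiv.Perm ℕ) (x : 𝓜) : 𝓜 := ⟨fun p : ℕ × ℕ => x.1 (u p.1, u p.2), h.inv x.1 x.2 u⟩

theorem act_eq_iff {u : Equiv.Perm ℕ} {x : 𝓜} :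
    act h u x = x ↔ ∀ a b, x.1 (u a, u b) = x.1 (a, b) := by
  constructor
  · intro hx a b
    have := congrFun (congrArg Subtype.val hx) (a, b)
    exact this
  · intro hx
    apply Subtype.ext
    funext p
    exact hx p.1 p.2

variable {f : 𝓜 → Tab ℕ} (hf : Function.Injective f)
  (heq : ∀ u x, f (act h u x) = pull (u : ℕ → ℕ) (f x))

include heq in
theorem pull_of_autom {u : Equiv.Perm ℕ} {x : 𝓜} (hx : ∀ a b, x.1 (u a, u b) = x.1 (a, b)) :
    pull (u : ℕ → ℕ) (f x) = f x := by
  rw [← heq, (act_eq_iff h).2 hx]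

include hf heq in
theorem autom_of_pull {u : Equiv.Perm ℕ} {x : 𝓜} (hx : pull (u : ℕ → ℕ) (f x) = f x) :
    ∀ a b, x.1 (u a, u b) = x.1 (a, b) := by
  rw [← heq] at hx
  exact (act_eq_iff h).1 (hf hx)

section

variable {Γ : Type} [LinearOrder Γ] {ι : ℕ ≃ (Ix Γ →₀ ℤ)} {R : ℕ × ℕ → Bool}

theorem pull_eq_of_good {s : Ix Γ → Bool} {J : Set (Ix Γ)} {y : Tab ℕ} (hy : good ι R s J y)
    {w w' : ℕ → ℕ} (hw : ∀ m n, sim (rel Γ R) s J (ι (w n) - ι (w m)) (ι (w' n) - ι (w' m))) :
    pull w y = pull w' y := by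
  funext p
  obtain ⟨l, k⟩ := p
  have := hy (l.map fun m => (w m, w' m)) (by
    intro p hp q hq
    obtain ⟨m, -, rfl⟩ := List.mem_map.1 hp
    obtain ⟨n, -, rfl⟩ := List.mem_map.1 hq
    exact hw m n) k
  rw [List.map_map, List.map_map] at this
  exact this

include heq in
theorem good_of_sign [Countable Γ] (hR : STO R) {s : Ix Γ → Bool} {x : 𝓜}
    (hx : ∀ m n, x.1 (m, n) = true ↔ (m = n ∨ pos (rel Γ R) s (ι n - ι m))) {J : Set (Ix Γ)}
    (hJ : ExtHyp (rel Γ R) J J Set.univ) : good ι R s J (f x) := by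
  classical
  have := rel_sto (Γ := Γ) hR
  intro L hL k
  obtain ⟨g, hg, hg'⟩ := perm_of_sim (s := s) hJ
    (L.map fun p => (ι p.1, ι p.2)).toFinset (by
      intro p hp q hq
      rw [List.mem_toFinset] at hp hq
      obtain ⟨m, hm, rfl⟩ := List.mem_map.1 hp
      obtain ⟨n, hn, rfl⟩ := List.mem_map.1 hq
      exact hL m hm n hn)
  let u : Equiv.Perm ℕ := ι.trans (g.trans ι.symm)
  have hιu : ∀ m, ι (u m) = g (ι m) := fun m => by simp [u]
  have hxu : ∀ a b, x.1 (u a, u b) = x.1 (a, b) := by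
    intro a b
    rw [Bool.eq_iff_iff, hx, hx, hιu, hιu]
    refine or_congr u.injective.eq_iff ?_
    exact ⟨sim_pos (sim_symm (hg' _ _)), sim_pos (hg' _ _)⟩
  have h1 := congrFun (pull_of_autom h heq hxu) (L.map Prod.fst, k)
  rw [← h1]
  show f x ((L.map Prod.fst).map u, k) = _
  congr 2
  rw [List.map_map]
  apply List.map_congr_left
  intro p hp
  show u p.1 = p.2
  apply ι.injective
  rw [hιu]
  exact hg (ι p.1, ι p.2) (by
    rw [List.mem_toFinset]
    exact List.mem_map.2 ⟨p, hp, rfl⟩)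

include hf heq in
theorem sign_of_good [Countable Γ] (hR : STO R) {s0 : Ix Γ → Bool} {x : 𝓜}
    (hx : good ι R s0 Set.univ (f x)) :
    ∃ s : Ix Γ → Bool, ∀ m n, x.1 (m, n) = true ↔ (m = n ∨ pos (rel Γ R) s (ι n - ι m)) := by
  have := rel_sto (Γ := Γ) hR
  let lt' : (Ix Γ →₀ ℤ) → (Ix Γ →₀ ℤ) → Prop := fun a b => x.1 (ι.symm a, ι.symm b) = true ∧ a ≠ b
  obtain ⟨s, hs⟩ := sign_determination (r := rel Γ R) lt' Set.univ Set.univ 0
    (fun _ _ _ _ _ _ => Set.mem_univ _) (fun _ _ _ => Set.mem_univ _)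
    (fun a _ h => h.2 rfl)
    (fun a _ b _ c _ h1 h2 => ⟨h.trans _ x.2 _ _ _ h1.1 h2.1, fun hac => by
      subst hac
      have := h.antisymm _ x.2 _ _ h1.1 h2.1
      exact h1.2 (ι.symm.injective this)⟩)
    (fun a _ b _ hab => by
      rcases h.total _ x.2 (ι.symm a) (ι.symm b) with h1 | h1
      · exact Or.inl ⟨h1, hab⟩
      · exact Or.inr ⟨h1, Ne.symm hab⟩)
    (by
      intro g hg _ a _ b _ hab
      let u : Equiv.Perm ℕ := ι.trans (g.trans ι.symm)
      have hιu : ∀ m, ι (u m) = g (ι m) := fun m => by simp [u]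
      have hp : pull (u : ℕ → ℕ) (f x) = f x := by
        have := pull_eq_of_good (w := id) (w' := u) hx (by
          intro m n
          have h1 := hg (ι m) (ι n)
          rw [← hιu, ← hιu] at h1
          exact sim_univ_iff.2 (sim_univ_iff.1 h1))
        rw [← this]
        funext p
        simp [pull]
      have hau := autom_of_pull h hf heq hp
      refine ⟨?_, fun hgab => hab.2 (g.injective hgab)⟩
      have h1 := hau (ι.symm a) (ι.symm b)
      have e : ∀ c, u (ι.symm c) = ι.symm (g c) := fun c => by simp [u]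
      rw [e, e] at h1
      rw [h1]; exact hab.1)
  refine ⟨s, fun m n => ?_⟩
  have h1 := hs (ι m) (Set.mem_univ _) (ι n) (Set.mem_univ _)
  simp only [lt', Equiv.symm_apply_apply] at h1
  rw [← h1]
  constructor
  · intro hmn
    by_cases hmn' : m = n
    · exact Or.inl hmn'
    · exact Or.inr ⟨hmn, fun he => hmn' (ι.injective he)⟩
  · rintro (rfl | hmn)
    · exact h.refl _ x.2 _
    · exact hmn.1

/-- Step 5: an ill-founded `R` gives a table that only depends on the part below `Γ`. -/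
theorem exists_good_of_not_wf [Countable Γ] (hR : STO R) (hwf : ¬ IsWellFounded ℕ (relOf R))
    {s0 : Ix Γ → Bool} {x : 𝓜} (hx : good ι R s0 Set.univ (f x))
    (hf : Function.Injective f) (heq : ∀ u x, f (act h u x) = pull (u : ℕ → ℕ) (f x)) :
    ∃ s, good ι R s (Set.range Sum.inl) (f x) := by
  classical
  have inst := rel_sto (Γ := Γ) hR
  have instR := hR.isStrictTotalOrder
  obtain ⟨s, hs⟩ := sign_of_good h hf heq hR hx
  refine ⟨s, ?_⟩
  -- a descending sequence
  have hdesc : ∃ i : ℕ → ℕ, ∀ n, relOf R (i (n + 1)) (i n) := by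
    by_contra hcon
    apply hwf
    refine ⟨wellFounded_iff_isEmpty_descending_chain.2 ⟨?_⟩⟩
    rintro ⟨i, hi⟩
    exact hcon ⟨i, hi⟩
  obtain ⟨i, hi⟩ := hdesc
  have hi' : ∀ n m, n < m → relOf R (i m) (i n) := by
    intro n m hnm
    induction m with
    | zero => omega
    | succ m ih =>
      rcases Nat.lt_succ_iff_lt_or_eq.1 hnm with h1 | h1
      · exact instR.toIsStrictOrder.toIsTrans.trans _ _ _ (hi m) (ih h1)
      · rw [h1]; exact hi m
  let J : Set (Ix Γ) := {j | ∀ n, rel Γ R j (Sum.inl (i n))}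
  have hJinit : ∀ a ∈ J, ∀ b, rel Γ R b a → b ∈ J := fun a ha b hb n => r_trans hb (ha n)
  have hJ : ExtHyp (rel Γ R) J J Set.univ :=
    { initJ := hJinit
      initJ' := hJinit
      sub := le_rfl
      closed := fun _ _ _ _ => Set.mem_univ _
      room := by
        intro G _ hGJ
        have hex : ∀ a : Ix Γ, ∃ n, a ∈ G → ¬ rel Γ R a (Sum.inl (i n)) := by
          intro a
          by_cases ha : a ∈ G
          · have := hGJ a ha
            simp only [J, Set.mem_ofPred_eq, not_forall] at this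
            obtain ⟨n, hn⟩ := this
            exact ⟨n, fun _ => hn⟩
          · exact ⟨0, fun h => absurd h ha⟩
        choose nn hnn using hex
        let N := G.sup nn + 1
        refine ⟨Sum.inl (i N), ?_, ?_, fun _ _ _ => Set.mem_univ _⟩
        · intro hmem
          exact r_irrefl _ (hmem N)
        · intro a ha
          have h1 : nn a < N := by
            have := Finset.le_sup (f := nn) ha
            omega
          have h2 : rel Γ R (Sum.inl (i N)) (Sum.inl (i (nn a))) :=
            Sum.Lex.inl (hi' _ _ h1)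
          rcases r_cases (r := rel Γ R) a (Sum.inl (i (nn a))) with h3 | h3 | h3
          · exact absurd h3 (hnn a ha)
          · rw [h3]; exact h2
          · exact r_trans h2 h3
      nonempty := Set.univ_nonempty }
  have hsub : J ⊆ Set.range (Sum.inl : ℕ → Ix Γ) := by
    intro j hj
    rcases j with m | g
    · exact ⟨m, rfl⟩
    · have := hj 0
      simp [rel] at this
  exact good_mono hsub (good_of_sign h heq hR hs hJ)

end

end

/-- well-orders of the naturals of large countable rank -/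
theorem exists_large_wo {ρ : Ordinal.{0}} (hρ : Cb ρ) :
    ∃ R : ℕ × ℕ → Bool, STO R ∧ IsWellOrder ℕ (relOf R) ∧
      ∀ [IsWellFounded ℕ (relOf R)], ∃ m, ρ < IsWellFounded.rank (relOf R) m := by
  classical
  let o : Ordinal.{0} := ρ + 1 + Ordinal.omega0
  have ho : Cb o := Cb_add (Cb_add hρ (by simp [Cb])) Cb_omega0
  have : Countable o.ToType := by
    rw [← Cardinal.mk_le_aleph0_iff, Cardinal.mk_toType]; exact ho
  have hinf : Infinite o.ToType := by
    rw [Cardinal.infinite_iff, Cardinal.mk_toType]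
    show _ ≤ (ρ + 1 + Ordinal.omega0).card
    rw [Ordinal.card_add]
    simp
  obtain ⟨e⟩ : Nonempty (ℕ ≃ o.ToType) := nonempty_equiv_of_countable
  let R : ℕ × ℕ → Bool := fun p => decide (e p.1 < e p.2)
  have hR : ∀ m n, relOf R m n ↔ e m < e n := fun m n => by simp [relOf, R]
  have hSTO : STO R := by
    refine ⟨fun m => by simp [R], fun m n k h1 h2 => ?_, fun m n hmn => ?_⟩
    · simp only [R, decide_eq_true_eq] at *
      exact h1.trans h2
    · simp only [R, decide_eq_true_eq]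
      exact lt_or_gt_of_ne (fun he => hmn (e.injective he))
  have hwf : WellFounded (relOf R) := by
    have h1 : WellFounded (InvImage (fun a b : o.ToType => a < b) e) := InvImage.wf e wellFounded_lt
    refine Subrelation.wf ?_ h1
    intro m n hmn
    exact (hR m n).1 hmn
  have hwo : IsWellOrder ℕ (relOf R) := by
    have := hSTO.isStrictTotalOrder
    exact { toTrichotomous := inferInstance, wf := hwf }
  refine ⟨R, hSTO, hwo, ?_⟩
  intro inst
  have key : ∀ δ : Ordinal.{0}, ∀ hδ : δ < o,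
      δ ≤ IsWellFounded.rank (relOf R) (e.symm (Ordinal.ToType.mk ⟨δ, hδ⟩)) := by
    intro δ
    induction δ using WellFoundedLT.induction with
    | ind δ ih =>
      intro hδ
      by_contra hcon
      push Not at hcon
      set δ' := IsWellFounded.rank (relOf R) (e.symm (Ordinal.ToType.mk ⟨δ, hδ⟩)) with hδ'
      have h1 := ih δ' hcon (hcon.trans hδ)
      have h2 : relOf R (e.symm (Ordinal.ToType.mk ⟨δ', hcon.trans hδ⟩))
          (e.symm (Ordinal.ToType.mk ⟨δ, hδ⟩)) := by
        rw [hR]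
        simp only [Equiv.apply_symm_apply]
        rw [OrderIso.lt_iff_lt]
        exact hcon
      have h3 := IsWellFounded.rank_lt_of_rel h2
      rw [← hδ'] at h3
      exact absurd h1 (not_le.2 h3)
  have hlt : ρ + 1 < o := by
    show ρ + 1 < ρ + 1 + Ordinal.omega0
    exact lt_add_of_pos_right _ Ordinal.omega0_pos
  exact ⟨_, lt_of_lt_of_le (lt_add_of_pos_right ρ zero_lt_one) (key (ρ + 1) hlt)⟩

end Pool.Agent.Helper88.OGT
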