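import Pool.Agent.Helper88.OGT.Core

/-!
The abstract theorem: a class of codes of homogeneous linear orders that contains all the orders
of finitely supported functions on countable well-orders has no Polish topology making the
permutation action continuous.
-/

set_option autoImplicit false

namespace Pool.Agent.Helper88.OGT

open Topology

attribute [local instance] permTop

/-- the initial segment of the indices below `δ` -/
def Jset (γ δ : Ordinal.{0}) : Set (Ix γ.ToType) :=
  {i | match i with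
    | Sum.inl _ => True
    | Sum.inr (Sum.inl g) => (Ordinal.ToType.toOrd g).1 < δ
    | Sum.inr (Sum.inr _) => False}

/-- two consecutive blocks -/
def K2 (Γ : Type) : Set (Ix Γ →₀ ℤ) := {a | a (topIx Γ) = 0 ∨ a (topIx Γ) = 1}

theorem Jset_init {γ δ : Ordinal.{0}} {R : ℕ × ℕ → Bool} :
    ∀ i ∈ Jset γ δ, ∀ j, rel γ.ToType R j i → j ∈ Jset γ δ := by
  intro i hi j hj
  rcases i with m | g | u
  · rcases j with n | g'
    · trivial
    · simp [rel] at hj
  · rcases j with n | g' | u'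
    · trivial
    · have hlt : g' < g := by
        simpa [rel] using hj
      have h1 : (Ordinal.ToType.toOrd g).1 < δ := hi
      have h2 : (Ordinal.ToType.toOrd g').1 < (Ordinal.ToType.toOrd g).1 := by
        have : Ordinal.ToType.toOrd g' < Ordinal.ToType.toOrd g :=
          (OrderIso.lt_iff_lt _).2 hlt
        exact this
      exact h2.trans h1
    · simp [rel] at hj
  · exact absurd hi id

theorem Jset_mono {γ δ δ' : Ordinal.{0}} (h : δ' ≤ δ) : Jset γ δ' ⊆ Jset γ δ := by
  intro i hi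
  rcases i with m | g | u
  · trivial
  · exact lt_of_lt_of_le (show (Ordinal.ToType.toOrd g).1 < δ' from hi) h
  · exact absurd hi id

theorem range_subset_Jset (γ δ : Ordinal.{0}) :
    Set.range (Sum.inl : ℕ → Ix γ.ToType) ⊆ Jset γ δ := by
  rintro _ ⟨m, rfl⟩
  trivial

theorem extHyp_Jset {γ δ δ' : Ordinal.{0}} (hδ : δ ≤ γ) (hδ' : δ' < δ) {R : ℕ × ℕ → Bool}
    (K' : Set (Ix γ.ToType →₀ ℤ)) (hne : K'.Nonempty)
    (hcl : ∀ b ∈ K', ∀ x : Ix γ.ToType →₀ ℤ, x (topIx γ.ToType) = 0 → b + x ∈ K') :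
    ExtHyp (rel γ.ToType R) (Jset γ δ) (Jset γ δ') K' where
  initJ := Jset_init
  initJ' := Jset_init
  sub := Jset_mono hδ'.le
  closed b hb x := by
    rintro ⟨i, hi, hx⟩
    refine hcl b hb x ?_
    by_contra hne
    by_cases hit : topIx γ.ToType = i
    · rw [← hit] at hi
      exact hi
    · exact not_rel_top (hx.2 _ hne hit)
  room G _ hGJ := by
    refine ⟨Sum.inr (Sum.inl (Ordinal.ToType.mk ⟨δ', hδ'.trans_le hδ⟩)), ?_, ?_, ?_⟩
    · show ¬ ((Ordinal.ToType.toOrd (Ordinal.ToType.mk ⟨δ', hδ'.trans_le hδ⟩)).1 < δ')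
      simp
    · intro i hi
      have hiJ := hGJ i hi
      rcases i with m | g | u
      · exact absurd trivial hiJ
      · have h1 : ¬ ((Ordinal.ToType.toOrd g).1 < δ) := hiJ
        refine Sum.Lex.inr (Sum.Lex.inl ?_)
        rw [← OrderIso.lt_iff_lt Ordinal.ToType.mk.symm]
        simp only [OrderIso.symm_apply_apply]
        have h2 : δ' < (Ordinal.ToType.toOrd g).1 := lt_of_lt_of_le hδ' (not_lt.1 h1)
        exact h2
      · exact Sum.Lex.inr (Sum.Lex.sep _ _)
    · intro b hb z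
      refine hcl b hb _ ?_
      classical
      rw [Finsupp.single_apply]
      simp [topIx]
  nonempty := hne

theorem BF_restrict {γ : Ordinal.{0}} {ι : ℕ ≃ (Ix γ.ToType →₀ ℤ)} {R : ℕ × ℕ → Bool}
    (hR : STO R) {s : Ix γ.ToType → Bool} {y : Tab ℕ}
    (hy : good ι R s (Set.range Sum.inl) y) (v : ℕ ≃ K2 γ.ToType) (δ : Ordinal.{0}) :
    δ ≤ γ → ∀ (n : ℕ) (a b : ℕ → ℕ),
      (∀ p < n, ∀ q < n, sim (rel γ.ToType R) s (Jset γ δ)
        ((v (a q)).1 - (v (a p)).1) (ι (b q) - ι (b p))) →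
      BF δ n (pull (fun m => ι.symm (v m).1) y) a y b := by
  classical
  have inst := rel_sto (Γ := γ.ToType) hR
  induction δ using WellFoundedLT.induction with
  | ind δ ih =>
    intro hδ n a b hab
    rw [BF]
    refine ⟨⟨fun p hp q hq => ?_, fun l hl k => ?_⟩, fun δ' hδ' => ⟨fun c => ?_, fun d => ?_⟩⟩
    · have h1 := sim_zero (hab q hq p hp)
      rw [sub_eq_zero, sub_eq_zero] at h1
      rw [← v.injective.eq_iff (a := a p), ← ι.injective.eq_iff (a := b p), ← h1]
      exact ⟨fun h => congrArg Subtype.val h, fun h => Subtype.ext h⟩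
    · have h1 := hy (l.map fun p => (ι.symm (v (a p)).1, b p)) (by
        intro p hp q hq
        obtain ⟨p', hp', rfl⟩ := List.mem_map.1 hp
        obtain ⟨q', hq', rfl⟩ := List.mem_map.1 hq
        simp only [Equiv.apply_symm_apply]
        exact sim_mono (range_subset_Jset γ δ) (hab p' (hl p' hp') q' (hl q' hq'))) k
      rw [List.map_map, List.map_map] at h1
      show y ((l.map a).map (fun m => ι.symm (v m).1), k) = _
      rw [List.map_map]
      exact h1
    · -- forth
      let F : Finset ((Ix γ.ToType →₀ ℤ) × (Ix γ.ToType →₀ ℤ)) :=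
        (Finset.range n).image fun p => ((v (a p)).1, ι (b p))
      obtain ⟨d, -, hd⟩ := ext_step (s := s)
        (extHyp_Jset (R := R) hδ hδ' Set.univ Set.univ_nonempty (fun _ _ _ _ => Set.mem_univ _))
        F (by
          intro p hp q hq
          obtain ⟨p', hp', rfl⟩ := Finset.mem_image.1 hp
          obtain ⟨q', hq', rfl⟩ := Finset.mem_image.1 hq
          exact hab p' (Finset.mem_range.1 hp') q' (Finset.mem_range.1 hq'))
        (fun _ _ => Set.mem_univ _) (v c).1
      have hd' : ∀ p < n, sim (rel γ.ToType R) s (Jset γ δ') ((v c).1 - (v (a p)).1)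
          (d - ι (b p)) := fun p hp =>
        hd ((v (a p)).1, ι (b p)) (Finset.mem_image.2 ⟨p, Finset.mem_range.2 hp, rfl⟩)
      refine ⟨ι.symm d, ih δ' hδ' (hδ'.le.trans hδ) _ _ _ ?_⟩
      intro p hp q hq
      by_cases hpn : p = n <;> by_cases hqn : q = n
      · subst hpn; subst hqn; simp only [sub_self]; exact Or.inl ⟨rfl, rfl⟩
      · subst hpn
        simp only [Function.update_self, Function.update_of_ne hqn, Equiv.apply_symm_apply]
        exact sim_sub_comm (hd' q (by omega))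
      · subst hqn
        simp only [Function.update_self, Function.update_of_ne hpn, Equiv.apply_symm_apply]
        exact hd' p (by omega)
      · simp only [Function.update_of_ne hpn, Function.update_of_ne hqn]
        exact sim_mono (Jset_mono hδ'.le) (hab p (by omega) q (by omega))
    · -- back
      let F : Finset ((Ix γ.ToType →₀ ℤ) × (Ix γ.ToType →₀ ℤ)) :=
        (Finset.range n).image fun p => (ι (b p), (v (a p)).1)
      obtain ⟨c, hcK, hc⟩ := ext_step (s := s)
        (extHyp_Jset (R := R) hδ hδ' (K2 γ.ToType) ⟨0, Or.inl rfl⟩ (by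
          intro b hb x hx
          show (b + x) (topIx γ.ToType) = 0 ∨ (b + x) (topIx γ.ToType) = 1
          rw [Finsupp.add_apply, hx, add_zero]
          exact hb))
        F (by
          intro p hp q hq
          obtain ⟨p', hp', rfl⟩ := Finset.mem_image.1 hp
          obtain ⟨q', hq', rfl⟩ := Finset.mem_image.1 hq
          exact sim_symm (hab p' (Finset.mem_range.1 hp') q' (Finset.mem_range.1 hq')))
        (by
          intro p hp
          obtain ⟨p', hp', rfl⟩ := Finset.mem_image.1 hp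
          exact (v (a p')).2) (ι d)
      have hc' : ∀ p < n, sim (rel γ.ToType R) s (Jset γ δ') (c - (v (a p)).1)
          (ι d - ι (b p)) := fun p hp =>
        sim_symm (hc (ι (b p), (v (a p)).1)
          (Finset.mem_image.2 ⟨p, Finset.mem_range.2 hp, rfl⟩))
      refine ⟨v.symm ⟨c, hcK⟩, ih δ' hδ' (hδ'.le.trans hδ) _ _ _ ?_⟩
      intro p hp q hq
      by_cases hpn : p = n <;> by_cases hqn : q = n
      · subst hpn; subst hqn; simp only [sub_self]; exact Or.inl ⟨rfl, rfl⟩
      · subst hpn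
        simp only [Function.update_self, Function.update_of_ne hqn, Equiv.apply_symm_apply]
        exact sim_sub_comm (hc' q (by omega))
      · subst hqn
        simp only [Function.update_self, Function.update_of_ne hpn, Equiv.apply_symm_apply]
        exact hc' p (by omega)
      · simp only [Function.update_of_ne hpn, Function.update_of_ne hqn]
        exact sim_mono (Jset_mono hδ'.le) (hab p (by omega) q (by omega))

/-- Step 9, core: no class element can have the table obtained by restricting to two blocks. -/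
theorem two_blocks_false {Γ : Type} [LinearOrder Γ] [Countable Γ] {ι : ℕ ≃ (Ix Γ →₀ ℤ)}
    {R : ℕ × ℕ → Bool} (hR : STO R) (hacc : Acc (rel Γ R) (topIx Γ))
    {𝓜 : Set (ℕ × ℕ → Bool)} (h : Cls 𝓜) {f : 𝓜 → Tab ℕ} (hf : Function.Injective f)
    (heq : ∀ u x, f (act h u x) = pull (u : ℕ → ℕ) (f x)) {y : Tab ℕ} {s0 : Ix Γ → Bool}
    (hy : good ι R s0 Set.univ y) (v : ℕ ≃ K2 Γ) (x : 𝓜)
    (hx : f x = pull (fun m => ι.symm (v m).1) y) : False := by
  classical
  have inst := rel_sto (Γ := Γ) hR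
  set tp : Ix Γ := topIx Γ with htp
  -- the order on the two blocks
  let lt' : (Ix Γ →₀ ℤ) → (Ix Γ →₀ ℤ) → Prop := fun a b =>
    ∃ (ha : a ∈ K2 Γ) (hb : b ∈ K2 Γ), x.1 (v.symm ⟨a, ha⟩, v.symm ⟨b, hb⟩) = true ∧ a ≠ b
  have hirr : ∀ a ∈ K2 Γ, ¬ lt' a a := fun a _ ⟨_, _, _, h2⟩ => h2 rfl
  have htr : ∀ a ∈ K2 Γ, ∀ b ∈ K2 Γ, ∀ c ∈ K2 Γ, lt' a b → lt' b c → lt' a c := by
    rintro a ha b hb c hc ⟨_, _, h1, h1'⟩ ⟨_, _, h2, h2'⟩
    refine ⟨ha, hc, h.trans _ x.2 _ _ _ h1 h2, fun hac => ?_⟩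
    subst hac
    have h3 := h.antisymm _ x.2 _ _ h1 h2
    have h4 := v.symm.injective h3
    exact h1' (congrArg Subtype.val h4)
  have htot : ∀ a ∈ K2 Γ, ∀ b ∈ K2 Γ, a ≠ b → lt' a b ∨ lt' b a := by
    intro a ha b hb hab
    rcases h.total _ x.2 (v.symm ⟨a, ha⟩) (v.symm ⟨b, hb⟩) with h1 | h1
    · exact Or.inl ⟨ha, hb, h1, hab⟩
    · exact Or.inr ⟨hb, ha, h1, Ne.symm hab⟩
  have hasymm : ∀ a ∈ K2 Γ, ∀ b ∈ K2 Γ, lt' a b → ¬ lt' b a := fun a ha b hb h1 h2 =>
    hirr a ha (htr a ha b hb a ha h1 h2)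
  -- invariance
  have htopc : ∀ g : (Ix Γ →₀ ℤ) ≃ (Ix Γ →₀ ℤ), Pres (rel Γ R) g → (∃ a, (g a) tp = a tp) →
      ∀ b, (g b) tp = b tp := by
    rintro g hg ⟨a, ha⟩ b
    have h1 := sim_univ_iff.1 (hg a b)
    rcases h1 with ⟨h2, h3⟩ | ⟨i, h2, h3, h4⟩
    · rw [sub_eq_zero] at h2 h3
      rw [h3, h2]; exact ha
    · by_cases hit : tp = i
      · rw [← hit] at h4
        simp only [Finsupp.sub_apply] at h4
        omega
      · have e1 : (b - a) tp = 0 := by
          by_contra hne
          exact not_rel_top (h2.2 _ hne hit)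
        have e2 : (g b - g a) tp = 0 := by
          by_contra hne
          exact not_rel_top (h3.2 _ hne hit)
        simp only [Finsupp.sub_apply] at e1 e2
        omega
  have hinvK : ∀ g : (Ix Γ →₀ ℤ) ≃ (Ix Γ →₀ ℤ), Pres (rel Γ R) g → (∃ a, (g a) tp = a tp) →
      ∀ a b, lt' a b → lt' (g a) (g b) := by
    intro g hg hga a b hab
    have hK : ∀ c, c ∈ K2 Γ ↔ g c ∈ K2 Γ := by
      intro c
      have := htopc g hg hga c
      show (c tp = 0 ∨ c tp = 1) ↔ ((g c) tp = 0 ∨ (g c) tp = 1)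
      rw [this]
    let gK : K2 Γ ≃ K2 Γ := g.subtypeEquiv hK
    let u : Equiv.Perm ℕ := v.trans (gK.trans v.symm)
    have hvu : ∀ m, (v (u m)).1 = g (v m).1 := fun m => by
      simp [u, gK]
    have hp : pull (u : ℕ → ℕ) (f x) = f x := by
      rw [hx, pull_pull]
      refine (pull_eq_of_good (s := s0) hy ?_).symm
      intro m n
      have h1 := hg (v m).1 (v n).1
      rw [← hvu, ← hvu] at h1
      simp only [Function.comp, Equiv.apply_symm_apply]
      exact sim_univ_iff.2 (sim_univ_iff.1 h1)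
    have hau := autom_of_pull h hf heq hp
    obtain ⟨ha, hb, h1, h2⟩ := hab
    refine ⟨(hK a).1 ha, (hK b).1 hb, ?_, fun hgab => h2 (g.injective hgab)⟩
    have h3 := hau (v.symm ⟨a, ha⟩) (v.symm ⟨b, hb⟩)
    have e : ∀ c (hc : c ∈ K2 Γ), u (v.symm ⟨c, hc⟩) = v.symm ⟨g c, (hK c).1 hc⟩ := by
      intro c hc
      apply v.injective
      apply Subtype.ext
      rw [hvu]
      simp
    rw [e, e] at h3
    rw [h3]; exact h1
  -- signs on each block
  have hsign : ∀ ε : ℤ, (ε = 0 ∨ ε = 1) → ∃ s : Ix Γ → Bool, ∀ a ∈ {a : Ix Γ →₀ ℤ | a tp = ε},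
      ∀ b ∈ {a : Ix Γ →₀ ℤ | a tp = ε}, (lt' a b ↔ pos (rel Γ R) s (b - a)) := by
    intro ε hε
    have hDK : ∀ a ∈ {a : Ix Γ →₀ ℤ | a tp = ε}, a ∈ K2 Γ := by
      intro a ha
      have ha' : a tp = ε := ha
      show a tp = 0 ∨ a tp = 1
      rw [ha']; exact hε
    refine sign_determination (r := rel Γ R) lt' {a : Ix Γ →₀ ℤ | a tp = ε} {i | i ≠ tp}
      (Finsupp.single tp ε) ?_ ?_ (fun a ha => hirr a (hDK a ha))
      (fun a ha b hb c hc => htr a (hDK a ha) b (hDK b hb) c (hDK c hc))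
      (fun a ha b hb => htot a (hDK a ha) b (hDK b hb)) ?_
    · intro a ha b hb i hi hit
      have ha' : a tp = ε := ha
      have hb' : b tp = ε := hb
      apply hi.1
      rw [hit, Finsupp.sub_apply, ha', hb', sub_self]
    · intro i hi n
      show (Finsupp.single tp ε + Finsupp.single i n) tp = ε
      rw [Finsupp.add_apply, Finsupp.single_eq_same, Finsupp.single_eq_of_ne (Ne.symm hi), add_zero]
    · rintro g hg ⟨a, ha, hga⟩ b _ c _ hbc
      have ha' : a tp = ε := ha
      have hga' : (g a) tp = ε := hga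
      exact hinvK g hg ⟨a, by rw [ha', hga']⟩ b c hbc
  -- the two base points
  have ho : ∀ ε : ℤ, (Finsupp.single tp ε : Ix Γ →₀ ℤ) tp = ε := fun ε => Finsupp.single_eq_same
  -- cross comparison
  have hcross : ∀ ε ε' : ℤ, (ε = 0 ∨ ε = 1) → (ε' = 0 ∨ ε' = 1) → ε ≠ ε' →
      lt' (Finsupp.single tp ε) (Finsupp.single tp ε') →
      ∀ a b : Ix Γ →₀ ℤ, a tp = ε → b tp = ε' → lt' a b := by
    intro ε ε' hε hε' hne hlt a b ha hb
    have hld : ∀ z : Ix Γ →₀ ℤ, z tp ≠ 0 → ld (rel Γ R) z tp := fun z hz =>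
      ⟨hz, fun j _ hj => rel_top hj⟩
    obtain ⟨g, hg, hg1, hg2⟩ := exists_pres_pair (r := rel Γ R) (a := Finsupp.single tp ε)
      (b := Finsupp.single tp ε') (a' := a) (b' := b) ⟨tp, hld _ (by
        rw [Finsupp.sub_apply, ho, ho]; exact sub_ne_zero.2 (Ne.symm hne)), hld _ (by
        rw [Finsupp.sub_apply, ha, hb]; exact sub_ne_zero.2 (Ne.symm hne)), by
        rw [Finsupp.sub_apply, Finsupp.sub_apply, ho, ho, ha, hb]⟩
    have := hinvK g hg ⟨Finsupp.single tp ε, by rw [hg1, ha, ho]⟩ _ _ hlt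
    rwa [hg1, hg2] at this
  -- the final argument, for the block `ε` below the block `ε'`
  have hfin : ∀ ε ε' : ℤ, (ε = 0 ∨ ε = 1) → (ε' = 0 ∨ ε' = 1) → ε ≠ ε' →
      lt' (Finsupp.single tp ε) (Finsupp.single tp ε') → False := by
    intro ε ε' hε hε' hne hlt
    obtain ⟨s, hs⟩ := hsign ε hε
    obtain ⟨s', hs'⟩ := hsign ε' hε'
    have hc := hcross ε ε' hε hε' hne hlt
    set o : Ix Γ →₀ ℤ := Finsupp.single tp ε with hodef
    set o' : Ix Γ →₀ ℤ := Finsupp.single tp ε' with ho'def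
    have hoK : o ∈ K2 Γ := by
      show o tp = 0 ∨ o tp = 1
      rw [hodef, ho]; exact hε
    have ho'K : o' ∈ K2 Γ := by
      show o' tp = 0 ∨ o' tp = 1
      rw [ho'def, ho]; exact hε'
    obtain ⟨u, hu, hu'⟩ := h.hom _ x.2 (v.symm ⟨o, hoK⟩) (v.symm ⟨o', ho'K⟩)
    let G : (Ix Γ →₀ ℤ) → (Ix Γ →₀ ℤ) := fun a =>
      if ha : a ∈ K2 Γ then (v (u (v.symm ⟨a, ha⟩))).1 else 0
    have hGK : ∀ a, a ∈ K2 Γ → G a ∈ K2 Γ := by
      intro a ha
      simp only [G, ha, dif_pos]
      exact (v (u (v.symm ⟨a, ha⟩))).2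
    have hGo : G o = o' := by
      simp only [G, hoK, dif_pos]
      rw [hu]; simp
    have hGlt : ∀ a b, lt' a b → lt' (G a) (G b) := by
      rintro a b ⟨ha, hb, h1, h2⟩
      refine ⟨hGK a ha, hGK b hb, ?_, ?_⟩
      · have e : ∀ c (hc : c ∈ K2 Γ), v.symm ⟨G c, hGK c hc⟩ = u (v.symm ⟨c, hc⟩) := by
          intro c hc
          apply v.injective
          apply Subtype.ext
          simp [G, hc]
        rw [e, e, hu']; exact h1
      · simp only [G, ha, hb, dif_pos]
        intro he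
        have h3 := v.symm.injective (u.injective (v.injective (Subtype.ext he)))
        exact h2 (congrArg Subtype.val h3)
    -- elements above `o'` are in the block `ε'`
    have hblock : ∀ a, a ∈ K2 Γ → (a = o' ∨ lt' o' a) → a tp = ε' := by
      intro a ha hoa
      by_contra hcon
      have haε : a tp = ε := by
        have ha' : a tp = 0 ∨ a tp = 1 := ha
        omega
      have h1 : lt' a o' := hc a o' haε (ho ε')
      rcases hoa with h2 | h2
      · rw [h2] at h1; exact hirr _ ho'K h1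
      · exact hasymm _ ha _ ho'K h1 h2
    have hconeK : ∀ z, Cone (rel Γ R) s tp z → (o + z) tp = ε := by
      intro z hz
      rw [Finsupp.add_apply, hodef, ho]
      rcases hz with rfl | ⟨j, hj, hj1, hj2⟩
      · simp
      · have : z tp = 0 := by
          by_contra hne
          by_cases hjt : tp = j
          · rw [← hjt] at hj
            exact not_rel_top hj
          · exact not_rel_top (hj1.2 tp hne hjt)
        rw [this, add_zero]
    have hconeK2 : ∀ z, Cone (rel Γ R) s tp z → o + z ∈ K2 Γ := by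
      intro z hz
      show (o + z) tp = 0 ∨ (o + z) tp = 1
      rw [hconeK z hz]; exact hε
    have hconele : ∀ z, Cone (rel Γ R) s tp z → (o + z = o ∨ lt' o (o + z)) := by
      intro z hz
      rcases hz with rfl | ⟨j, hj, hj1, hj2⟩
      · left; simp
      · right
        rw [hs o (ho ε) (o + z) (hconeK z (Or.inr ⟨j, hj, hj1, hj2⟩))]
        rw [add_sub_cancel_left]
        exact ⟨j, hj1, hj2⟩
    have hGcone : ∀ z, Cone (rel Γ R) s tp z → (G (o + z)) tp = ε' := by
      intro z hz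
      apply hblock _ (hGK _ (hconeK2 z hz))
      rcases hconele z hz with h1 | h1
      · left; rw [h1, hGo]
      · right; rw [← hGo]; exact hGlt _ _ h1
    have hGo' : (G o') tp = ε' := by
      apply hblock _ (hGK _ ho'K)
      right
      have := hGlt _ _ hlt
      rwa [hGo] at this
    refine no_emb (r := rel Γ R) s s' tp hacc (fun z => G (o + z)) (G o') (fun z hz => ⟨?_, ?_⟩)
      (fun z w hz hw hzw => ?_)
    · show pos (rel Γ R) s' (G o' - G (o + z))
      rw [← hs' (G (o + z)) (hGcone z hz) (G o') hGo']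
      exact hGlt _ _ (hc (o + z) o' (hconeK z hz) (ho ε'))
    · intro k hk
      apply rel_top
      rintro rfl
      apply hk
      rw [Finsupp.sub_apply]
      have e1 : (G o') (topIx Γ) = ε' := hGo'
      have e2 : (G (o + z)) (topIx Γ) = ε' := hGcone z hz
      rw [e1, e2, sub_self]
    · show pos (rel Γ R) s' (G (o + w) - G (o + z))
      rw [← hs' (G (o + z)) (hGcone z hz) (G (o + w)) (hGcone w hw)]
      apply hGlt
      rw [hs (o + z) (hconeK z hz) (o + w) (hconeK w hw)]
      rw [add_sub_add_left_eq_sub]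
      exact hzw
  have h0K : (Finsupp.single tp (0 : ℤ) : Ix Γ →₀ ℤ) ∈ K2 Γ := Or.inl (ho 0)
  have h1K : (Finsupp.single tp (1 : ℤ) : Ix Γ →₀ ℤ) ∈ K2 Γ := Or.inr (ho 1)
  have hne01 : (Finsupp.single tp (0 : ℤ) : Ix Γ →₀ ℤ) ≠ Finsupp.single tp 1 := by
    intro he
    have := congrArg (fun z : Ix Γ →₀ ℤ => z tp) he
    simp at this
  rcases htot _ h0K _ h1K hne01 with h1 | h1
  · exact hfin 0 1 (Or.inl rfl) (Or.inr rfl) zero_ne_one h1
  · exact hfin 1 0 (Or.inr rfl) (Or.inl rfl) one_ne_zero h1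

/-- The abstract theorem. -/
theorem main_abstract {𝓜 : Set (ℕ × ℕ → Bool)} (h : Cls 𝓜) (t : TopologicalSpace 𝓜)
    (hP : PolishSpace 𝓜) (hcx : ∀ u, Continuous (act h u))
    (hcu : ∀ x, Continuous fun u : Equiv.Perm ℕ => act h u x) : False := by
  classical
  obtain ⟨f, hf, hmeas, heq⟩ := exists_embedding (act h)
    (fun x => by apply Subtype.ext; funext p; rfl)
    (fun u v x => by apply Subtype.ext; funext p; rfl) hcx hcu
  obtain ⟨γ, hγ, hrank⟩ := exists_rank_invariant hmeas (by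
    rintro u _ ⟨x, rfl⟩
    exact ⟨act h u x, heq u x⟩)
  let Γ : Type := γ.ToType
  have hΓ : Countable Γ := by
    rw [← Cardinal.mk_le_aleph0_iff, Cardinal.mk_toType]; exact hγ
  obtain ⟨ι⟩ : Nonempty (ℕ ≃ (Ix Γ →₀ ℤ)) := nonempty_equiv_of_countable
  let A : Set ((ℕ × ℕ → Bool) × Tab ℕ) := {q | STO q.1 ∧ q.2 ∈ Set.range f ∧
    good ι q.1 (fun _ => true) Set.univ q.2 ∧ ¬ ∃ s, good ι q.1 s (Set.range Sum.inl) q.2}
  have hA : MeasurableSet A := by
    refine MeasurableSet.inter (isClosed_STO.preimage continuous_fst).measurableSet ?_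
    refine MeasurableSet.inter (measurable_snd hmeas) ?_
    refine MeasurableSet.inter (isClosed_good_fixed ι Set.univ (fun _ => true)).measurableSet ?_
    exact (isClosed_exists_good ι (Set.range Sum.inl)).measurableSet.compl
  have hwf : ∀ q ∈ A, IsWellFounded ℕ (relOf (Prod.fst q)) := by
    rintro ⟨R, y⟩ ⟨hR, ⟨x, rfl⟩, hg, hng⟩
    by_contra hcon
    exact hng (exists_good_of_not_wf h hR hcon hg hf heq)
  have hPol : PolishSpace ((ℕ × ℕ → Bool) × Tab ℕ) :=
    { toSecondCountableTopology := inferInstance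
      toIsCompletelyMetrizableSpace := inferInstance }
  obtain ⟨ρ, hρ, hb⟩ := bounded_of_measurable hA Prod.fst continuous_fst hwf
  obtain ⟨R, hR, hwo, hm⟩ := exists_large_wo hρ
  have hwo2 : IsWellOrder (Ix Γ) (rel Γ R) := by
    unfold rel
    infer_instance
  let x0 : 𝓜 := ⟨codeOf (rel Γ R) ι, h.mem (Ix Γ) (rel Γ R) ι⟩
  have hg0 : good ι R (fun _ => true) Set.univ (f x0) :=
    good_of_sign h heq hR (fun m n => codeOf_iff) (by
      have := rel_sto (Γ := Γ) hR
      exact extHyp_univ)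
  have hnotA : (R, f x0) ∉ A := by
    intro hmem
    have h1 := hb (R, f x0) hmem
    obtain ⟨m, hm'⟩ := @hm (hwf _ hmem)
    exact absurd (h1 m) (not_le.2 hm')
  have hex : ∃ s, good ι R s (Set.range Sum.inl) (f x0) := by
    by_contra hcon
    exact hnotA ⟨hR, ⟨x0, rfl⟩, hg0, hcon⟩
  obtain ⟨s, hs⟩ := hex
  have hK2inf : Infinite (K2 Γ) := by
    refine Infinite.of_injective (fun n : ℕ => (⟨Finsupp.single (Sum.inl 0) (n : ℤ), ?_⟩ : K2 Γ)) ?_
    · left
      rw [Finsupp.single_apply]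
      simp [topIx]
    · intro m n hmn
      have := congrArg (fun z : K2 Γ => z.1 (Sum.inl 0)) hmn
      simpa using this
  obtain ⟨v⟩ : Nonempty (ℕ ≃ K2 Γ) := nonempty_equiv_of_countable
  have hBF := BF_restrict hR hs v γ le_rfl 0 (fun _ => 0) (fun _ => 0)
    (fun p hp => absurd hp (by omega))
  obtain ⟨x, hx⟩ := hrank _ _ _ (BF_symm hBF) ⟨x0, rfl⟩
  exact two_blocks_false hR (hwo2.wf.apply _) h hf heq hg0 v x hx

end Pool.Agent.Helper88.OGT
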