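import Pool.Agent.Helper88.OGT.Final

/-!
The class of codes of orders of type zeta^alpha and zeta^alpha times eta has the properties used
in the abstract theorem.
-/

set_option autoImplicit false

namespace Pool.Agent.Helper88.OGT

open Topology

attribute [local instance] permTop

/-- codes of homogeneous strict total orders -/
def HomCoded (x : ℕ × ℕ → Bool) : Prop :=
  ∃ (P : Type 1) (lt : P → P → Prop), IsStrictTotalOrder P lt ∧
    (∀ a b, ∃ g : P ≃ P, g a = b ∧ ∀ c d, lt (g c) (g d) ↔ lt c d) ∧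
    ∃ e : ℕ ≃ P, ∀ m n, x (m, n) = true ↔ (e m = e n ∨ lt (e m) (e n))

theorem HomCoded.refl {x : ℕ × ℕ → Bool} (h : HomCoded x) (m : ℕ) : x (m, m) = true := by
  obtain ⟨P, lt, -, -, e, he⟩ := h
  exact (he m m).2 (Or.inl rfl)

theorem HomCoded.antisymm {x : ℕ × ℕ → Bool} (h : HomCoded x) (m n : ℕ)
    (h1 : x (m, n) = true) (h2 : x (n, m) = true) : m = n := by
  obtain ⟨P, lt, hlt, -, e, he⟩ := h
  rcases (he m n).1 h1 with h3 | h3
  · exact e.injective h3
  · rcases (he n m).1 h2 with h4 | h4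
    · exact (e.injective h4).symm
    · exact absurd (hlt.toIsStrictOrder.toIsTrans.trans _ _ _ h3 h4)
        (hlt.toIsStrictOrder.toIrrefl.irrefl _)

theorem HomCoded.trans {x : ℕ × ℕ → Bool} (h : HomCoded x) (m n k : ℕ)
    (h1 : x (m, n) = true) (h2 : x (n, k) = true) : x (m, k) = true := by
  obtain ⟨P, lt, hlt, -, e, he⟩ := h
  rw [he] at *
  rcases h1 with h3 | h3
  · rw [h3]; exact h2
  · rcases h2 with h4 | h4
    · rw [← h4]; exact Or.inr h3
    · exact Or.inr (hlt.toIsStrictOrder.toIsTrans.trans _ _ _ h3 h4)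

theorem HomCoded.total {x : ℕ × ℕ → Bool} (h : HomCoded x) (m n : ℕ) :
    x (m, n) = true ∨ x (n, m) = true := by
  obtain ⟨P, lt, hlt, -, e, he⟩ := h
  rw [he, he]
  by_cases h1 : lt (e m) (e n)
  · exact Or.inl (Or.inr h1)
  · by_cases h2 : lt (e n) (e m)
    · exact Or.inr (Or.inr h2)
    · exact Or.inl (Or.inl (hlt.toTrichotomous.trichotomous _ _ h1 h2))

theorem HomCoded.hom {x : ℕ × ℕ → Bool} (h : HomCoded x) (m n : ℕ) :
    ∃ g : Equiv.Perm ℕ, g m = n ∧ ∀ a b, x (g a, g b) = x (a, b) := by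
  obtain ⟨P, lt, -, hom, e, he⟩ := h
  obtain ⟨g, hg, hg'⟩ := hom (e m) (e n)
  have hu : ∀ a, e ((e.trans (g.trans e.symm)) a) = g (e a) := fun a => by simp
  refine ⟨e.trans (g.trans e.symm), ?_, fun a b => ?_⟩
  · apply e.injective
    rw [hu, hg]
  · rw [Bool.eq_iff_iff, he, he, hu, hu, hg']
    exact or_congr g.injective.eq_iff Iff.rfl

/-- the finitely supported functions on the ordinal `α` -/
abbrev ZA (α : Ordinal.{0}) : Type 1 :=
  Subtype (fun f : (Ordinal.{0} → ℤ) =>
    (∀ β : Ordinal.{0}, f β ≠ 0 → β < α) ∧ (Function.support f).Finite)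

/-- the order by last difference -/
def ltZ (f g : Ordinal.{0} → ℤ) : Prop :=
  ∃ β : Ordinal.{0}, f β < g β ∧ ∀ γ : Ordinal.{0}, β < γ → f γ = g γ

theorem ltZ_irrefl (f : Ordinal.{0} → ℤ) : ¬ ltZ f f := by
  rintro ⟨β, h, -⟩; exact lt_irrefl _ h

theorem ltZ_trans {f g k : Ordinal.{0} → ℤ} (h1 : ltZ f g) (h2 : ltZ g k) : ltZ f k := by
  obtain ⟨β, h1, h1'⟩ := h1
  obtain ⟨δ, h2, h2'⟩ := h2
  rcases lt_trichotomy β δ with h | h | h
  · refine ⟨δ, by rw [h1' δ h]; exact h2, fun γ hγ => ?_⟩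
    rw [h1' γ (h.trans hγ), h2' γ hγ]
  · subst h
    exact ⟨β, h1.trans h2, fun γ hγ => by rw [h1' γ hγ, h2' γ hγ]⟩
  · refine ⟨β, by rw [← h2' β h]; exact h1, fun γ hγ => ?_⟩
    rw [h1' γ hγ, h2' γ (h.trans hγ)]

theorem ltZ_total {α : Ordinal.{0}} (f g : ZA α) (hne : f ≠ g) : ltZ f.1 g.1 ∨ ltZ g.1 f.1 := by
  classical
  have hfin : {β | f.1 β ≠ g.1 β}.Finite := by
    refine (f.2.2.union g.2.2).subset ?_
    intro β hβ
    by_contra hcon
    simp only [Set.mem_union, Function.mem_support, not_or, not_not] at hcon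
    exact hβ (by rw [hcon.1, hcon.2])
  have hnonempty : {β | f.1 β ≠ g.1 β}.Nonempty := by
    by_contra hcon
    rw [Set.not_nonempty_iff_eq_empty] at hcon
    apply hne
    apply Subtype.ext
    funext β
    by_contra hβ
    have : β ∈ {β | f.1 β ≠ g.1 β} := hβ
    rw [hcon] at this
    exact this
  obtain ⟨β, hβ, hmax⟩ := Set.exists_max_image _ id hfin hnonempty
  have hgt : ∀ γ, β < γ → f.1 γ = g.1 γ := by
    intro γ hγ
    by_contra hcon
    exact absurd (hmax γ hcon) (not_le.2 hγ)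
  rcases lt_or_gt_of_ne (show f.1 β ≠ g.1 β from hβ) with h | h
  · exact Or.inl ⟨β, h, hgt⟩
  · exact Or.inr ⟨β, h, fun γ hγ => (hgt γ hγ).symm⟩

/-- translations -/
def trZ {α : Ordinal.{0}} (a b : ZA α) : ZA α ≃ ZA α where
  toFun c := ⟨fun β => c.1 β + (b.1 β - a.1 β), by
    refine ⟨fun β hβ => ?_, ?_⟩
    · by_contra hcon
      apply hβ
      have h1 : ∀ d : ZA α, d.1 β = 0 := fun d => by
        by_contra h; exact hcon (d.2.1 β h)
      show c.1 β + (b.1 β - a.1 β) = 0
      rw [h1, h1, h1]; rfl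
    · refine ((c.2.2.union b.2.2).union a.2.2).subset ?_
      intro β hβ
      by_contra hcon
      simp only [Set.mem_union, Function.mem_support, not_or, not_not] at hcon
      apply hβ
      show c.1 β + (b.1 β - a.1 β) = 0
      rw [hcon.1.1, hcon.1.2, hcon.2]; rfl⟩
  invFun c := ⟨fun β => c.1 β + (a.1 β - b.1 β), by
    refine ⟨fun β hβ => ?_, ?_⟩
    · by_contra hcon
      apply hβ
      have h1 : ∀ d : ZA α, d.1 β = 0 := fun d => by
        by_contra h; exact hcon (d.2.1 β h)
      show c.1 β + (a.1 β - b.1 β) = 0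
      rw [h1, h1, h1]; rfl
    · refine ((c.2.2.union b.2.2).union a.2.2).subset ?_
      intro β hβ
      by_contra hcon
      simp only [Set.mem_union, Function.mem_support, not_or, not_not] at hcon
      apply hβ
      show c.1 β + (a.1 β - b.1 β) = 0
      rw [hcon.1.1, hcon.1.2, hcon.2]; rfl⟩
  left_inv c := by
    apply Subtype.ext
    funext β
    show c.1 β + (b.1 β - a.1 β) + (a.1 β - b.1 β) = c.1 β
    ring
  right_inv c := by
    apply Subtype.ext
    funext β
    show c.1 β + (a.1 β - b.1 β) + (b.1 β - a.1 β) = c.1 β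
    ring

theorem trZ_apply {α : Ordinal.{0}} (a b c : ZA α) (β : Ordinal.{0}) :
    (trZ a b c).1 β = c.1 β + (b.1 β - a.1 β) := rfl

theorem trZ_self {α : Ordinal.{0}} (a b : ZA α) : trZ a b a = b := by
  apply Subtype.ext
  funext β
  rw [trZ_apply]; ring

theorem trZ_lt {α : Ordinal.{0}} (a b c d : ZA α) :
    ltZ (trZ a b c).1 (trZ a b d).1 ↔ ltZ c.1 d.1 := by
  unfold ltZ
  simp only [trZ_apply, add_lt_add_iff_right, add_left_inj]

theorem homCoded_zeta {x : ℕ × ℕ → Bool} {α : Ordinal.{0}} (e : ℕ ≃ ZA α)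
    (he : ∀ m n : ℕ, x (m, n) = true ↔ (e m = e n ∨ ltZ (e m).1 (e n).1)) : HomCoded x := by
  refine ⟨ZA α, fun a b => ltZ a.1 b.1, ?_, fun a b => ⟨trZ a b, trZ_self a b, trZ_lt a b⟩, e, he⟩
  exact
    { trichotomous := fun a b h1 h2 => by
        by_contra hne
        rcases ltZ_total a b hne with h | h
        · exact h1 h
        · exact h2 h
      irrefl := fun a => ltZ_irrefl a.1
      trans := fun a b c => ltZ_trans }

theorem homCoded_zeta_eta {x : ℕ × ℕ → Bool} {α : Ordinal.{0}} (e : ℕ ≃ ℚ × ZA α)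
    (he : ∀ m n : ℕ, x (m, n) = true ↔ (e m = e n ∨ (e m).1 < (e n).1 ∨
      ((e m).1 = (e n).1 ∧ ltZ (e m).2.1 (e n).2.1))) : HomCoded x := by
  refine ⟨ℚ × ZA α, fun a b => a.1 < b.1 ∨ (a.1 = b.1 ∧ ltZ a.2.1 b.2.1), ?_, ?_, e, he⟩
  · exact
      { trichotomous := fun a b h1 h2 => by
          simp only [not_or, not_and, not_lt] at h1 h2
          have h3 : a.1 = b.1 := le_antisymm h2.1 h1.1
          by_contra hne
          have h4 : a.2 ≠ b.2 := fun h4 => hne (Prod.ext h3 h4)
          rcases ltZ_total a.2 b.2 h4 with h | h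
          · exact h1.2 h3 h
          · exact h2.2 h3.symm h
        irrefl := fun a h => by
          rcases h with h | ⟨-, h⟩
          · exact lt_irrefl _ h
          · exact ltZ_irrefl _ h
        trans := fun a b c h1 h2 => by
          rcases h1 with h1 | ⟨h1, h1'⟩
          · rcases h2 with h2 | ⟨h2, h2'⟩
            · exact Or.inl (h1.trans h2)
            · exact Or.inl (by rw [← h2]; exact h1)
          · rcases h2 with h2 | ⟨h2, h2'⟩
            · exact Or.inl (by rw [h1]; exact h2)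
            · exact Or.inr ⟨h1.trans h2, ltZ_trans h1' h2'⟩ }
  · intro a b
    refine ⟨Equiv.prodCongr (Equiv.addRight (b.1 - a.1)) (trZ a.2 b.2), ?_, fun c d => ?_⟩
    · apply Prod.ext
      · show a.1 + (b.1 - a.1) = b.1
        ring
      · exact trZ_self a.2 b.2
    · show (c.1 + (b.1 - a.1) < d.1 + (b.1 - a.1) ∨ (c.1 + (b.1 - a.1) = d.1 + (b.1 - a.1) ∧
        ltZ (trZ a.2 b.2 c.2).1 (trZ a.2 b.2 d.2).1)) ↔ _
      rw [trZ_lt, add_lt_add_iff_right, add_left_inj]

/-- transfer of finitely supported functions from a well-order to its order type -/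
noncomputable def toZA {I : Type} (r : I → I → Prop) [IsWellOrder I r] :
    (I →₀ ℤ) ≃ ZA (Ordinal.type r) where
  toFun x := ⟨fun β => if h : β < Ordinal.type r then x (Ordinal.enum r ⟨β, h⟩) else 0, by
    classical
    refine ⟨fun β hβ => ?_, ?_⟩
    · by_contra hcon
      simp [hcon] at hβ
    · refine ((x.support.finite_toSet).image (Ordinal.typein r)).subset ?_
      intro β hβ
      simp only [Function.mem_support] at hβ
      by_cases h : β < Ordinal.type r
      · simp only [h, dif_pos] at hβ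
        exact ⟨Ordinal.enum r ⟨β, h⟩, by simpa using hβ, Ordinal.typein_enum r h⟩
      · simp [h] at hβ⟩
  invFun f := Finsupp.ofSupportFinite (fun i => f.1 (Ordinal.typein r i)) (by
    have := f.2.2.preimage (f := Ordinal.typein r) ((Ordinal.typein_injective r).injOn)
    exact this)
  left_inv x := by
    ext i
    simp [Finsupp.ofSupportFinite_coe, Ordinal.typein_lt_type]
  right_inv f := by
    apply Subtype.ext
    funext β
    by_cases h : β < Ordinal.type r
    · simp only [h, dif_pos]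
      show f.1 (Ordinal.typein r (Ordinal.enum r ⟨β, h⟩)) = f.1 β
      rw [Ordinal.typein_enum]
    · simp only [h, dif_neg, not_false_eq_true]
      by_contra hcon
      exact h (f.2.1 β (fun h0 => hcon h0.symm))

theorem toZA_typein {I : Type} (r : I → I → Prop) [IsWellOrder I r] (x : I →₀ ℤ) (i : I) :
    (toZA r x).1 (Ordinal.typein r i) = x i := by
  simp [toZA, Ordinal.typein_lt_type]

theorem toZA_ge {I : Type} (r : I → I → Prop) [IsWellOrder I r] (x : I →₀ ℤ) {β : Ordinal.{0}}
    (h : ¬ β < Ordinal.type r) : (toZA r x).1 β = 0 := by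
  simp [toZA, h]

theorem toZA_lt {I : Type} (r : I → I → Prop) [IsWellOrder I r] (x y : I →₀ ℤ) :
    ltZ (toZA r x).1 (toZA r y).1 ↔ pos r (fun _ => true) (y - x) := by
  constructor
  · rintro ⟨β, h1, h2⟩
    have hβ : β < Ordinal.type r := by
      by_contra hcon
      rw [toZA_ge r x hcon, toZA_ge r y hcon] at h1
      exact lt_irrefl _ h1
    obtain ⟨i, rfl⟩ : ∃ i, β = Ordinal.typein r i :=
      ⟨Ordinal.enum r ⟨β, hβ⟩, (Ordinal.typein_enum r hβ).symm⟩
    rw [toZA_typein, toZA_typein] at h1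
    refine ⟨i, ⟨?_, fun j hj hji => ?_⟩, ?_⟩
    · rw [Finsupp.sub_apply]; omega
    · by_contra hcon
      have hij : r i j := by
        have ht : Std.Trichotomous r := inferInstance
        by_contra h3
        exact hji (ht.trichotomous _ _ hcon h3)
      have := h2 _ ((Ordinal.typein_lt_typein r).2 hij)
      rw [toZA_typein, toZA_typein] at this
      rw [Finsupp.sub_apply] at hj
      omega
    · simp only [sg, if_true, one_mul, Finsupp.sub_apply]
      omega
  · rintro ⟨i, hi, hi'⟩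
    simp only [sg, if_true, one_mul, Finsupp.sub_apply] at hi'
    refine ⟨Ordinal.typein r i, by rw [toZA_typein, toZA_typein]; omega, fun γ hγ => ?_⟩
    by_cases h : γ < Ordinal.type r
    · obtain ⟨j, rfl⟩ : ∃ j, γ = Ordinal.typein r j :=
        ⟨Ordinal.enum r ⟨γ, h⟩, (Ordinal.typein_enum r h).symm⟩
      rw [toZA_typein, toZA_typein]
      have hij : r i j := (Ordinal.typein_lt_typein r).1 hγ
      by_contra hne
      have h1 : (y - x) j ≠ 0 := by rw [Finsupp.sub_apply]; omega
      have hirr : ∀ a, ¬ r a a := fun a ha => (IsWellFounded.wf (r := r)).irrefl.irrefl a ha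
      have hji : j ≠ i := by
        rintro rfl; exact hirr _ hij
      have h2 := hi.2 j h1 hji
      have htr : IsTrans I r := inferInstance
      exact hirr _ (htr.trans _ _ _ hij h2)
    · rw [toZA_ge r x h, toZA_ge r y h]

/-- the class of the problem -/
def clsM : Set (ℕ × ℕ → Bool) :=
  {x : (ℕ × ℕ → Bool) | ∃ α : Ordinal.{0}, Ordinal.card α ≤ Cardinal.aleph0 ∧
        ((∃ e : ℕ ≃ Subtype (fun f : (Ordinal.{0} → ℤ) =>
              (∀ β : Ordinal.{0}, f β ≠ 0 → β < α) ∧ (Function.support f).Finite),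
            ∀ m n : ℕ, x (m, n) = true ↔
              (e m = e n ∨ ∃ β : Ordinal.{0}, (e m).1 β < (e n).1 β ∧
                ∀ γ : Ordinal.{0}, β < γ → (e m).1 γ = (e n).1 γ)) ∨
         (∃ e : ℕ ≃ ℚ × Subtype (fun f : (Ordinal.{0} → ℤ) =>
              (∀ β : Ordinal.{0}, f β ≠ 0 → β < α) ∧ (Function.support f).Finite),
            ∀ m n : ℕ, x (m, n) = true ↔
              (e m = e n ∨ (e m).1 < (e n).1 ∨
                ((e m).1 = (e n).1 ∧
                  ∃ β : Ordinal.{0}, (e m).2.1 β < (e n).2.1 β ∧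
                    ∀ γ : Ordinal.{0}, β < γ → (e m).2.1 γ = (e n).2.1 γ))))}

theorem clsM_homCoded {x : ℕ × ℕ → Bool} (hx : x ∈ clsM) : HomCoded x := by
  obtain ⟨α, -, ⟨e, he⟩ | ⟨e, he⟩⟩ := hx
  · exact homCoded_zeta e he
  · exact homCoded_zeta_eta e he

theorem cls_clsM : Cls clsM where
  refl x hx := (clsM_homCoded hx).refl
  antisymm x hx := (clsM_homCoded hx).antisymm
  trans x hx := (clsM_homCoded hx).trans
  total x hx := (clsM_homCoded hx).total
  inv x hx g := by
    obtain ⟨α, hα, ⟨e, he⟩ | ⟨e, he⟩⟩ := hx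
    · exact ⟨α, hα, Or.inl ⟨g.trans e, fun m n => he (g m) (g n)⟩⟩
    · exact ⟨α, hα, Or.inr ⟨g.trans e, fun m n => he (g m) (g n)⟩⟩
  hom x hx := (clsM_homCoded hx).hom
  mem I _ _ r _ ι := by
    refine ⟨Ordinal.type r, ?_, Or.inl ⟨ι.trans (toZA r), fun m n => ?_⟩⟩
    · rw [Ordinal.card_type]; exact Cardinal.mk_le_aleph0
    · rw [codeOf_iff]
      refine or_congr ?_ ?_
      · exact ((ι.trans (toZA r)).injective.eq_iff).symm
      · exact (toZA_lt r (ι m) (ι n)).symm

/-- The theorem: no Polish topology on the class makes the permutation action continuous. -/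
theorem main_false (t : TopologicalSpace clsM) (hP : @PolishSpace clsM t)
    (a : Equiv.Perm ℕ × clsM → clsM)
    (ha : ∀ g : Equiv.Perm ℕ, ∀ x : clsM, ((a (g, x) : clsM) : ℕ × ℕ → Bool) =
      (fun p : ℕ × ℕ => (x : ℕ × ℕ → Bool) (g.symm p.1, g.symm p.2)))
    (hc : @Continuous (Equiv.Perm ℕ × clsM) clsM
      (@instTopologicalSpaceProd (Equiv.Perm ℕ) clsM
        (TopologicalSpace.induced (fun g : Equiv.Perm ℕ => (⇑g : ℕ → ℕ)) inferInstance) t) t a) :
    False := by
  have hact : ∀ u x, act cls_clsM u x = a (u⁻¹, x) := by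
    intro u x
    apply Subtype.ext
    rw [ha]
    funext p
    rfl
  refine main_abstract cls_clsM t hP (fun u => ?_) (fun x => ?_)
  · have : act cls_clsM u = fun x => a (u⁻¹, x) := funext (hact u)
    rw [this]
    exact hc.comp (continuous_const.prodMk continuous_id)
  · have : (fun u => act cls_clsM u x) = fun u => a (u⁻¹, x) := funext fun u => hact u x
    rw [this]
    exact hc.comp (continuous_inv_perm.prodMk continuous_const)

end Pool.Agent.Helper88.OGT
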