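import Pool.Agent.Helper88.OGT.NoEmb
import Pool.Agent.Helper88.OGT.Bounded

/-!
The index order `R + Γ + 1`, the tables that depend only on leading terms, and measurability.
-/

set_option autoImplicit false

namespace Pool.Agent.Helper88.OGT

open Topology

/-- the index set -/
abbrev Ix (Γ : Type) : Type := ℕ ⊕ (Γ ⊕ Unit)

/-- the order on the index set: first the relation coded by `R`, then `Γ`, then a last element -/
def rel (Γ : Type) [LT Γ] (R : ℕ × ℕ → Bool) : Ix Γ → Ix Γ → Prop :=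
  Sum.Lex (relOf R) (Sum.Lex (fun a b : Γ => a < b) emptyRelation)

/-- the last index -/
def topIx (Γ : Type) : Ix Γ := Sum.inr (Sum.inr ())

/-- strict total orders, in elementary terms -/
def STO (R : ℕ × ℕ → Bool) : Prop :=
  (∀ m, R (m, m) = false) ∧ (∀ m n k, R (m, n) = true → R (n, k) = true → R (m, k) = true) ∧
    ∀ m n, m ≠ n → (R (m, n) = true ∨ R (n, m) = true)

theorem STO.isStrictTotalOrder {R : ℕ × ℕ → Bool} (h : STO R) :
    IsStrictTotalOrder ℕ (relOf R) where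
  trichotomous a b h1 h2 := by
    by_contra hne
    rcases h.2.2 a b hne with h3 | h3
    · exact h1 h3
    · exact h2 h3
  irrefl a ha := by
    have := h.1 a
    rw [relOf, this] at ha
    exact Bool.false_ne_true ha
  trans a b c h1 h2 := h.2.1 a b c h1 h2

section

variable {Γ : Type} [LinearOrder Γ]

theorem rel_sto {R : ℕ × ℕ → Bool} (h : STO R) : IsStrictTotalOrder (Ix Γ) (rel Γ R) := by
  have := h.isStrictTotalOrder
  unfold rel
  have i1 : IsStrictTotalOrder Unit (emptyRelation : Unit → Unit → Prop) := by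
    constructor
  have i2 : IsStrictTotalOrder (Γ ⊕ Unit) (Sum.Lex (fun a b : Γ => a < b) emptyRelation) :=
    { toTrichotomous := inferInstance
      toIsStrictOrder := { toIrrefl := inferInstance, toIsTrans := inferInstance } }
  exact { toTrichotomous := inferInstance
          toIsStrictOrder := { toIrrefl := inferInstance, toIsTrans := inferInstance } }

theorem rel_top {R : ℕ × ℕ → Bool} {i : Ix Γ} (hi : i ≠ topIx Γ) : rel Γ R i (topIx Γ) := by
  unfold rel topIx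
  rcases i with m | g | u
  · exact Sum.Lex.sep _ _
  · exact Sum.Lex.inr (Sum.Lex.sep _ _)
  · exact absurd rfl hi

theorem not_rel_top {R : ℕ × ℕ → Bool} {i : Ix Γ} : ¬ rel Γ R (topIx Γ) i := by
  unfold rel topIx
  intro h
  rcases i with m | g | u
  · cases h
  · cases h with
    | inr h => cases h
  · cases h with
    | inr h => cases h with
      | inr h => exact h

/-- the tables that depend only on the `sim` type of tuples -/
def good (ι : ℕ ≃ (Ix Γ →₀ ℤ)) (R : ℕ × ℕ → Bool) (s : Ix Γ → Bool) (J : Set (Ix Γ))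
    (y : Tab ℕ) : Prop :=
  ∀ L : List (ℕ × ℕ), (∀ p ∈ L, ∀ q ∈ L, sim (rel Γ R) s J (ι q.1 - ι p.1) (ι q.2 - ι p.2)) →
    ∀ k, y (L.map Prod.fst, k) = y (L.map Prod.snd, k)

theorem good_mono {ι : ℕ ≃ (Ix Γ →₀ ℤ)} {R : ℕ × ℕ → Bool} {s : Ix Γ → Bool}
    {J J' : Set (Ix Γ)} (hJ : J ⊆ J') {y : Tab ℕ} (h : good ι R s J y) : good ι R s J' y :=
  fun L hL k => h L (fun p hp q hq => sim_mono hJ (hL p hp q hq)) k

theorem good_univ_sign {ι : ℕ ≃ (Ix Γ →₀ ℤ)} {R : ℕ × ℕ → Bool} {s s' : Ix Γ → Bool}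
    {y : Tab ℕ} (h : good ι R s Set.univ y) : good ι R s' Set.univ y :=
  fun L hL k => h L (fun p hp q hq => sim_univ_iff.2 (sim_univ_iff.1 (hL p hp q hq))) k

/-! ### measurability -/

theorem isOpen_rel (j i : Ix Γ) : IsOpen {R : ℕ × ℕ → Bool | rel Γ R j i} := by
  rcases j with m | g
  · rcases i with n | h
    · have : {R : ℕ × ℕ → Bool | rel Γ R (Sum.inl m) (Sum.inl n)} =
          {R : ℕ × ℕ → Bool | R (m, n) = true} := by
        ext R
        simp [rel, relOf]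
      rw [this]
      have hc : Continuous fun R : ℕ × ℕ → Bool => R (m, n) := continuous_apply (m, n)
      exact hc.isOpen_preimage {true} (isOpen_discrete _)
    · have : {R : ℕ × ℕ → Bool | rel Γ R (Sum.inl m) (Sum.inr h)} = Set.univ := by
        ext R
        simp [rel]
      rw [this]; exact isOpen_univ
  · rcases i with n | h
    · have : {R : ℕ × ℕ → Bool | rel Γ R (Sum.inr g) (Sum.inl n)} = ∅ := by
        ext R
        simp [rel]
      rw [this]; exact isOpen_empty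
    · have : {R : ℕ × ℕ → Bool | rel Γ R (Sum.inr g) (Sum.inr h)} =
          {_R : ℕ × ℕ → Bool | Sum.Lex (fun a b : Γ => a < b) emptyRelation g h} := by
        ext R
        simp [rel]
      rw [this]; exact isOpen_const

theorem isOpen_ld (x : Ix Γ →₀ ℤ) (i : Ix Γ) : IsOpen {R : ℕ × ℕ → Bool | ld (rel Γ R) x i} := by
  classical
  have : {R : ℕ × ℕ → Bool | ld (rel Γ R) x i} =
      {_R : ℕ × ℕ → Bool | x i ≠ 0} ∩
        ⋂ j ∈ x.support.erase i, {R : ℕ × ℕ → Bool | rel Γ R j i} := by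
    ext R
    simp only [ld, Set.mem_ofPred_eq, Set.mem_inter_iff, Set.mem_iInter, Finset.mem_erase,
      Finsupp.mem_support_iff]
    constructor
    · rintro ⟨h1, h2⟩
      exact ⟨h1, fun j hj => h2 j hj.2 hj.1⟩
    · rintro ⟨h1, h2⟩
      exact ⟨h1, fun j hj hji => h2 j ⟨hji, hj⟩⟩
  rw [this]
  exact isOpen_const.inter (isOpen_biInter_finset fun j _ => isOpen_rel j i)

theorem isOpen_sim (J : Set (Ix Γ)) (x x' : Ix Γ →₀ ℤ) :
    IsOpen {q : (ℕ × ℕ → Bool) × (Ix Γ → Bool) | sim (rel Γ q.1) q.2 J x x'} := by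
  have hld : ∀ (x : Ix Γ →₀ ℤ) (i : Ix Γ),
      IsOpen {q : (ℕ × ℕ → Bool) × (Ix Γ → Bool) | ld (rel Γ q.1) x i} := fun x i =>
    (isOpen_ld x i).preimage continuous_fst
  have hsg : ∀ (i i' : Ix Γ) (a b : ℤ), IsOpen {q : (ℕ × ℕ → Bool) × (Ix Γ → Bool) |
      (0 < sg (q.2 i) * a ↔ 0 < sg (q.2 i') * b)} := by
    intro i i' a b
    have hc : Continuous fun q : (ℕ × ℕ → Bool) × (Ix Γ → Bool) => (q.2 i, q.2 i') :=
      ((continuous_apply i).comp continuous_snd).prodMk ((continuous_apply i').comp continuous_snd)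
    exact hc.isOpen_preimage {t : Bool × Bool | (0 < sg t.1 * a ↔ 0 < sg t.2 * b)}
      (isOpen_discrete _)
  have : {q : (ℕ × ℕ → Bool) × (Ix Γ → Bool) | sim (rel Γ q.1) q.2 J x x'} =
      {_q : (ℕ × ℕ → Bool) × (Ix Γ → Bool) | x = 0 ∧ x' = 0} ∪
      ((⋃ i : Ix Γ, ({_q : (ℕ × ℕ → Bool) × (Ix Γ → Bool) | i ∈ J ∧ x i = x' i} ∩
          ({q | ld (rel Γ q.1) x i} ∩ {q | ld (rel Γ q.1) x' i}))) ∪
       (⋃ i : Ix Γ, ⋃ i' : Ix Γ,
          ({_q : (ℕ × ℕ → Bool) × (Ix Γ → Bool) | i ∉ J ∧ i' ∉ J} ∩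
          (({q | ld (rel Γ q.1) x i} ∩ {q | ld (rel Γ q.1) x' i'}) ∩
            {q | (0 < sg (q.2 i) * x i ↔ 0 < sg (q.2 i') * x' i')})))) := by
    ext q
    simp only [sim, Set.mem_ofPred_eq, Set.mem_union, Set.mem_iUnion, Set.mem_inter_iff]
    constructor
    · rintro (h | ⟨i, hi, h1, h2, h3⟩ | ⟨i, hi, i', hi', h1, h2, h3⟩)
      · exact Or.inl h
      · exact Or.inr (Or.inl ⟨i, ⟨hi, h3⟩, h1, h2⟩)
      · exact Or.inr (Or.inr ⟨i, i', ⟨hi, hi'⟩, ⟨h1, h2⟩, h3⟩)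
    · rintro (h | ⟨i, ⟨hi, h3⟩, h1, h2⟩ | ⟨i, i', ⟨hi, hi'⟩, ⟨h1, h2⟩, h3⟩)
      · exact Or.inl h
      · exact Or.inr (Or.inl ⟨i, hi, h1, h2, h3⟩)
      · exact Or.inr (Or.inr ⟨i, hi, i', hi', h1, h2, h3⟩)
  rw [this]
  refine isOpen_const.union (IsOpen.union ?_ ?_)
  · exact isOpen_iUnion fun i => isOpen_const.inter ((hld x i).inter (hld x' i))
  · exact isOpen_iUnion fun i => isOpen_iUnion fun i' =>
      isOpen_const.inter (((hld x i).inter (hld x' i')).inter (hsg i i' _ _))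

theorem isClosed_good (ι : ℕ ≃ (Ix Γ →₀ ℤ)) (J : Set (Ix Γ)) :
    IsClosed {q : ((ℕ × ℕ → Bool) × Tab ℕ) × (Ix Γ → Bool) | good ι q.1.1 q.2 J q.1.2} := by
  have : {q : ((ℕ × ℕ → Bool) × Tab ℕ) × (Ix Γ → Bool) | good ι q.1.1 q.2 J q.1.2} =
      ⋂ L : List (ℕ × ℕ), ⋂ k : ℕ,
        ((⋂ p ∈ L.toFinset, ⋂ p' ∈ L.toFinset,
          {q : ((ℕ × ℕ → Bool) × Tab ℕ) × (Ix Γ → Bool) |
            sim (rel Γ q.1.1) q.2 J (ι p'.1 - ι p.1) (ι p'.2 - ι p.2)})ᶜ ∪
        {q : ((ℕ × ℕ → Bool) × Tab ℕ) × (Ix Γ → Bool) |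
          q.1.2 (L.map Prod.fst, k) = q.1.2 (L.map Prod.snd, k)}) := by
    ext q
    simp only [good, Set.mem_ofPred_eq, Set.mem_iInter, Set.mem_union, Set.mem_compl_iff,
      List.mem_toFinset]
    constructor
    · intro h L k
      by_cases hL : ∀ p ∈ L, ∀ p' ∈ L,
          sim (rel Γ q.1.1) q.2 J (ι p'.1 - ι p.1) (ι p'.2 - ι p.2)
      · exact Or.inr (h L hL k)
      · exact Or.inl hL
    · intro h L hL k
      rcases h L k with h' | h'
      · exact absurd hL h'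
      · exact h'
  rw [this]
  refine isClosed_iInter fun L => isClosed_iInter fun k => IsClosed.union ?_ ?_
  · rw [isClosed_compl_iff]
    refine isOpen_biInter_finset fun p _ => isOpen_biInter_finset fun p' _ => ?_
    have hc : Continuous fun q : ((ℕ × ℕ → Bool) × Tab ℕ) × (Ix Γ → Bool) => (q.1.1, q.2) :=
      (continuous_fst.comp continuous_fst).prodMk continuous_snd
    exact (isOpen_sim J (ι p'.1 - ι p.1) (ι p'.2 - ι p.2)).preimage hc
  · have hc : ∀ l : List ℕ, Continuous fun q : ((ℕ × ℕ → Bool) × Tab ℕ) × (Ix Γ → Bool) =>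
        q.1.2 (l, k) := fun l =>
      (continuous_apply (l, k)).comp (continuous_snd.comp continuous_fst)
    exact isClosed_eq (hc _) (hc _)

theorem isClosed_exists_good (ι : ℕ ≃ (Ix Γ →₀ ℤ)) (J : Set (Ix Γ)) :
    IsClosed {q : (ℕ × ℕ → Bool) × Tab ℕ | ∃ s, good ι q.1 s J q.2} := by
  have h := (isClosedMap_fst_of_compactSpace (X := (ℕ × ℕ → Bool) × Tab ℕ)
    (Y := Ix Γ → Bool)) _ (isClosed_good ι J)
  have e : Prod.fst '' {q : ((ℕ × ℕ → Bool) × Tab ℕ) × (Ix Γ → Bool) |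
      good ι q.1.1 q.2 J q.1.2} = {q : (ℕ × ℕ → Bool) × Tab ℕ | ∃ s, good ι q.1 s J q.2} := by
    ext q
    constructor
    · rintro ⟨⟨q', s⟩, hq, rfl⟩
      exact ⟨s, hq⟩
    · rintro ⟨s, hs⟩
      exact ⟨(q, s), hs, rfl⟩
  rwa [e] at h

theorem isClosed_good_fixed (ι : ℕ ≃ (Ix Γ →₀ ℤ)) (J : Set (Ix Γ)) (s : Ix Γ → Bool) :
    IsClosed {q : (ℕ × ℕ → Bool) × Tab ℕ | good ι q.1 s J q.2} := by
  have hc : Continuous fun q : (ℕ × ℕ → Bool) × Tab ℕ => (q, s) :=
    continuous_id.prodMk continuous_const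
  exact (isClosed_good ι J).preimage hc

theorem isClosed_STO : IsClosed {R : ℕ × ℕ → Bool | STO R} := by
  have hc : ∀ p : ℕ × ℕ, Continuous fun R : ℕ × ℕ → Bool => R p := fun p => continuous_apply p
  have ho : ∀ (p : ℕ × ℕ) (b : Bool), IsClosed {R : ℕ × ℕ → Bool | R p = b} := fun p b =>
    isClosed_eq (hc p) continuous_const
  have ho' : ∀ (p : ℕ × ℕ) (b : Bool), IsOpen {R : ℕ × ℕ → Bool | R p = b} := fun p b =>
    (hc p).isOpen_preimage {b} (isOpen_discrete _)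
  have : {R : ℕ × ℕ → Bool | STO R} =
      (⋂ m : ℕ, {R : ℕ × ℕ → Bool | R (m, m) = false}) ∩
      ((⋂ m : ℕ, ⋂ n : ℕ, ⋂ k : ℕ, ({R : ℕ × ℕ → Bool | R (m, n) = true}ᶜ ∪
        ({R : ℕ × ℕ → Bool | R (n, k) = true}ᶜ ∪ {R : ℕ × ℕ → Bool | R (m, k) = true}))) ∩
      (⋂ m : ℕ, ⋂ n : ℕ, ({_R : ℕ × ℕ → Bool | m = n} ∪
        ({R : ℕ × ℕ → Bool | R (m, n) = true} ∪ {R : ℕ × ℕ → Bool | R (n, m) = true})))) := by
    ext R
    simp only [STO, Set.mem_ofPred_eq, Set.mem_inter_iff, Set.mem_iInter, Set.mem_union,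
      Set.mem_compl_iff]
    refine and_congr Iff.rfl (and_congr ?_ ?_)
    · refine forall_congr' fun m => forall_congr' fun n => forall_congr' fun k => ?_
      tauto
    · refine forall_congr' fun m => forall_congr' fun n => ?_
      tauto
  rw [this]
  refine (isClosed_iInter fun m => ho _ _).inter (IsClosed.inter ?_ ?_)
  · refine isClosed_iInter fun m => isClosed_iInter fun n => isClosed_iInter fun k => ?_
    exact ((ho' _ _).isClosed_compl).union (((ho' _ _).isClosed_compl).union (ho _ _))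
  · refine isClosed_iInter fun m => isClosed_iInter fun n => ?_
    exact isClosed_const.union ((ho _ _).union (ho _ _))

end

end Pool.Agent.Helper88.OGT
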