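import Pool.Agent.Helper88.OGT.Perm

/-!
There is no strictly increasing map from the nonnegative cone into a bounded interval.
-/

set_option autoImplicit false

namespace Pool.Agent.Helper88.OGT

section

variable {I : Type} {r : I → I → Prop} [hr : IsStrictTotalOrder I r]

include hr

/-- nonnegative elements -/
def nneg (r : I → I → Prop) (s : I → Bool) (x : I →₀ ℤ) : Prop := x = 0 ∨ pos r s x

/-- two nonnegative elements are supported where their sum is -/
theorem supp_of_add {s : I → Bool} {x y : I →₀ ℤ} (hx : nneg r s x) (hy : nneg r s y)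
    (Q : I → Prop) (hQ : ∀ i, Q i → ∀ j, r j i → Q j) (h : ∀ k, (x + y) k ≠ 0 → Q k) :
    (∀ k, x k ≠ 0 → Q k) ∧ (∀ k, y k ≠ 0 → Q k) := by
  rcases hx with rfl | ⟨i, hi, hi'⟩
  · refine ⟨fun k hk => absurd rfl hk, fun k hk => h k (by simpa using hk)⟩
  · rcases hy with rfl | ⟨j, hj, hj'⟩
    · refine ⟨fun k hk => h k (by simpa using hk), fun k hk => absurd rfl hk⟩
    · obtain ⟨m, -, h2, h3, h4, -⟩ := pos_add hi hj hi' hj'
      have hm : Q m := h m h4.1
      have hQi : Q i := by
        rcases h2 with rfl | h2
        · exact hm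
        · exact hQ m hm i h2
      have hQj : Q j := by
        rcases h3 with rfl | h3
        · exact hm
        · exact hQ m hm j h3
      refine ⟨fun k hk => ?_, fun k hk => ?_⟩
      · by_cases hki : k = i
        · rw [hki]; exact hQi
        · exact hQ i hQi k (hi.2 k hk hki)
      · by_cases hkj : k = j
        · rw [hkj]; exact hQj
        · exact hQ j hQj k (hj.2 k hk hkj)

/-- the coordinate at `j` of a nonnegative element supported up to `j` -/
theorem coord_nonneg {s : I → Bool} {x : I →₀ ℤ} {j : I} (hx : nneg r s x)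
    (h : ∀ k, x k ≠ 0 → k = j ∨ r k j) : 0 ≤ sg (s j) * x j := by
  rcases hx with rfl | ⟨i, hi, hi'⟩
  · simp
  · by_cases hxj : x j = 0
    · rw [hxj]; simp
    · have hij : i = j := by
        by_contra hne
        have h1 : r j i := hi.2 j hxj (Ne.symm hne)
        rcases h i hi.1 with h2 | h2
        · exact hne h2
        · exact r_asymm h1 h2
      subst hij
      exact hi'.le

/-- elements of the cone below `i` -/
def Cone (r : I → I → Prop) (s : I → Bool) (i : I) (z : I →₀ ℤ) : Prop :=
  z = 0 ∨ ∃ j, r j i ∧ ld r z j ∧ 0 < sg (s j) * z j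

theorem no_emb (s s' : I → Bool) (i : I) (hacc : Acc r i) :
    ∀ (φ : (I →₀ ℤ) → (I →₀ ℤ)) (b : I →₀ ℤ),
      (∀ z, Cone r s i z → slt r s' (φ z) b ∧ ∀ k, (b - φ z) k ≠ 0 → r k i) →
      (∀ z w, Cone r s i z → Cone r s i w → slt r s z w → slt r s' (φ z) (φ w)) → False := by
  classical
  induction hacc with
  | intro i _ ih =>
    intro φ b hb hmono
    have hC0 : Cone r s i 0 := Or.inl rfl
    set a := φ 0 with ha
    obtain ⟨⟨j, hj, hjpos⟩, hlow⟩ := hb 0 hC0
    rw [← ha] at hj hjpos hlow
    have hji : r j i := hlow j hj.1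
    set n : ℤ := sg (s' j) * (b - a) j with hn
    -- the points
    let z : ℕ → (I →₀ ℤ) := fun k => Finsupp.single j (sg (s j) * (k : ℤ))
    have hzld : ∀ k : ℕ, k ≠ 0 → ld r (z k) j := by
      intro k hk
      exact ld_single j (mul_ne_zero (sg_ne_zero _) (by exact_mod_cast hk))
    have hzpos : ∀ k : ℕ, k ≠ 0 → 0 < sg (s j) * (z k) j := by
      intro k hk
      have : (z k) j = sg (s j) * (k : ℤ) := by simp [z]
      rw [this, ← mul_assoc, sg_mul_self, one_mul]
      exact_mod_cast Nat.pos_of_ne_zero hk
    have hz0 : z 0 = 0 := by simp [z]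
    have hzC : ∀ k : ℕ, Cone r s i (z k) := by
      intro k
      by_cases hk : k = 0
      · rw [hk, hz0]; exact hC0
      · exact Or.inr ⟨j, hji, hzld k hk, hzpos k hk⟩
    have hdiff : ∀ k : ℕ, z (k + 1) - z k = Finsupp.single j (sg (s j)) := by
      intro k
      simp only [z]
      rw [← Finsupp.single_sub]
      congr 1
      push_cast
      ring
    have hzlt : ∀ k : ℕ, slt r s (z k) (z (k + 1)) := by
      intro k
      show pos r s (z (k + 1) - z k)
      rw [hdiff k]
      exact ⟨j, ld_single j (sg_ne_zero _), by simp [sg_mul_self]⟩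
    let w : ℕ → (I →₀ ℤ) := fun k => φ (z k)
    have hw0 : w 0 = a := by simp only [w, hz0, ha]
    have hwlt : ∀ k, pos r s' (w (k + 1) - w k) := fun k => hmono _ _ (hzC k) (hzC _) (hzlt k)
    have hwb : ∀ k, pos r s' (b - w k) := fun k => (hb _ (hzC k)).1
    have hwa : ∀ k, nneg r s' (w k - a) := by
      intro k
      induction k with
      | zero => rw [hw0]; left; simp
      | succ k ihk =>
        right
        have e : w (k + 1) - a = (w k - a) + (w (k + 1) - w k) := by abel
        rw [e]
        rcases ihk with h | h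
        · rw [h, zero_add]; exact hwlt k
        · exact pos_trans h (hwlt k)
    -- supports up to `j`
    let Q : I → Prop := fun k => k = j ∨ r k j
    have hQ : ∀ i, Q i → ∀ j, r j i → Q j := by
      intro i hi k hk
      rcases hi with rfl | hi
      · exact Or.inr hk
      · exact Or.inr (r_trans hk hi)
    have hQba : ∀ k, (b - a) k ≠ 0 → Q k := by
      intro k hk
      by_cases hkj : k = j
      · exact Or.inl hkj
      · exact Or.inr (hj.2 k hk hkj)
    have hQbw : ∀ m, ∀ k, (b - w m) k ≠ 0 → Q k := by
      intro m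
      have e : (w m - a) + (b - w m) = b - a := by abel
      exact (supp_of_add (hwa m) (Or.inr (hwb m)) Q hQ (by rw [e]; exact hQba)).2
    have hQww : ∀ m, ∀ k, (w (m + 1) - w m) k ≠ 0 → Q k := by
      intro m
      have e : (w (m + 1) - w m) + (b - w (m + 1)) = b - w m := by abel
      exact (supp_of_add (Or.inr (hwlt m)) (Or.inr (hwb (m + 1))) Q hQ (by
        rw [e]; exact hQbw m)).1
    -- coordinates
    let κ : ℕ → ℤ := fun k => sg (s' j) * (w k - a) j
    have hκ0 : κ 0 = 0 := by simp [κ, hw0]
    have hκn : ∀ k, κ k ≤ n := by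
      intro k
      have h1 := coord_nonneg (Or.inr (hwb k)) (hQbw k)
      have e : (b - a) j = (w k - a) j + (b - w k) j := by
        simp only [Finsupp.coe_sub, Pi.sub_apply]; ring
      have : n = κ k + sg (s' j) * (b - w k) j := by
        simp only [hn, κ]; rw [e]; ring
      omega
    have hκs : ∀ k, κ (k + 1) = κ k + sg (s' j) * (w (k + 1) - w k) j := by
      intro k
      simp only [κ]
      have e : (w (k + 1) - a) j = (w k - a) j + (w (k + 1) - w k) j := by
        simp only [Finsupp.coe_sub, Pi.sub_apply]; ring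
      rw [e]; ring
    have hex : ∃ k, (w (k + 1) - w k) j = 0 := by
      by_contra hcon
      push Not at hcon
      have hstep : ∀ k : ℕ, (k : ℤ) ≤ κ k := by
        intro k
        induction k with
        | zero => rw [hκ0]; simp
        | succ k ihk =>
          have h1 := coord_nonneg (Or.inr (hwlt k)) (hQww k)
          have h2 : sg (s' j) * (w (k + 1) - w k) j ≠ 0 :=
            mul_ne_zero (sg_ne_zero _) (hcon k)
          have h3 := hκs k
          push_cast
          omega
      have h1 := hstep (n.toNat + 1)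
      have h2 := hκn (n.toNat + 1)
      push_cast at h1
      omega
    obtain ⟨k, hk⟩ := hex
    -- supports strictly below `j`
    have hlowk : ∀ m, (w (k + 1) - w k) m ≠ 0 → r m j := by
      intro m hm
      rcases hQww k m hm with rfl | h
      · exact absurd hk hm
      · exact h
    have hcone : ∀ y, Cone r s j y → Cone r s i (z k + y) := by
      intro y hy
      rcases hy with rfl | ⟨m, hm, hm1, hm2⟩
      · rw [add_zero]; exact hzC k
      · by_cases hk0 : k = 0
        · rw [hk0, hz0, zero_add]
          exact Or.inr ⟨m, r_trans hm hji, hm1, hm2⟩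
        · obtain ⟨h1, h2⟩ := ld_add_lt (hzld k hk0) hm1 hm
          exact Or.inr ⟨j, hji, h1, by rw [h2]; exact hzpos k hk0⟩
    have hnn : ∀ y, Cone r s j y → nneg r s' (φ (z k + y) - w k) := by
      intro y hy
      rcases hy with rfl | ⟨m, hm, hm1, hm2⟩
      · left; simp [w]
      · right
        refine hmono _ _ (hzC k) (hcone y (Or.inr ⟨m, hm, hm1, hm2⟩)) ?_
        show pos r s (z k + y - z k)
        rw [add_sub_cancel_left]
        exact ⟨m, hm1, hm2⟩
    have hup : ∀ y, Cone r s j y → pos r s' (w (k + 1) - φ (z k + y)) := by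
      intro y hy
      refine hmono _ _ (hcone y hy) (hzC (k + 1)) ?_
      show pos r s (z (k + 1) - (z k + y))
      have e : z (k + 1) - (z k + y) = Finsupp.single j (sg (s j)) + (-y) := by
        rw [← hdiff k]; abel
      rw [e]
      rcases hy with rfl | ⟨m, hm, hm1, hm2⟩
      · rw [neg_zero, add_zero]
        exact ⟨j, ld_single j (sg_ne_zero _), by simp [sg_mul_self]⟩
      · obtain ⟨h1, h2⟩ := ld_add_lt (ld_single (r := r) j (sg_ne_zero (s j))) (ld_neg hm1) hm
        exact ⟨j, h1, by rw [h2]; simp [sg_mul_self]⟩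
    refine ih j hji (fun y => φ (z k + y)) (w (k + 1)) (fun y hy => ⟨hup y hy, ?_⟩) ?_
    · have e : (φ (z k + y) - w k) + (w (k + 1) - φ (z k + y)) = w (k + 1) - w k := by abel
      exact (supp_of_add (hnn y hy) (Or.inr (hup y hy)) (fun m => r m j)
        (fun a ha b hb => r_trans hb ha) (by rw [e]; exact hlowk)).2
    · intro y y' hy hy' hlt
      refine hmono _ _ (hcone y hy) (hcone y' hy') ?_
      show pos r s (z k + y' - (z k + y))
      rw [add_sub_add_left_eq_sub]
      exact hlt

end

end Pool.Agent.Helper88.OGT
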