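import Pool.Agent.Helper88.OGT.Zeta

/-!
Back and forth constructions of permutations, invariant orders and a no embedding lemma.
-/

set_option autoImplicit false

namespace Pool.Agent.Helper88.OGT

/-- The back and forth construction of a permutation of a countable set. -/
theorem bf_perm {K : Type} [Countable K] (G : Set (Finset (K × K)))
    (hforth : ∀ F ∈ G, ∀ c, ∃ d, ∃ F' ∈ G, F ⊆ F' ∧ (c, d) ∈ F')
    (hback : ∀ F ∈ G, ∀ d, ∃ c, ∃ F' ∈ G, F ⊆ F' ∧ (c, d) ∈ F')
    (hfun : ∀ F ∈ G, ∀ p ∈ F, ∀ q ∈ F, (p.1 = q.1 ↔ p.2 = q.2))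
    (F0 : Finset (K × K)) (hF0 : F0 ∈ G) :
    ∃ g : K ≃ K, (∀ p ∈ F0, g p.1 = p.2) ∧ ∀ x y, ∃ F ∈ G, (x, g x) ∈ F ∧ (y, g y) ∈ F := by
  classical
  let P : Type := {F : Finset (K × K) // F ∈ G}
  let D : K ⊕ K → Order.Cofinal P := fun i =>
    match i with
    | Sum.inl c => ⟨{F | ∃ d, (c, d) ∈ F.1}, fun F => by
        obtain ⟨d, F', hF', hsub, hmem⟩ := hforth F.1 F.2 c
        exact ⟨⟨F', hF'⟩, ⟨d, hmem⟩, hsub⟩⟩
    | Sum.inr d => ⟨{F | ∃ c, (c, d) ∈ F.1}, fun F => by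
        obtain ⟨c, F', hF', hsub, hmem⟩ := hback F.1 F.2 d
        exact ⟨⟨F', hF'⟩, ⟨c, hmem⟩, hsub⟩⟩
  let _ : Encodable (K ⊕ K) := Encodable.ofCountable _
  let 𝓘 := Order.idealOfCofinals (⟨F0, hF0⟩ : P) D
  have h1 : ∀ c, ∃ d, ∃ F ∈ 𝓘, (c, d) ∈ F.1 := by
    intro c
    obtain ⟨F, hF, hFI⟩ := Order.cofinal_meets_idealOfCofinals (⟨F0, hF0⟩ : P) D (Sum.inl c)
    obtain ⟨d, hd⟩ := hF
    exact ⟨d, F, hFI, hd⟩
  have h2 : ∀ d, ∃ c, ∃ F ∈ 𝓘, (c, d) ∈ F.1 := by
    intro d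
    obtain ⟨F, hF, hFI⟩ := Order.cofinal_meets_idealOfCofinals (⟨F0, hF0⟩ : P) D (Sum.inr d)
    obtain ⟨c, hc⟩ := hF
    exact ⟨c, F, hFI, hc⟩
  have hdir : ∀ F ∈ 𝓘, ∀ F' ∈ 𝓘, ∃ F'' ∈ 𝓘, F.1 ⊆ F''.1 ∧ F'.1 ⊆ F''.1 := by
    intro F hF F' hF'
    obtain ⟨F'', h, h', h''⟩ := 𝓘.directed F hF F' hF'
    exact ⟨F'', h, h', h''⟩
  have hfun' : ∀ F ∈ 𝓘, ∀ F' ∈ 𝓘, ∀ p ∈ F.1, ∀ q ∈ F'.1, (p.1 = q.1 ↔ p.2 = q.2) := by
    intro F hF F' hF' p hp q hq
    obtain ⟨F'', hF'', hs, hs'⟩ := hdir F hF F' hF'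
    exact hfun F''.1 F''.2 p (hs hp) q (hs' hq)
  choose a Fa hFa ha using h1
  choose b Fb hFb hb using h2
  refine ⟨⟨a, b, fun c => ?_, fun d => ?_⟩, fun p hp => ?_, fun x y => ?_⟩
  · exact ((hfun' _ (hFb (a c)) _ (hFa c) _ (hb (a c)) _ (ha c)).2 rfl)
  · exact ((hfun' _ (hFa (b d)) _ (hFb d) _ (ha (b d)) _ (hb d)).1 rfl)
  · have hF0I : (⟨F0, hF0⟩ : P) ∈ 𝓘 := Order.mem_idealOfCofinals _ _
    exact (hfun' _ (hFa p.1) _ hF0I _ (ha p.1) p hp).1 rfl
  · obtain ⟨F'', hF'', hs, hs'⟩ := hdir _ (hFa x) _ (hFa y)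
    exact ⟨F''.1, F''.2, hs (ha x), hs' (ha y)⟩

section

variable {I : Type} {r : I → I → Prop} [hr : IsStrictTotalOrder I r]

include hr

/-- extension of finite partial similarities to permutations -/
theorem perm_of_sim [Countable I] {s : I → Bool} {J : Set I} (H : ExtHyp r J J Set.univ)
    (F0 : Finset ((I →₀ ℤ) × (I →₀ ℤ)))
    (hF0 : ∀ p ∈ F0, ∀ q ∈ F0, sim r s J (q.1 - p.1) (q.2 - p.2)) :
    ∃ g : (I →₀ ℤ) ≃ (I →₀ ℤ), (∀ p ∈ F0, g p.1 = p.2) ∧
      ∀ x y, sim r s J (y - x) (g y - g x) := by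
  classical
  let G : Set (Finset ((I →₀ ℤ) × (I →₀ ℤ))) :=
    {F | ∀ p ∈ F, ∀ q ∈ F, sim r s J (q.1 - p.1) (q.2 - p.2)}
  have hforth : ∀ F ∈ G, ∀ c, ∃ d, ∃ F' ∈ G, F ⊆ F' ∧ (c, d) ∈ F' := by
    intro F hF c
    obtain ⟨d, -, hd⟩ := ext_step (s := s) H F hF (fun _ _ => Set.mem_univ _) c
    refine ⟨d, insert (c, d) F, ?_, Finset.subset_insert _ _, Finset.mem_insert_self _ _⟩
    intro p hp q hq
    rcases Finset.mem_insert.1 hp with rfl | hp <;> rcases Finset.mem_insert.1 hq with rfl | hq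
    · simp only [sub_self]; exact Or.inl ⟨rfl, rfl⟩
    · exact sim_sub_comm (hd q hq)
    · exact hd p hp
    · exact hF p hp q hq
  have hback : ∀ F ∈ G, ∀ d, ∃ c, ∃ F' ∈ G, F ⊆ F' ∧ (c, d) ∈ F' := by
    intro F hF d
    let Fs : Finset ((I →₀ ℤ) × (I →₀ ℤ)) := F.image Prod.swap
    have hFs : ∀ p ∈ Fs, ∀ q ∈ Fs, sim r s J (q.1 - p.1) (q.2 - p.2) := by
      intro p hp q hq
      obtain ⟨p', hp', rfl⟩ := Finset.mem_image.1 hp
      obtain ⟨q', hq', rfl⟩ := Finset.mem_image.1 hq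
      exact sim_symm (hF p' hp' q' hq')
    obtain ⟨c, -, hc⟩ := ext_step (s := s) H Fs hFs (fun _ _ => Set.mem_univ _) d
    have hc' : ∀ p ∈ F, sim r s J (c - p.1) (d - p.2) := by
      intro p hp
      exact sim_symm (hc p.swap (Finset.mem_image.2 ⟨p, hp, rfl⟩))
    refine ⟨c, insert (c, d) F, ?_, Finset.subset_insert _ _, Finset.mem_insert_self _ _⟩
    intro p hp q hq
    rcases Finset.mem_insert.1 hp with rfl | hp <;> rcases Finset.mem_insert.1 hq with rfl | hq
    · simp only [sub_self]; exact Or.inl ⟨rfl, rfl⟩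
    · exact sim_sub_comm (hc' q hq)
    · exact hc' p hp
    · exact hF p hp q hq
  have hfun : ∀ F ∈ G, ∀ p ∈ F, ∀ q ∈ F, (p.1 = q.1 ↔ p.2 = q.2) := by
    intro F hF p hp q hq
    have := sim_zero (hF q hq p hp)
    rwa [sub_eq_zero, sub_eq_zero] at this
  obtain ⟨g, hg, hg'⟩ := bf_perm G hforth hback hfun F0 hF0
  refine ⟨g, hg, fun x y => ?_⟩
  obtain ⟨F, hF, hx, hy⟩ := hg' x y
  exact hF _ hx _ hy

theorem extHyp_univ : ExtHyp r Set.univ Set.univ Set.univ where
  initJ _ _ _ _ := Set.mem_univ _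
  initJ' _ _ _ _ := Set.mem_univ _
  sub := le_rfl
  closed _ _ _ _ := Set.mem_univ _
  room G hG h := by
    obtain ⟨i, hi⟩ := hG
    exact absurd (Set.mem_univ i) (h i hi)
  nonempty := Set.univ_nonempty

/-- permutations preserving all leading terms of differences -/
def Pres (r : I → I → Prop) (g : (I →₀ ℤ) ≃ (I →₀ ℤ)) : Prop :=
  ∀ x y, sim r (fun _ => true) Set.univ (y - x) (g y - g x)

omit hr in
theorem sim_univ_iff {s : I → Bool} {x x' : I →₀ ℤ} :
    sim r s Set.univ x x' ↔ (x = 0 ∧ x' = 0) ∨ ∃ i, ld r x i ∧ ld r x' i ∧ x i = x' i := by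
  unfold sim
  simp

/-- homogeneity for pairs -/
theorem exists_pres_pair [Countable I] {a b a' b' : I →₀ ℤ}
    (h : ∃ i, ld r (b - a) i ∧ ld r (b' - a') i ∧ (b - a) i = (b' - a') i) :
    ∃ g : (I →₀ ℤ) ≃ (I →₀ ℤ), Pres r g ∧ g a = a' ∧ g b = b' := by
  classical
  have hs : sim r (fun _ => true) Set.univ (b - a) (b' - a') := sim_univ_iff.2 (Or.inr h)
  obtain ⟨g, hg, hg'⟩ := perm_of_sim (s := fun _ => true) (extHyp_univ (r := r))
    {(a, a'), (b, b')} (by
      intro p hp q hq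
      simp only [Finset.mem_insert, Finset.mem_singleton] at hp hq
      rcases hp with rfl | rfl <;> rcases hq with rfl | rfl
      · simp only [sub_self]; exact Or.inl ⟨rfl, rfl⟩
      · exact hs
      · exact sim_sub_comm hs
      · simp only [sub_self]; exact Or.inl ⟨rfl, rfl⟩)
  exact ⟨g, hg', hg (a, a') (by simp), hg (b, b') (by simp)⟩

/-- An invariant strict total order on a set of the form used below is given by signs. -/
theorem sign_determination [Countable I] (lt' : (I →₀ ℤ) → (I →₀ ℤ) → Prop)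
    (D : Set (I →₀ ℤ)) (B : Set I) (o : I →₀ ℤ)
    (hB : ∀ a ∈ D, ∀ b ∈ D, ∀ i, ld r (b - a) i → i ∈ B)
    (hoD : ∀ i ∈ B, ∀ n : ℤ, o + Finsupp.single i n ∈ D)
    (hirr : ∀ a ∈ D, ¬ lt' a a)
    (htr : ∀ a ∈ D, ∀ b ∈ D, ∀ c ∈ D, lt' a b → lt' b c → lt' a c)
    (htot : ∀ a ∈ D, ∀ b ∈ D, a ≠ b → lt' a b ∨ lt' b a)
    (hinv : ∀ g : (I →₀ ℤ) ≃ (I →₀ ℤ), Pres r g → (∃ a ∈ D, g a ∈ D) →
      ∀ a ∈ D, ∀ b ∈ D, lt' a b → lt' (g a) (g b)) :
    ∃ s : I → Bool, ∀ a ∈ D, ∀ b ∈ D, (lt' a b ↔ pos r s (b - a)) := by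
  classical
  have hasymm : ∀ a ∈ D, ∀ b ∈ D, lt' a b → ¬ lt' b a := fun a ha b hb h h' =>
    hirr a ha (htr a ha b hb a ha h h')
  -- transfer along pairs with the same leading term
  have key : ∀ a ∈ D, ∀ b ∈ D, ∀ a' ∈ D, ∀ b' ∈ D,
      (∃ i, ld r (b - a) i ∧ ld r (b' - a') i ∧ (b - a) i = (b' - a') i) →
      lt' a b → lt' a' b' := by
    intro a ha b hb a' ha' b' hb' h hab
    obtain ⟨g, hg, hga, hgb⟩ := exists_pres_pair h
    have := hinv g hg ⟨a, ha, by rw [hga]; exact ha'⟩ a ha b hb hab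
    rwa [hga, hgb] at this
  let s : I → Bool := fun i => decide (lt' o (o + Finsupp.single i 1))
  have hsing : ∀ (i : I) (m k : ℤ), k ≠ 0 →
      (∃ j, ld r ((o + Finsupp.single i (m + k)) - (o + Finsupp.single i m)) j ∧
        ld r ((o + Finsupp.single i k) - o) j ∧
        ((o + Finsupp.single i (m + k)) - (o + Finsupp.single i m)) j =
          ((o + Finsupp.single i k) - o) j) := by
    intro i m k hk
    have e1 : (o + Finsupp.single i (m + k)) - (o + Finsupp.single i m) = Finsupp.single i k := by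
      rw [Finsupp.single_add]; abel
    have e2 : (o + Finsupp.single i k) - o = Finsupp.single i k := by abel
    rw [e1, e2]
    exact ⟨i, ld_single i hk, ld_single i hk, rfl⟩
  have ho0 : ∀ i ∈ B, o ∈ D := by
    intro i hi
    have := hoD i hi 0
    simpa using this
  -- translation invariance on the line through `o`
  have htrans1 : ∀ i ∈ B, ∀ m k : ℤ, k ≠ 0 → lt' o (o + Finsupp.single i k) →
      lt' (o + Finsupp.single i m) (o + Finsupp.single i (m + k)) := by
    intro i hi m k hk h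
    obtain ⟨j, h1, h2, h3⟩ := hsing i m k hk
    exact key _ (ho0 i hi) _ (hoD i hi k) _ (hoD i hi m) _ (hoD i hi (m + k))
      ⟨j, h2, h1, h3.symm⟩ h
  have htrans2 : ∀ i ∈ B, ∀ m k : ℤ, k ≠ 0 → lt' (o + Finsupp.single i k) o →
      lt' (o + Finsupp.single i (m + k)) (o + Finsupp.single i m) := by
    intro i hi m k hk h
    obtain ⟨j, h1, h2, h3⟩ := hsing i m k hk
    refine key _ (hoD i hi k) _ (ho0 i hi) _ (hoD i hi (m + k)) _ (hoD i hi m)
      ⟨j, ?_, ?_, ?_⟩ h
    · have := ld_neg h2; rwa [neg_sub] at this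
    · have := ld_neg h1; rwa [neg_sub] at this
    · have e1 : o - (o + Finsupp.single i k) = -((o + Finsupp.single i k) - o) := by abel
      have e2 : (o + Finsupp.single i m) - (o + Finsupp.single i (m + k)) =
        -((o + Finsupp.single i (m + k)) - (o + Finsupp.single i m)) := by abel
      rw [e1, e2, Finsupp.neg_apply, Finsupp.neg_apply, h3]
  have hne : ∀ (i : I) (n : ℤ), n ≠ 0 → o ≠ o + Finsupp.single i n := by
    intro i n hn h
    have : Finsupp.single i n = 0 := by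
      have := h.symm
      simpa using this
    exact hn (by simpa using this)
  -- the sign of multiples
  have hposn : ∀ i ∈ B, lt' o (o + Finsupp.single i 1) → ∀ n : ℕ,
      lt' o (o + Finsupp.single i ((n : ℤ) + 1)) := by
    intro i hi h1 n
    induction n with
    | zero => simpa using h1
    | succ n ih =>
      have h2 := htrans1 i hi ((n : ℤ) + 1) 1 one_ne_zero h1
      have := htr _ (ho0 i hi) _ (hoD i hi _) _ (hoD i hi _) ih h2
      push_cast
      exact this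
  have hnegn : ∀ i ∈ B, lt' (o + Finsupp.single i 1) o → ∀ n : ℕ,
      lt' (o + Finsupp.single i ((n : ℤ) + 1)) o := by
    intro i hi h1 n
    induction n with
    | zero => simpa using h1
    | succ n ih =>
      have h2 := htrans2 i hi ((n : ℤ) + 1) 1 one_ne_zero h1
      have := htr _ (hoD i hi _) _ (hoD i hi _) _ (ho0 i hi) h2 ih
      push_cast
      exact this
  have hsgn : ∀ i ∈ B, ∀ n : ℤ, n ≠ 0 →
      (lt' o (o + Finsupp.single i n) ↔ 0 < sg (s i) * n) := by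
    intro i hi n hn
    by_cases h1 : lt' o (o + Finsupp.single i 1)
    · have hs : s i = true := by simp [s, h1]
      rw [hs]
      simp only [sg, if_true, one_mul]
      constructor
      · intro h
        by_contra hcon
        have hn' : 0 < -n := by omega
        obtain ⟨m, hm⟩ := Int.eq_ofNat_of_zero_le hn'.le
        obtain ⟨k, rfl⟩ : ∃ k : ℕ, m = k + 1 := ⟨m - 1, by omega⟩
        have h2 := hposn i hi h1 k
        have e : ((k : ℤ) + 1) = -n := by rw [hm]; push_cast; ring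
        rw [e] at h2
        have h3 := htrans1 i hi n (-n) (by omega) h2
        rw [add_neg_cancel] at h3
        simp only [Finsupp.single_zero, add_zero] at h3
        exact hasymm _ (ho0 i hi) _ (hoD i hi n) h h3
      · intro h
        obtain ⟨m, hm⟩ := Int.eq_ofNat_of_zero_le h.le
        obtain ⟨k, rfl⟩ : ∃ k : ℕ, m = k + 1 := ⟨m - 1, by omega⟩
        have h2 := hposn i hi h1 k
        have e : ((k : ℤ) + 1) = n := by rw [hm]; push_cast; ring
        rwa [e] at h2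
    · have hs : s i = false := by simp [s, h1]
      have h1' : lt' (o + Finsupp.single i 1) o := by
        rcases htot _ (ho0 i hi) _ (hoD i hi 1) (hne i 1 one_ne_zero) with h | h
        · exact absurd h h1
        · exact h
      rw [hs]
      simp only [sg]
      constructor
      · intro h
        by_contra hcon
        have hn' : 0 < n := by
          simp at hcon
          omega
        obtain ⟨m, hm⟩ := Int.eq_ofNat_of_zero_le hn'.le
        obtain ⟨k, rfl⟩ : ∃ k : ℕ, m = k + 1 := ⟨m - 1, by omega⟩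
        have h2 := hnegn i hi h1' k
        have e : ((k : ℤ) + 1) = n := by rw [hm]; push_cast; ring
        rw [e] at h2
        exact hasymm _ (ho0 i hi) _ (hoD i hi n) h h2
      · intro h
        have hn' : 0 < -n := by
          simp at h
          omega
        obtain ⟨m, hm⟩ := Int.eq_ofNat_of_zero_le hn'.le
        obtain ⟨k, rfl⟩ : ∃ k : ℕ, m = k + 1 := ⟨m - 1, by omega⟩
        have h2 := hnegn i hi h1' k
        have e : ((k : ℤ) + 1) = -n := by rw [hm]; push_cast; ring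
        rw [e] at h2
        have h3 := htrans2 i hi n (-n) (by omega) h2
        rw [add_neg_cancel] at h3
        simpa using h3
  refine ⟨s, fun a ha b hb => ?_⟩
  by_cases hab : a = b
  · subst hab
    constructor
    · intro h; exact absurd h (hirr a ha)
    · intro h; exact absurd (sub_self a) (pos_ne_zero h)
  · obtain ⟨i, hi⟩ := ld_exists (r := r) (sub_ne_zero.2 (Ne.symm hab))
    have hiB := hB a ha b hb i hi
    set n := (b - a) i with hn
    have hn0 : n ≠ 0 := hi.1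
    have e2 : (o + Finsupp.single i n) - o = Finsupp.single i n := by abel
    have hl2 : ld r ((o + Finsupp.single i n) - o) i := by
      rw [e2]; exact ld_single i hn0
    have hv2 : ((o + Finsupp.single i n) - o) i = n := by
      rw [e2]; simp
    have h1 : lt' a b ↔ lt' o (o + Finsupp.single i n) := by
      constructor
      · exact key a ha b hb _ (ho0 i hiB) _ (hoD i hiB n) ⟨i, hi, hl2, hv2.symm⟩
      · exact key _ (ho0 i hiB) _ (hoD i hiB n) a ha b hb ⟨i, hl2, hi, hv2⟩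
    rw [h1, hsgn i hiB n hn0]
    constructor
    · intro h; exact ⟨i, hi, h⟩
    · rintro ⟨j, hj, hj'⟩
      rw [ld_unique hi hj]
      have : n = (b - a) j := by rw [hn, ld_unique hi hj]
      rw [this]; exact hj'

end

end Pool.Agent.Helper88.OGT
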