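import Mathlib

/-!
Finitely supported integer valued functions on a strict total order, compared by their last
difference; leading terms, signs and a one step extension lemma.
-/

set_option autoImplicit false

namespace Pool.Agent.Helper88.OGT

section

variable {I : Type} (r : I → I → Prop)

/-- `i` is the leading index of `x` -/
def ld (x : I →₀ ℤ) (i : I) : Prop := x i ≠ 0 ∧ ∀ j, x j ≠ 0 → j ≠ i → r j i

/-- sign attached to a truth value -/
def sg (b : Bool) : ℤ := if b then 1 else -1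

/-- `x` is positive for the sign function `s` -/
def pos (s : I → Bool) (x : I →₀ ℤ) : Prop := ∃ i, ld r x i ∧ 0 < sg (s i) * x i

/-- Similarity of two elements: the same leading term if it is in `J`, otherwise both leading
indices are outside `J` and the signs agree. -/
def sim (s : I → Bool) (J : Set I) (x x' : I →₀ ℤ) : Prop :=
  (x = 0 ∧ x' = 0) ∨ (∃ i ∈ J, ld r x i ∧ ld r x' i ∧ x i = x' i) ∨
    (∃ i, i ∉ J ∧ ∃ i', i' ∉ J ∧ ld r x i ∧ ld r x' i' ∧
      (0 < sg (s i) * x i ↔ 0 < sg (s i') * x' i'))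

theorem sg_mul_self (b : Bool) : sg b * sg b = 1 := by cases b <;> simp [sg]

theorem sg_ne_zero (b : Bool) : sg b ≠ 0 := by cases b <;> simp [sg]

theorem sg_not (b : Bool) : sg (!b) = - sg b := by cases b <;> simp [sg]

variable {r} [hr : IsStrictTotalOrder I r]

include hr

theorem r_cases (i j : I) : r i j ∨ i = j ∨ r j i := by
  rcases hr.toTrichotomous.trichotomous i j with h
  by_cases h1 : r i j
  · exact Or.inl h1
  · by_cases h2 : r j i
    · exact Or.inr (Or.inr h2)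
    · exact Or.inr (Or.inl (h h1 h2))

theorem r_trans {i j k : I} (h : r i j) (h' : r j k) : r i k :=
  hr.toIsStrictOrder.toIsTrans.trans _ _ _ h h'

theorem r_irrefl (i : I) : ¬ r i i := hr.toIsStrictOrder.toIrrefl.irrefl i

theorem r_asymm {i j : I} (h : r i j) (h' : r j i) : False := r_irrefl i (r_trans h h')

theorem r_ne {i j : I} (h : r i j) : i ≠ j := by
  rintro rfl; exact r_irrefl i h

theorem ld_unique {x : I →₀ ℤ} {i j : I} (hi : ld r x i) (hj : ld r x j) : i = j := by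
  by_contra hne
  exact r_asymm (hi.2 j hj.1 (Ne.symm hne)) (hj.2 i hi.1 hne)

omit hr in
/-- in a finite nonempty family there is a maximal value for a strict total order -/
theorem exists_max_rel {α β : Type} (ρ : α → α → Prop) [IsStrictTotalOrder α ρ] (F : Finset β)
    (hF : F.Nonempty) (f : β → α) : ∃ p ∈ F, ∀ q ∈ F, f q = f p ∨ ρ (f q) (f p) := by
  classical
  let _ := linearOrderOfSTO ρ
  obtain ⟨p, hp, h⟩ := F.exists_max_image f hF
  refine ⟨p, hp, fun q hq => ?_⟩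
  rcases (h q hq).eq_or_lt with h1 | h1
  · exact Or.inl h1
  · exact Or.inr h1

omit hr in
/-- in a finite nonempty family there is a minimal value for a strict total order -/
theorem exists_min_rel {α β : Type} (ρ : α → α → Prop) [IsStrictTotalOrder α ρ] (F : Finset β)
    (hF : F.Nonempty) (f : β → α) : ∃ p ∈ F, ∀ q ∈ F, f q = f p ∨ ρ (f p) (f q) := by
  classical
  let _ := linearOrderOfSTO ρ
  obtain ⟨p, hp, h⟩ := F.exists_min_image f hF
  refine ⟨p, hp, fun q hq => ?_⟩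
  rcases (h q hq).eq_or_lt with h1 | h1
  · exact Or.inl h1.symm
  · exact Or.inr h1

theorem ld_exists {x : I →₀ ℤ} (hx : x ≠ 0) : ∃ i, ld r x i := by
  have hne : x.support.Nonempty := Finsupp.support_nonempty_iff.2 hx
  obtain ⟨i, hi, h⟩ := exists_max_rel r x.support hne id
  refine ⟨i, by simpa using hi, fun j hj hji => ?_⟩
  rcases h j (by simpa using hj) with h1 | h1
  · exact absurd h1 hji
  · exact h1

omit hr in
theorem ld_ne_zero {x : I →₀ ℤ} {i : I} (h : ld r x i) : x ≠ 0 := by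
  rintro rfl; exact h.1 rfl

omit hr in
theorem ld_neg {x : I →₀ ℤ} {i : I} (h : ld r x i) : ld r (-x) i := by
  refine ⟨by simpa using h.1, fun j hj hji => h.2 j (by simpa using hj) hji⟩

/-- adding an element supported strictly below the leading index -/
theorem ld_add_low {x y : I →₀ ℤ} {i : I} (hx : ld r x i) (hy : ∀ j, y j ≠ 0 → r j i) :
    ld r (x + y) i ∧ (x + y) i = x i := by
  have hyi : y i = 0 := by
    by_contra h; exact r_irrefl i (hy i h)
  have e : (x + y) i = x i := by simp [hyi]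
  refine ⟨⟨by rw [e]; exact hx.1, fun j hj hji => ?_⟩, e⟩
  by_cases hyj : y j = 0
  · have : x j ≠ 0 := by simpa [hyj] using hj
    exact hx.2 j this hji
  · exact hy j hyj

theorem low_of_ld {y : I →₀ ℤ} {i j : I} (hy : ld r y j) (h : r j i) : ∀ k, y k ≠ 0 → r k i := by
  intro k hk
  by_cases hkj : k = j
  · rw [hkj]; exact h
  · exact r_trans (hy.2 k hk hkj) h

theorem ld_add_lt {x y : I →₀ ℤ} {i j : I} (hx : ld r x i) (hy : ld r y j) (h : r j i) :
    ld r (x + y) i ∧ (x + y) i = x i :=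
  ld_add_low hx (low_of_ld hy h)

theorem ld_add_gt {x y : I →₀ ℤ} {i j : I} (hx : ld r x i) (hy : ld r y j) (h : r i j) :
    ld r (x + y) j ∧ (x + y) j = y j := by
  rw [add_comm x y]; exact ld_add_low hy (low_of_ld hx h)

omit hr in
theorem ld_add_same {x y : I →₀ ℤ} {i : I} (hx : ld r x i) (hy : ld r y i)
    (h : x i + y i ≠ 0) : ld r (x + y) i := by
  refine ⟨by simpa using h, fun j hj hji => ?_⟩
  by_cases hyj : y j = 0
  · have : x j ≠ 0 := by simpa [hyj] using hj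
    exact hx.2 j this hji
  · exact hy.2 j hyj hji

omit hr in
/-- cancellation of the leading terms -/
theorem low_of_cancel {x y : I →₀ ℤ} {i : I} (hx : ld r x i) (hy : ld r y i)
    (h : x i + y i = 0) : ∀ j, (x + y) j ≠ 0 → r j i := by
  intro j hj
  have hji : j ≠ i := by
    rintro rfl; exact hj (by simpa using h)
  by_cases hyj : y j = 0
  · have : x j ≠ 0 := by simpa [hyj] using hj
    exact hx.2 j this hji
  · exact hy.2 j hyj hji

omit hr in
theorem ld_single (i : I) {n : ℤ} (hn : n ≠ 0) : ld r (Finsupp.single i n) i := by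
  classical
  refine ⟨by simpa using hn, fun j hj hji => ?_⟩
  exact absurd (Finsupp.single_eq_of_ne hji) hj

/-! ### signs -/

theorem pos_or_neg {s : I → Bool} {x : I →₀ ℤ} (hx : x ≠ 0) : pos r s x ∨ pos r s (-x) := by
  obtain ⟨i, hi⟩ := ld_exists (r := r) hx
  have h0 : sg (s i) * x i ≠ 0 := mul_ne_zero (sg_ne_zero _) hi.1
  rcases lt_or_gt_of_ne h0 with h | h
  · right
    refine ⟨i, ld_neg hi, ?_⟩
    simp only [Finsupp.coe_neg, Pi.neg_apply, mul_neg]
    omega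
  · left
    exact ⟨i, hi, h⟩

theorem pos_neg_false {s : I → Bool} {x : I →₀ ℤ} (h : pos r s x) (h' : pos r s (-x)) :
    False := by
  obtain ⟨i, hi, hi'⟩ := h
  obtain ⟨j, hj, hj'⟩ := h'
  have hj2 : ld r x j := by
    have := ld_neg hj
    simpa using this
  have := ld_unique hi hj2
  subst this
  simp only [Finsupp.coe_neg, Pi.neg_apply, mul_neg] at hj'
  omega

omit hr in
theorem pos_ne_zero {s : I → Bool} {x : I →₀ ℤ} (h : pos r s x) : x ≠ 0 := by
  obtain ⟨i, hi, -⟩ := h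
  exact ld_ne_zero hi

theorem not_pos_of_ld {s : I → Bool} {x : I →₀ ℤ} {i : I} (hi : ld r x i)
    (h : ¬ 0 < sg (s i) * x i) : ¬ pos r s x := by
  rintro ⟨j, hj, hj'⟩
  rw [ld_unique hi hj] at h
  exact h hj'

/-- the leading index of a sum of two positive elements -/
theorem pos_add {s : I → Bool} {x y : I →₀ ℤ} {i j : I} (hi : ld r x i) (hj : ld r y j)
    (hx : 0 < sg (s i) * x i) (hy : 0 < sg (s j) * y j) :
    ∃ k, (k = i ∨ k = j) ∧ (k = i ∨ r i k) ∧ (k = j ∨ r j k) ∧ ld r (x + y) k ∧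
      0 < sg (s k) * (x + y) k := by
  rcases r_cases (r := r) i j with h | h | h
  · obtain ⟨h1, h2⟩ := ld_add_gt hi hj h
    exact ⟨j, Or.inr rfl, Or.inr h, Or.inl rfl, h1, by rw [h2]; exact hy⟩
  · subst h
    have hsum : 0 < sg (s i) * (x i + y i) := by rw [mul_add]; omega
    have hne : x i + y i ≠ 0 := by
      intro h0; rw [h0] at hsum; simp at hsum
    exact ⟨i, Or.inl rfl, Or.inl rfl, Or.inl rfl, ld_add_same hi hj hne, by simpa using hsum⟩
  · obtain ⟨h1, h2⟩ := ld_add_lt hi hj h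
    exact ⟨i, Or.inl rfl, Or.inl rfl, Or.inr h, h1, by rw [h2]; exact hx⟩

theorem pos_trans {s : I → Bool} {x y : I →₀ ℤ} (hx : pos r s x) (hy : pos r s y) :
    pos r s (x + y) := by
  obtain ⟨i, hi, hi'⟩ := hx
  obtain ⟨j, hj, hj'⟩ := hy
  obtain ⟨k, -, -, -, hk, hk'⟩ := pos_add hi hj hi' hj'
  exact ⟨k, hk, hk'⟩

/-- the strict order given by a sign function -/
def slt (r : I → I → Prop) (s : I → Bool) (a b : I →₀ ℤ) : Prop := pos r s (b - a)

instance slt_sto (s : I → Bool) : IsStrictTotalOrder (I →₀ ℤ) (slt r s) where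
  trichotomous a b h1 h2 := by
    by_contra hne
    have hx : b - a ≠ 0 := sub_ne_zero.2 (Ne.symm hne)
    rcases pos_or_neg (r := r) (s := s) hx with h | h
    · exact h1 h
    · exact h2 (by rw [neg_sub] at h; exact h)
  irrefl a h := by
    have := pos_ne_zero h
    simp at this
  trans a b c h1 h2 := by
    have := pos_trans h1 h2
    have e : b - a + (c - b) = c - a := by abel
    rw [e] at this
    exact this

/-! ### similarity -/

omit hr in
theorem sim_symm {s : I → Bool} {J : Set I} {x x' : I →₀ ℤ} (h : sim r s J x x') :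
    sim r s J x' x := by
  rcases h with ⟨h1, h2⟩ | ⟨i, hi, h1, h2, h3⟩ | ⟨i, hi, i', hi', h1, h2, h3⟩
  · exact Or.inl ⟨h2, h1⟩
  · exact Or.inr (Or.inl ⟨i, hi, h2, h1, h3.symm⟩)
  · exact Or.inr (Or.inr ⟨i', hi', i, hi, h2, h1, h3.symm⟩)

omit hr in
theorem sim_neg {s : I → Bool} {J : Set I} {x x' : I →₀ ℤ} (h : sim r s J x x') :
    sim r s J (-x) (-x') := by
  rcases h with ⟨h1, h2⟩ | ⟨i, hi, h1, h2, h3⟩ | ⟨i, hi, i', hi', h1, h2, h3⟩
  · left; subst h1; subst h2; simp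
  · refine Or.inr (Or.inl ⟨i, hi, ld_neg h1, ld_neg h2, by simp [h3]⟩)
  · refine Or.inr (Or.inr ⟨i, hi, i', hi', ld_neg h1, ld_neg h2, ?_⟩)
    have e1 : sg (s i) * x i ≠ 0 := mul_ne_zero (sg_ne_zero _) h1.1
    have e2 : sg (s i') * x' i' ≠ 0 := mul_ne_zero (sg_ne_zero _) h2.1
    simp only [Finsupp.coe_neg, Pi.neg_apply, mul_neg]
    omega

omit hr in
theorem sim_sub_comm {s : I → Bool} {J : Set I} {a b a' b' : I →₀ ℤ}
    (h : sim r s J (a - b) (a' - b')) : sim r s J (b - a) (b' - a') := by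
  have := sim_neg h
  rwa [neg_sub, neg_sub] at this

omit hr in
theorem sim_mono {s : I → Bool} {J J' : Set I} (hJ : J' ⊆ J) {x x' : I →₀ ℤ}
    (h : sim r s J x x') : sim r s J' x x' := by
  rcases h with ⟨h1, h2⟩ | ⟨i, hi, h1, h2, h3⟩ | ⟨i, hi, i', hi', h1, h2, h3⟩
  · exact Or.inl ⟨h1, h2⟩
  · by_cases hi' : i ∈ J'
    · exact Or.inr (Or.inl ⟨i, hi', h1, h2, h3⟩)
    · exact Or.inr (Or.inr ⟨i, hi', i, hi', h1, h2, by rw [h3]⟩)
  · exact Or.inr (Or.inr ⟨i, fun h => hi (hJ h), i', fun h => hi' (hJ h), h1, h2, h3⟩)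

omit hr in
theorem sim_not {s : I → Bool} {J : Set I} {x x' : I →₀ ℤ} (h : sim r s J x x') :
    sim r (fun i => !(s i)) J x x' := by
  rcases h with ⟨h1, h2⟩ | ⟨i, hi, h1, h2, h3⟩ | ⟨i, hi, i', hi', h1, h2, h3⟩
  · exact Or.inl ⟨h1, h2⟩
  · exact Or.inr (Or.inl ⟨i, hi, h1, h2, h3⟩)
  · refine Or.inr (Or.inr ⟨i, hi, i', hi', h1, h2, ?_⟩)
    have e1 : sg (s i) * x i ≠ 0 := mul_ne_zero (sg_ne_zero _) h1.1
    have e2 : sg (s i') * x' i' ≠ 0 := mul_ne_zero (sg_ne_zero _) h2.1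
    rw [sg_not, sg_not]
    simp only [neg_mul]
    omega

omit hr in
theorem sim_not_iff {s : I → Bool} {J : Set I} {x x' : I →₀ ℤ} :
    sim r (fun i => !(s i)) J x x' ↔ sim r s J x x' := by
  constructor
  · intro h
    have := sim_not h
    simpa using this
  · exact sim_not

theorem sim_refl (s : I → Bool) (x : I →₀ ℤ) (J : Set I) : sim r s J x x := by
  by_cases hx : x = 0
  · exact Or.inl ⟨hx, hx⟩
  · obtain ⟨i, hi⟩ := ld_exists (r := r) hx
    by_cases hiJ : i ∈ J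
    · exact Or.inr (Or.inl ⟨i, hiJ, hi, hi, rfl⟩)
    · exact Or.inr (Or.inr ⟨i, hiJ, i, hiJ, hi, hi, Iff.rfl⟩)

theorem sim_pos {s : I → Bool} {J : Set I} {x x' : I →₀ ℤ} (h : sim r s J x x')
    (hp : pos r s x) : pos r s x' := by
  rcases h with ⟨h1, h2⟩ | ⟨i, hi, h1, h2, h3⟩ | ⟨i, hi, i', hi', h1, h2, h3⟩
  · exact absurd h1 (pos_ne_zero hp)
  · obtain ⟨j, hj, hj'⟩ := hp
    have := ld_unique h1 hj
    subst this
    exact ⟨i, h2, by rw [← h3]; exact hj'⟩
  · obtain ⟨j, hj, hj'⟩ := hp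
    have := ld_unique h1 hj
    subst this
    exact ⟨i', h2, h3.1 hj'⟩

omit hr in
theorem sim_zero {s : I → Bool} {J : Set I} {x x' : I →₀ ℤ} (h : sim r s J x x') :
    x = 0 ↔ x' = 0 := by
  rcases h with ⟨h1, h2⟩ | ⟨i, hi, h1, h2, h3⟩ | ⟨i, hi, i', hi', h1, h2, h3⟩
  · exact ⟨fun _ => h2, fun _ => h1⟩
  · exact ⟨fun h => absurd h (ld_ne_zero h1), fun h => absurd h (ld_ne_zero h2)⟩
  · exact ⟨fun h => absurd h (ld_ne_zero h1), fun h => absurd h (ld_ne_zero h2)⟩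

/-! ### the one step extension lemma -/

/-- the assumptions on the two initial segments and on the target set -/
structure ExtHyp (r : I → I → Prop) (J J' : Set I) (K' : Set (I →₀ ℤ)) : Prop where
  initJ : ∀ i ∈ J, ∀ j, r j i → j ∈ J
  initJ' : ∀ i ∈ J', ∀ j, r j i → j ∈ J'
  sub : J' ⊆ J
  closed : ∀ b ∈ K', ∀ x : I →₀ ℤ, (∃ i ∈ J, ld r x i) → b + x ∈ K'
  room : ∀ G : Finset I, G.Nonempty → (∀ i ∈ G, i ∉ J) →
    ∃ j, j ∉ J' ∧ (∀ i ∈ G, r j i) ∧ ∀ b ∈ K', ∀ z : ℤ, b + Finsupp.single j z ∈ K'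
  nonempty : K'.Nonempty

theorem ext_caseA {s : I → Bool} {J J' : Set I} {K' : Set (I →₀ ℤ)} (H : ExtHyp r J J' K')
    (F : Finset ((I →₀ ℤ) × (I →₀ ℤ)))
    (hF : ∀ p ∈ F, ∀ q ∈ F, sim r s J (q.1 - p.1) (q.2 - p.2))
    (hFK : ∀ p ∈ F, p.2 ∈ K') (c : I →₀ ℤ) (hc : ∀ p ∈ F, c ≠ p.1)
    (hA : ∃ p ∈ F, ∃ i ∈ J, ld r (c - p.1) i) :
    ∃ d ∈ K', ∀ p ∈ F, sim r s J' (c - p.1) (d - p.2) := by
  classical
  -- the leading index as a function
  have hidx : ∀ p : (I →₀ ℤ) × (I →₀ ℤ), ∃ i, p ∈ F → ld r (c - p.1) i := by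
    intro p
    by_cases hp : p ∈ F
    · obtain ⟨i, hi⟩ := ld_exists (r := r) (sub_ne_zero.2 (hc p hp))
      exact ⟨i, fun _ => hi⟩
    · obtain ⟨p0, hp0, i, hi, -⟩ := hA
      exact ⟨i, fun h => absurd h hp⟩
  choose idx hidx using hidx
  obtain ⟨p1, hp1, i1, hi1J, hi1⟩ := hA
  obtain ⟨p, hp, hmin⟩ := exists_min_rel r F ⟨p1, hp1⟩ idx
  set i0 := idx p with hi0
  have hld : ld r (c - p.1) i0 := hidx p hp
  have hi0J : i0 ∈ J := by
    have e1 : idx p1 = i1 := ld_unique (hidx p1 hp1) hi1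
    rcases hmin p1 hp1 with h | h
    · rw [← h, e1]; exact hi1J
    · rw [e1] at h; exact H.initJ i1 hi1J _ h
  set x := c - p.1 with hx
  refine ⟨p.2 + x, H.closed _ (hFK p hp) x ⟨i0, hi0J, hld⟩, fun q hq => ?_⟩
  apply sim_mono H.sub
  set w := p.1 - q.1 with hw
  set w' := p.2 - q.2 with hw'
  have e1 : c - q.1 = x + w := by rw [hx, hw]; abel
  have e2 : p.2 + x - q.2 = x + w' := by rw [hw']; abel
  rw [e1, e2]
  have hsim : sim r s J w w' := hF q hq p hp
  have hne : x + w ≠ 0 := by rw [← e1]; exact sub_ne_zero.2 (hc q hq)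
  rcases hsim with ⟨h1, h2⟩ | ⟨i, hi, h1, h2, h3⟩ | ⟨i, hi, i', hi', h1, h2, h3⟩
  · rw [h1, h2, add_zero]; exact sim_refl s x J
  · rcases r_cases (r := r) i i0 with h | h | h
    · obtain ⟨a1, a2⟩ := ld_add_lt hld h1 h
      obtain ⟨b1, b2⟩ := ld_add_lt hld h2 h
      exact Or.inr (Or.inl ⟨i0, hi0J, a1, b1, by rw [a2, b2]⟩)
    · subst h
      have hsum : x i0 + w i0 ≠ 0 := by
        intro h0
        have hlow := low_of_cancel hld h1 h0
        obtain ⟨k, hk⟩ := ld_exists (r := r) hne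
        have hki : r k i0 := hlow k hk.1
        have hk' : ld r (c - q.1) k := by rw [e1]; exact hk
        have : idx q = k := ld_unique (hidx q hq) hk'
        rcases hmin q hq with h | h
        · rw [this] at h; exact r_ne hki h
        · rw [this] at h; exact r_asymm h hki
      have hsum' : x i0 + w' i0 ≠ 0 := by rw [← h3]; exact hsum
      exact Or.inr (Or.inl ⟨i0, hi0J, ld_add_same hld h1 hsum, ld_add_same hld h2 hsum',
        by simp [h3]⟩)
    · obtain ⟨a1, a2⟩ := ld_add_gt hld h1 h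
      obtain ⟨b1, b2⟩ := ld_add_gt hld h2 h
      exact Or.inr (Or.inl ⟨i, hi, a1, b1, by rw [a2, b2, h3]⟩)
  · have key : ∀ k, k ∉ J → r i0 k := by
      intro k hk
      rcases r_cases (r := r) i0 k with h | h | h
      · exact h
      · exact absurd (h ▸ hi0J) hk
      · exact absurd (H.initJ _ hi0J _ h) hk
    obtain ⟨a1, a2⟩ := ld_add_gt hld h1 (key i hi)
    obtain ⟨b1, b2⟩ := ld_add_gt hld h2 (key i' hi')
    exact Or.inr (Or.inr ⟨i, hi, i', hi', a1, b1, by rw [a2, b2]; exact h3⟩)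

theorem ext_caseB {s : I → Bool} {J J' : Set I} {K' : Set (I →₀ ℤ)} (H : ExtHyp r J J' K')
    (F : Finset ((I →₀ ℤ) × (I →₀ ℤ)))
    (hF : ∀ p ∈ F, ∀ q ∈ F, sim r s J (q.1 - p.1) (q.2 - p.2))
    (hFK : ∀ p ∈ F, p.2 ∈ K') (c : I →₀ ℤ) (hc : ∀ p ∈ F, c ≠ p.1)
    (hB : ∀ p ∈ F, ∀ i, ld r (c - p.1) i → i ∉ J)
    (hL : ∃ p ∈ F, pos r s (c - p.1)) :
    ∃ d ∈ K', ∀ p ∈ F, sim r s J' (c - p.1) (d - p.2) := by
  classical
  let L : Finset ((I →₀ ℤ) × (I →₀ ℤ)) := F.filter fun p => pos r s (c - p.1)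
  have hLne : L.Nonempty := by
    obtain ⟨p, hp, hpos⟩ := hL
    exact ⟨p, by simp [L, hp, hpos]⟩
  obtain ⟨p0, hp0L, hmax⟩ := exists_max_rel (slt r s) L hLne Prod.snd
  have hp0F : p0 ∈ F := (Finset.mem_filter.1 hp0L).1
  have hp0pos : pos r s (c - p0.1) := (Finset.mem_filter.1 hp0L).2
  let Up : Finset ((I →₀ ℤ) × (I →₀ ℤ)) := F.filter fun p => pos r s (p.1 - c)
  -- elements of `Up` are far above `p0.2`
  have hUp : ∀ q : (I →₀ ℤ) × (I →₀ ℤ), ∃ i, q ∈ Up →
      ld r (q.2 - p0.2) i ∧ i ∉ J ∧ 0 < sg (s i) * (q.2 - p0.2) i := by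
    intro q
    obtain ⟨i0, hi0, hi0'⟩ := hp0pos
    by_cases hq : q ∈ Up
    · obtain ⟨hqF, hqpos⟩ := Finset.mem_filter.1 hq
      obtain ⟨i1, hi1, hi1'⟩ := hqpos
      have hi0J : i0 ∉ J := hB p0 hp0F i0 hi0
      have hi1J : i1 ∉ J := hB q hqF i1 (by
        have := ld_neg hi1
        rwa [neg_sub] at this)
      obtain ⟨k, hk1, hk2, hk3, hk4, hk5⟩ := pos_add hi1 hi0 hi1' hi0'
      have e : q.1 - c + (c - p0.1) = q.1 - p0.1 := by abel
      rw [e] at hk4 hk5
      have hkJ : k ∉ J := by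
        rcases hk1 with rfl | rfl
        · exact hi1J
        · exact hi0J
      have hs := hF p0 hp0F q hqF
      rcases hs with ⟨h1, h2⟩ | ⟨i, hi, h1, h2, h3⟩ | ⟨i, hi, i', hi', h1, h2, h3⟩
      · exact absurd h1 (ld_ne_zero hk4)
      · rw [ld_unique hk4 h1] at hkJ
        exact absurd hi hkJ
      · have := ld_unique hk4 h1
        subst this
        exact ⟨i', fun _ => ⟨h2, hi', h3.1 hk5⟩⟩
    · exact ⟨i0, fun h => absurd h hq⟩
  choose idx hidx using hUp
  obtain ⟨i0, hi0, hi0'⟩ := hp0pos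
  have hi0J : i0 ∉ J := hB p0 hp0F i0 hi0
  obtain ⟨j, hjJ', hjG, hjK⟩ := H.room (insert i0 (Up.image idx)) ⟨i0, by simp⟩ (by
    intro i hi
    rcases Finset.mem_insert.1 hi with rfl | hi
    · exact hi0J
    · obtain ⟨q, hq, rfl⟩ := Finset.mem_image.1 hi
      exact (hidx q hq).2.1)
  set e : I →₀ ℤ := Finsupp.single j (sg (s j)) with he
  have hej : ld r e j := ld_single j (sg_ne_zero _)
  have hejv : 0 < sg (s j) * e j := by
    rw [he]; simp [sg_mul_self]
  have hJ'up : ∀ k, r j k → k ∉ J' := fun k hk hkJ => hjJ' (H.initJ' k hkJ j hk)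
  refine ⟨p0.2 + e, hjK _ (hFK p0 hp0F) _, fun q hq => ?_⟩
  have hqne : c - q.1 ≠ 0 := sub_ne_zero.2 (hc q hq)
  by_cases hqpos : pos r s (c - q.1)
  · have hqL : q ∈ L := Finset.mem_filter.2 ⟨hq, hqpos⟩
    obtain ⟨i, hi, hi'⟩ := hqpos
    have hiJ : i ∉ J' := fun h => hB q hq i hi (H.sub h)
    have hd : ∃ k, k ∉ J' ∧ ld r (p0.2 + e - q.2) k ∧ 0 < sg (s k) * (p0.2 + e - q.2) k := by
      have e1 : p0.2 + e - q.2 = (p0.2 - q.2) + e := by abel
      rcases hmax q hqL with h | h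
      · rw [e1, h, sub_self, zero_add]
        exact ⟨j, hjJ', hej, hejv⟩
      · obtain ⟨i1, hi1, hi1'⟩ := h
        obtain ⟨k, hk1, hk2, hk3, hk4, hk5⟩ := pos_add hi1 hej hi1' hejv
        refine ⟨k, ?_, by rw [e1]; exact hk4, by rw [e1]; exact hk5⟩
        rcases hk3 with rfl | h
        · exact hjJ'
        · exact hJ'up k h
    obtain ⟨k, hk, hk1, hk2⟩ := hd
    exact Or.inr (Or.inr ⟨i, hiJ, k, hk, hi, hk1, ⟨fun _ => hk2, fun _ => hi'⟩⟩)
  · have hneg : pos r s (q.1 - c) := by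
      rcases pos_or_neg (r := r) (s := s) hqne with h | h
      · exact absurd h hqpos
      · rw [neg_sub] at h; exact h
    have hqU : q ∈ Up := Finset.mem_filter.2 ⟨hq, hneg⟩
    obtain ⟨hk, hkJ, hkpos⟩ := hidx q hqU
    set k := idx q with hkdef
    have hjk : r j k := hjG k (Finset.mem_insert_of_mem (Finset.mem_image.2 ⟨q, hqU, rfl⟩))
    obtain ⟨a1, a2⟩ := ld_add_lt (ld_neg hk) hej hjk
    have e1 : -(q.2 - p0.2) + e = p0.2 + e - q.2 := by abel
    rw [e1] at a1 a2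
    obtain ⟨i, hi⟩ := ld_exists (r := r) hqne
    have hiJ : i ∉ J' := fun h => hB q hq i hi (H.sub h)
    refine Or.inr (Or.inr ⟨i, hiJ, k, hJ'up k hjk, hi, a1, ?_⟩)
    have f1 : ¬ 0 < sg (s i) * (c - q.1) i := fun h => hqpos ⟨i, hi, h⟩
    have f2 : ¬ 0 < sg (s k) * (p0.2 + e - q.2) k := by
      rw [a2]
      simp only [Finsupp.coe_neg, Pi.neg_apply, mul_neg]
      omega
    exact ⟨fun h => absurd h f1, fun h => absurd h f2⟩

/-- The one step extension lemma. -/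
theorem ext_step {s : I → Bool} {J J' : Set I} {K' : Set (I →₀ ℤ)} (H : ExtHyp r J J' K')
    (F : Finset ((I →₀ ℤ) × (I →₀ ℤ)))
    (hF : ∀ p ∈ F, ∀ q ∈ F, sim r s J (q.1 - p.1) (q.2 - p.2))
    (hFK : ∀ p ∈ F, p.2 ∈ K') (c : I →₀ ℤ) :
    ∃ d ∈ K', ∀ p ∈ F, sim r s J' (c - p.1) (d - p.2) := by
  classical
  by_cases hc : ∀ p ∈ F, c ≠ p.1
  · by_cases hA : ∃ p ∈ F, ∃ i ∈ J, ld r (c - p.1) i
    · exact ext_caseA H F hF hFK c hc hA
    · have hB : ∀ p ∈ F, ∀ i, ld r (c - p.1) i → i ∉ J := by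
        intro p hp i hi hiJ
        exact hA ⟨p, hp, i, hiJ, hi⟩
      rcases F.eq_empty_or_nonempty with rfl | ⟨p, hp⟩
      · obtain ⟨d, hd⟩ := H.nonempty
        exact ⟨d, hd, fun p hp => absurd hp (by simp)⟩
      · rcases pos_or_neg (r := r) (s := s) (sub_ne_zero.2 (hc p hp)) with h | h
        · exact ext_caseB H F hF hFK c hc hB ⟨p, hp, h⟩
        · have h' : pos r (fun i => !(s i)) (c - p.1) := by
            obtain ⟨i, hi, hi'⟩ := h
            have hi2 : ld r (c - p.1) i := by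
              have := ld_neg hi
              rwa [neg_neg] at this
            refine ⟨i, hi2, ?_⟩
            rw [sg_not]
            have : (-(c - p.1)) i = -((c - p.1) i) := rfl
            rw [this] at hi'
            linarith
          obtain ⟨d, hd, hd'⟩ := ext_caseB H F (fun p hp q hq => sim_not (hF p hp q hq)) hFK c hc
            hB ⟨p, hp, h'⟩
          exact ⟨d, hd, fun p hp => sim_not_iff.1 (hd' p hp)⟩
  · push Not at hc
    obtain ⟨p, hp, rfl⟩ := hc
    exact ⟨p.2, hFK p hp, fun q hq => sim_mono H.sub (hF q hq p hp)⟩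

end

end Pool.Agent.Helper88.OGT
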